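import Mathlib

/-!
MP_688fd0_co, type C: LEMMA STAR and LEMMA WALK of helper12 (finding 4241).
-/

namespace Pool.Agent.Lib.MP_688fd0_co.SQ5.H64

open Function

noncomputable section

/-- `f` is a fixed point free involution. -/
def IsPair {X : Type*} (f : X → X) : Prop := (∀ x, f (f x) = x) ∧ ∀ x, f x ≠ x

/-- connected by `f` and `g` steps -/
def Con {X : Type*} (f g : X → X) : X → X → Prop :=
  Relation.ReflTransGen (fun x y => y = f x ∨ y = g x)

section Con

variable {X : Type*} {f g : X → X}

theorem Con.refl' (x : X) : Con f g x x := Relation.ReflTransGen.refl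

theorem Con.trans' {x y z : X} (h : Con f g x y) (h' : Con f g y z) : Con f g x z :=
  Relation.ReflTransGen.trans h h'

theorem con_left (x : X) : Con f g x (f x) := Relation.ReflTransGen.single (Or.inl rfl)

theorem con_right (x : X) : Con f g x (g x) := Relation.ReflTransGen.single (Or.inr rfl)

theorem Con.symm' (hf : ∀ x, f (f x) = x) (hg : ∀ x, g (g x) = x) {x y : X}
    (h : Con f g x y) : Con f g y x := by
  induction h with
  | refl => exact Con.refl' _
  | tail _ hs ih =>
    refine Con.trans' ?_ ih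
    rcases hs with h | h
    · exact Relation.ReflTransGen.single (Or.inl (by rw [h, hf]))
    · exact Relation.ReflTransGen.single (Or.inr (by rw [h, hg]))

end Con

/-! ### First return pairing -/

section Return

variable {X : Type*} [Finite X] (O J : X → X)

/-- one step of the dihedral walk -/
def stp (x : X) : X := J (O x)

variable {O J}

omit [Finite X] in
theorem stp_inj (hO : ∀ x, O (O x) = x) (hJ : ∀ x, J (J x) = x) : Injective (stp O J) := by
  intro a b h
  have h1 : J (J (O a)) = J (J (O b)) := congrArg J h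
  rw [hJ, hJ] at h1
  have h2 : O (O a) = O (O b) := congrArg O h1
  rwa [hO, hO] at h2

omit [Finite X] in
theorem stp_J_stp (hO : ∀ x, O (O x) = x) (hJ : ∀ x, J (J x) = x) (z : X) :
    stp O J (J (stp O J z)) = J z := by
  unfold stp
  rw [hJ, hO]

omit [Finite X] in
theorem stp_iter_J (hO : ∀ x, O (O x) = x) (hJ : ∀ x, J (J x) = x) (k : ℕ) (z : X) :
    (stp O J)^[k] (J ((stp O J)^[k] z)) = J z := by
  induction k with
  | zero => rfl
  | succ k ih =>
    rw [Function.iterate_succ_apply, Function.iterate_succ_apply', stp_J_stp hO hJ]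
    exact ih

omit [Finite X] in
/-- `J T^k x = T^(n-k) x` if `J x = x` and `T^n x = x`, `k ≤ n` -/
theorem J_iter (hO : ∀ x, O (O x) = x) (hJ : ∀ x, J (J x) = x) {x : X} (hx : J x = x)
    {n : ℕ} (hn : (stp O J)^[n] x = x) {k : ℕ} (hk : k ≤ n) :
    J ((stp O J)^[k] x) = (stp O J)^[n - k] x := by
  have hinj : Injective ((stp O J)^[k]) := (stp_inj hO hJ).iterate k
  apply hinj
  rw [stp_iter_J hO hJ, hx, ← Function.iterate_add_apply, Nat.add_sub_cancel' hk, hn]

omit [Finite X] in
theorem O_iter (hO : ∀ x, O (O x) = x) (hJ : ∀ x, J (J x) = x) {x : X} (hx : J x = x)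
    {n : ℕ} (hn : (stp O J)^[n] x = x) {k : ℕ} (hk : k + 1 ≤ n) :
    O ((stp O J)^[k] x) = (stp O J)^[n - (k + 1)] x := by
  have h := J_iter hO hJ hx hn hk
  rw [Function.iterate_succ_apply'] at h
  unfold stp at h ⊢
  rw [hJ] at h
  exact h

/-- the period of `x` -/
def per (O J : X → X) (x : X) : ℕ := Function.minimalPeriod (stp O J) x

omit [Finite X] in
theorem iter_per (x : X) : (stp O J)^[per O J x] x = x :=
  Function.iterate_minimalPeriod

theorem per_pos (hO : ∀ x, O (O x) = x) (hJ : ∀ x, J (J x) = x) (x : X) : 0 < per O J x := by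
  apply Function.minimalPeriod_pos_of_mem_periodicPts
  exact (stp_inj hO hJ).mem_periodicPts x

theorem per_even (hO : IsPair O) (hJ : ∀ x, J (J x) = x) {x : X} (hx : J x = x) :
    per O J x = 2 * (per O J x / 2) := by
  have hpos := per_pos hO.1 hJ x
  rcases Nat.even_or_odd' (per O J x) with ⟨m, h | h⟩
  · omega
  · exfalso
    have h1 := O_iter hO.1 hJ hx (iter_per x) (k := m) (by omega)
    rw [show per O J x - (m + 1) = m from by omega] at h1
    exact hO.2 _ h1

/-- the other end of the outside path through `x` -/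
def oth (O J : X → X) (x : X) : X := (stp O J)^[per O J x / 2] x

theorem J_oth (hO : IsPair O) (hJ : ∀ x, J (J x) = x) {x : X} (hx : J x = x) :
    J (oth O J x) = oth O J x := by
  have h := per_even hO hJ hx
  unfold oth
  rw [J_iter hO.1 hJ hx (iter_per x) (by omega)]
  congr 2
  omega

theorem oth_ne (hO : IsPair O) (hJ : ∀ x, J (J x) = x) {x : X} (hx : J x = x) :
    oth O J x ≠ x := by
  intro h
  have h1 := per_even hO hJ hx
  have h2 := per_pos hO.1 hJ x
  have h3 : Function.IsPeriodicPt (stp O J) (per O J x / 2) x := h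
  have h4 := h3.minimalPeriod_le (by omega)
  change per O J x ≤ _ at h4
  omega

theorem per_oth (hO : ∀ x, O (O x) = x) (hJ : ∀ x, J (J x) = x) (x : X) :
    per O J (oth O J x) = per O J x := by
  unfold per oth
  exact Function.minimalPeriod_apply_iterate ((stp_inj hO hJ).mem_periodicPts x) _

theorem oth_oth (hO : IsPair O) (hJ : ∀ x, J (J x) = x) {x : X} (hx : J x = x) :
    oth O J (oth O J x) = x := by
  have h := per_even hO hJ hx
  have h1 : oth O J (oth O J x) = (stp O J)^[per O J (oth O J x) / 2] (oth O J x) := rfl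
  rw [h1, per_oth hO.1 hJ]
  unfold oth
  rw [← Function.iterate_add_apply]
  have h2 : per O J x / 2 + per O J x / 2 = per O J x := by omega
  rw [h2, iter_per]

omit [Finite X] in
theorem con_stp (x : X) : Con O J x (stp O J x) := (con_left x).trans' (con_right _)

omit [Finite X] in
theorem con_iter (k : ℕ) (x : X) : Con O J x ((stp O J)^[k] x) := by
  induction k with
  | zero => exact Con.refl' x
  | succ k ih =>
    rw [Function.iterate_succ_apply']
    exact ih.trans' (con_stp _)

omit [Finite X] in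
theorem con_oth (x : X) : Con O J x (oth O J x) := con_iter _ _

end Return

/-! ### Regions -/

section Regions

variable {E R : Type*} [Finite E] (reg : E → R)

/-- the ends of the region `r` -/
abbrev Fib (r : R) := {e : E // reg e = r}

variable {reg}

/-- the inside given by a choice in every region -/
def ins (c : ∀ r, Fib reg r → Fib reg r) (x : E) : E := (c (reg x) ⟨x, rfl⟩).1

omit [Finite E] in
theorem ins_eq (c : ∀ r, Fib reg r → Fib reg r) {r : R} (x : Fib reg r) :
    ins c x.1 = (c r x).1 := by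
  obtain ⟨x, rfl⟩ := x
  rfl

omit [Finite E] in
theorem reg_ins (c : ∀ r, Fib reg r → Fib reg r) (x : E) : reg (ins c x) = reg x :=
  (c (reg x) ⟨x, rfl⟩).2

omit [Finite E] in
theorem ins_pair {c : ∀ r, Fib reg r → Fib reg r} (hc : ∀ r, IsPair (c r)) :
    IsPair (ins c) := by
  constructor
  · intro x
    have h1 : ins c x = (c (reg x) ⟨x, rfl⟩).1 := rfl
    rw [h1, ins_eq, (hc (reg x)).1]
  · intro x h
    have h1 : (c (reg x) ⟨x, rfl⟩) = ⟨x, rfl⟩ := Subtype.ext h
    exact (hc (reg x)).2 _ h1

open Classical in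
/-- the inside with the region `r` removed -/
def off (c : ∀ r, Fib reg r → Fib reg r) (r : R) (x : E) : E :=
  if reg x = r then x else ins c x

omit [Finite E] in
theorem off_inv {c : ∀ r, Fib reg r → Fib reg r} (hc : ∀ r, IsPair (c r)) (r : R) (x : E) :
    off c r (off c r x) = x := by
  unfold off
  by_cases h : reg x = r
  · simp [h]
  · rw [if_neg h, if_neg (by rw [reg_ins c]; exact h)]
    exact (ins_pair hc).1 x

omit [Finite E] in
theorem off_fix {c : ∀ r, Fib reg r → Fib reg r} (hc : ∀ r, IsPair (c r)) {r : R} {x : E} :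
    off c r x = x ↔ reg x = r := by
  unfold off
  constructor
  · intro h
    by_contra h1
    rw [if_neg h1] at h
    exact (ins_pair hc).2 x h
  · intro h
    rw [if_pos h]

/-- the pairing of the ends of `r` by the outside paths -/
def ret (O : E → E) {c : ∀ r, Fib reg r → Fib reg r} (hO : IsPair O)
    (hc : ∀ r, IsPair (c r)) (r : R) (x : Fib reg r) : Fib reg r :=
  ⟨oth O (off c r) x.1,
    (off_fix hc).1 (J_oth hO (off_inv hc r) ((off_fix hc).2 x.2))⟩

theorem ret_pair {O : E → E} {c : ∀ r, Fib reg r → Fib reg r} (hO : IsPair O)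
    (hc : ∀ r, IsPair (c r)) (r : R) : IsPair (ret O hO hc r) := by
  constructor
  · intro x
    apply Subtype.ext
    exact oth_oth hO (off_inv hc r) ((off_fix hc).2 x.2)
  · intro x h
    exact oth_ne hO (off_inv hc r) ((off_fix hc).2 x.2) (congrArg Subtype.val h)

open Classical in
/-- change the inside of `r` to `d` -/
def chg (c : ∀ r, Fib reg r → Fib reg r) (r : R) (d : Fib reg r → Fib reg r) :
    ∀ r, Fib reg r → Fib reg r := Function.update c r d

open Classical in
omit [Finite E] in
theorem chg_same (c : ∀ r, Fib reg r → Fib reg r) (r : R) (d : Fib reg r → Fib reg r) :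
    chg c r d r = d := by
  unfold chg; exact Function.update_self r d c

open Classical in
omit [Finite E] in
theorem chg_other (c : ∀ r, Fib reg r → Fib reg r) (r : R) (d : Fib reg r → Fib reg r)
    {r' : R} (h : r' ≠ r) : chg c r d r' = c r' := by
  unfold chg; exact Function.update_of_ne h d c

omit [Finite E] in
theorem ins_chg_other (c : ∀ r, Fib reg r → Fib reg r) (r : R) (d : Fib reg r → Fib reg r)
    {x : E} (h : reg x ≠ r) : ins (chg c r d) x = ins c x := by
  unfold ins
  rw [chg_other c r d h]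

omit [Finite E] in
theorem ins_chg_same (c : ∀ r, Fib reg r → Fib reg r) (r : R) (d : Fib reg r → Fib reg r)
    (x : Fib reg r) : ins (chg c r d) x.1 = (d x).1 := by
  rw [ins_eq, chg_same]

omit [Finite E] in
/-- outside connections survive every change inside -/
theorem con_off {O : E → E} {c : ∀ r, Fib reg r → Fib reg r} {r : R}
    {d : Fib reg r → Fib reg r} {x y : E} (h : Con O (off c r) x y) :
    Con O (ins (chg c r d)) x y := by
  induction h with
  | refl => exact Con.refl' x
  | tail _ hs ih =>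
    rename_i a b _
    refine ih.trans' ?_
    rcases hs with hs | hs
    · rw [hs]; exact con_left _
    · unfold off at hs
      by_cases h : reg a = r
      · rw [if_pos h] at hs
        rw [hs]; exact Con.refl' _
      · rw [if_neg h, ← ins_chg_other c r d h] at hs
        rw [hs]; exact con_right _

theorem con_ret {O : E → E} {c : ∀ r, Fib reg r → Fib reg r} (hO : IsPair O)
    (hc : ∀ r, IsPair (c r)) {r : R} {d : Fib reg r → Fib reg r} {x y : Fib reg r}
    (h : Con (ret O hO hc r) d x y) : Con O (ins (chg c r d)) x.1 y.1 := by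
  induction h with
  | refl => exact Con.refl' _
  | tail _ hs ih =>
    rename_i a b _
    refine ih.trans' ?_
    rcases hs with hs | hs
    · rw [hs]
      exact con_off (con_oth _)
    · rw [hs, ← ins_chg_same c r d a]
      exact con_right _

omit [Finite E] in
/-- every end connected to `r` is connected to `r` outside of `r` -/
theorem exists_off {O : E → E} {c : ∀ r, Fib reg r → Fib reg r} {r : R} {x z : E}
    (hx : reg x = r) (h : Con O (ins c) x z) : ∃ w, reg w = r ∧ Con O (off c r) w z := by
  induction h with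
  | refl => exact ⟨x, hx, Con.refl' _⟩
  | tail _ hs ih =>
    rename_i a b _
    obtain ⟨w, hw, hwa⟩ := ih
    rcases hs with hs | hs
    · exact ⟨w, hw, hs ▸ hwa.trans' (con_left _)⟩
    · by_cases h : reg a = r
      · refine ⟨b, ?_, Con.refl' _⟩
        rw [hs, reg_ins c, h]
      · refine ⟨w, hw, hwa.trans' ?_⟩
        have h1 : b = off c r a := by unfold off; rw [if_neg h, hs]
        rw [h1]
        exact con_right _

/-- LEMMA STAR as a property of a region: the allowed insides of `r` -/
def Star {F : Type*} (D : Set (F → F)) : Prop :=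
  ∀ Q : F → F, IsPair Q → ∀ x y : F, y ≠ x → y ≠ Q x →
    ∃ d ∈ D, ∀ z, Con Q d x z ∨ Con Q d y z

/-- three ends of `r` are directly joined to `r'` -/
def Link (reg : E → R) (O : E → E) (r r' : R) : Prop :=
  ∃ a b c : E, a ≠ b ∧ a ≠ c ∧ b ≠ c ∧ reg a = r ∧ reg b = r ∧ reg c = r ∧
    reg (O a) = r' ∧ reg (O b) = r' ∧ reg (O c) = r'

omit [Finite E] in
theorem Link.symm' {O : E → E} (hO : IsPair O) {r r' : R} (h : Link reg O r r') :
    Link reg O r' r := by
  obtain ⟨a, b, c, h1, h2, h3, h4, h5, h6, h7, h8, h9⟩ := h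
  have hinj : Injective O := (show Function.Involutive O from hO.1).injective
  exact ⟨O a, O b, O c, fun h => h1 (hinj h), fun h => h2 (hinj h), fun h => h3 (hinj h),
    h7, h8, h9, by rw [hO.1, h4], by rw [hO.1, h5], by rw [hO.1, h6]⟩

/-- re-choose the inside of `r` such that everything seen by `r` is connected to two given
ends in different arcs -/
theorem rechoose {O : E → E} (hO : IsPair O) {D : ∀ r : R, Set (Fib reg r → Fib reg r)}
    (hD : ∀ r, ∀ d ∈ D r, IsPair d) (hS : ∀ r, Star (D r))
    {c : ∀ r, Fib reg r → Fib reg r} (hc : ∀ r, c r ∈ D r) (r : R) (x y : Fib reg r)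
    (hxy : y ≠ x) (hxy' : y ≠ ret O hO (fun r => hD r _ (hc r)) r x) :
    ∃ c' : ∀ r, Fib reg r → Fib reg r, (∀ r, c' r ∈ D r) ∧
      ∀ z w : E, reg w = r → Con O (ins c) w z →
        Con O (ins c') x.1 z ∨ Con O (ins c') y.1 z := by
  obtain ⟨d, hd, hz⟩ := hS r _ (ret_pair hO (fun r => hD r _ (hc r)) r) x y hxy hxy'
  have hc' : ∀ r', chg c r d r' ∈ D r' := by
    intro r'
    by_cases h : r' = r
    · subst h; rw [chg_same]; exact hd
    · rw [chg_other c r d h]; exact hc r'
  refine ⟨chg c r d, hc', ?_⟩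
  intro z w hw hwz
  obtain ⟨v, hv, hvz⟩ := exists_off hw hwz
  have h1 : Con O (ins (chg c r d)) v z := con_off hvz
  rcases hz ⟨v, hv⟩ with h | h
  · exact Or.inl ((con_ret hO (fun r => hD r _ (hc r)) h).trans' h1)
  · exact Or.inr ((con_ret hO (fun r => hD r _ (hc r)) h).trans' h1)

/-- among three ends two are in different arcs -/
theorem two_of_three {F : Type*} {Q : F → F} {a b c : F} (hab : a ≠ b)
    (hac : a ≠ c) (hbc : b ≠ c) : ∃ y ∈ ({b, c} : Set F), y ≠ a ∧ y ≠ Q a := by
  by_cases h : b = Q a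
  · exact ⟨c, by simp, fun h' => hac h'.symm, fun h' => hbc (h.trans h'.symm)⟩
  · exact ⟨b, by simp, fun h' => hab h'.symm, h⟩

/-- the state of the walk -/
def Stt (O : E → E) (D : ∀ r : R, Set (Fib reg r → Fib reg r)) (V : Set R) (r : R) : Prop :=
  r ∈ V ∧ ∃ c : ∀ r, Fib reg r → Fib reg r, (∀ r, c r ∈ D r) ∧
    ∃ x y : E, reg x = r ∧ reg y = r ∧
      ∀ z, reg z ∈ V → Con O (ins c) x z ∨ Con O (ins c) y z

theorem step {O : E → E} (hO : IsPair O) {D : ∀ r : R, Set (Fib reg r → Fib reg r)}
    (hD : ∀ r, ∀ d ∈ D r, IsPair d) (hS : ∀ r, Star (D r)) {V : Set R} {r r' : R}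
    (h : Stt O D V r) (hl : Link reg O r r') : Stt O D (insert r' V) r' := by
  obtain ⟨hrV, c, hc, x, y, hx, hy, hz⟩ := h
  obtain ⟨a1, a2, a3, h12, h13, h23, e1, e2, e3, f1, f2, f3⟩ := hl
  have hcp : ∀ r, IsPair (c r) := fun r => hD r _ (hc r)
  -- first change, in r
  obtain ⟨v, hv, hv1, hv2⟩ := two_of_three
    (Q := ret O hO hcp r) (a := (⟨a1, e1⟩ : Fib reg r)) (b := ⟨a2, e2⟩) (c := ⟨a3, e3⟩)
    (fun h => h12 (congrArg Subtype.val h)) (fun h => h13 (congrArg Subtype.val h))
    (fun h => h23 (congrArg Subtype.val h))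
  have hvO : reg (O v.1) = r' := by
    rcases hv with h | h
    · rw [h]; exact f2
    · rw [Set.mem_singleton_iff] at h; rw [h]; exact f3
  obtain ⟨c', hc', hz'⟩ := rechoose hO hD hS hc r ⟨a1, e1⟩ v hv1 hv2
  have hc'p : ∀ r, IsPair (c' r) := fun r => hD r _ (hc' r)
  -- everything in V is now connected to O a1 or O v
  have hV : ∀ z, reg z ∈ V → Con O (ins c') (O a1) z ∨ Con O (ins c') (O v.1) z := by
    intro z hzV
    have h0 : Con O (ins c') a1 z ∨ Con O (ins c') v.1 z := by
      rcases hz z hzV with h | h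
      · exact hz' z x hx h
      · exact hz' z y hy h
    rcases h0 with h | h
    · left
      refine Con.trans' ?_ h
      have := con_left (f := O) (g := ins c') (O a1)
      rwa [hO.1] at this
    · right
      refine Con.trans' ?_ h
      have := con_left (f := O) (g := ins c') (O v.1)
      rwa [hO.1] at this
  -- second change, in r'
  have hinj : Injective O := (show Function.Involutive O from hO.1).injective
  obtain ⟨w, -, hw1, hw2⟩ := two_of_three
    (Q := ret O hO hc'p r') (a := (⟨O a1, f1⟩ : Fib reg r')) (b := ⟨O a2, f2⟩)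
    (c := ⟨O a3, f3⟩)
    (fun h => h12 (hinj (congrArg Subtype.val h))) (fun h => h13 (hinj (congrArg Subtype.val h)))
    (fun h => h23 (hinj (congrArg Subtype.val h)))
  obtain ⟨c'', hc'', hz''⟩ := rechoose hO hD hS hc' r' ⟨O a1, f1⟩ w hw1 hw2
  refine ⟨Set.mem_insert _ _, c'', hc'', O a1, w.1, f1, w.2, ?_⟩
  intro z hzV
  rcases hzV with h | h
  · exact hz'' z z h (Con.refl' _)
  · rcases hV z h with h' | h'
    · exact hz'' z _ f1 h'
    · exact hz'' z _ hvO h'

theorem walk_path {O : E → E} (hO : IsPair O) {D : ∀ r : R, Set (Fib reg r → Fib reg r)}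
    (hD : ∀ r, ∀ d ∈ D r, IsPair d) (hS : ∀ r, Star (D r)) {V : Set R} {r r' : R}
    (h : Stt O D V r) (hl : Relation.ReflTransGen (Link reg O) r r') :
    ∃ V', V ⊆ V' ∧ Stt O D V' r' := by
  induction hl with
  | refl => exact ⟨V, subset_rfl, h⟩
  | tail _ hs ih =>
    obtain ⟨V', hV', h'⟩ := ih
    exact ⟨_, hV'.trans (Set.subset_insert _ _), step hO hD hS h' hs⟩

/-- LEMMA WALK: if every region has the property STAR and the graph of regions (joined if
three ends of one are directly joined to the other) is connected, then the insides can be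
chosen such that at most two cycles meet the union of all regions. -/
theorem walk [Finite R] [Nonempty E] {O : E → E} (hO : IsPair O)
    {D : ∀ r : R, Set (Fib reg r → Fib reg r)}
    (hD : ∀ r, ∀ d ∈ D r, IsPair d) (hne : ∀ r, (D r).Nonempty) (hS : ∀ r, Star (D r))
    (hconn : ∀ r r' : R, Relation.ReflTransGen (Link reg O) r r') :
    ∃ c : ∀ r, Fib reg r → Fib reg r, (∀ r, c r ∈ D r) ∧
      ∃ x y : E, ∀ z, Con O (ins c) x z ∨ Con O (ins c) y z := by
  choose c0 hc0 using hne
  obtain ⟨x0⟩ := ‹Nonempty E›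
  have hcp : ∀ r, IsPair (c0 r) := fun r => hD r _ (hc0 r)
  -- the start
  have hstart : Stt O D {reg x0} (reg x0) := by
    by_cases h : ∃ y : Fib reg (reg x0), y ≠ ⟨x0, rfl⟩ ∧ y ≠ ret O hO hcp (reg x0) ⟨x0, rfl⟩
    · obtain ⟨y, hy1, hy2⟩ := h
      obtain ⟨c', hc', hz'⟩ := rechoose hO hD hS hc0 (reg x0) ⟨x0, rfl⟩ y hy1 hy2
      exact ⟨rfl, c', hc', x0, y.1, rfl, y.2, fun z hz => hz' z z hz (Con.refl' _)⟩
    · push Not at h
      refine ⟨rfl, c0, hc0, x0, (ret O hO hcp (reg x0) ⟨x0, rfl⟩).1, rfl,
        (ret O hO hcp (reg x0) ⟨x0, rfl⟩).2, fun z hz => ?_⟩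
      by_cases h1 : (⟨z, hz⟩ : Fib reg (reg x0)) = ⟨x0, rfl⟩
      · left
        have : z = x0 := congrArg Subtype.val h1
        rw [this]; exact Con.refl' _
      · right
        have := congrArg Subtype.val (h _ h1)
        rw [← this]; exact Con.refl' _
  have hall : ∀ S : Finset R, ∃ V : Set R, ∃ r, (∀ s ∈ S, s ∈ V) ∧ Stt O D V r := by
    intro S
    classical
    induction S using Finset.induction_on with
    | empty => exact ⟨_, _, by simp, hstart⟩
    | insert a S _ ih =>
      obtain ⟨V, r, hV, hst⟩ := ih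
      obtain ⟨V', hV', hst'⟩ := walk_path hO hD hS hst (hconn r a)
      refine ⟨V', a, ?_, hst'⟩
      intro s hs
      rcases Finset.mem_insert.1 hs with h | h
      · rw [h]; exact hst'.1
      · exact hV' (hV s h)
  have hf := Fintype.ofFinite R
  obtain ⟨V, r, hV, -, c, hc, x, y, -, -, hz⟩ := hall Finset.univ
  exact ⟨c, hc, x, y, fun z => hz z (hV _ (Finset.mem_univ _))⟩

end Regions

end

end Pool.Agent.Lib.MP_688fd0_co.SQ5.H64
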