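import Mathlib
import Pool.Agent.Lib.MP_688fd0_co.SQ5.H64.Walk

/-!
MP_688fd0_co, type C: the diagram language. Strands `S`, ends `S × Bool` (`false` = lower,
`true` = upper), a diagram is a fixed point free involution of the ends. `stk d e` is `d` below
`e`, `NoLoop d e` says that the stack has no closed loop.
-/

namespace Pool.Agent.Lib.MP_688fd0_co.SQ5.H64

open Function

noncomputable section

/-! ### Uniqueness of the other end -/

section Unique

variable {X : Type*} [Finite X] {O J : X → X}

/-- everything connected to a `J`-fixed point is on its walk -/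
theorem con_iter_of (hO : IsPair O) (hJ : ∀ x, J (J x) = x) {x z : X} (hx : J x = x)
    (h : Con O J x z) : ∃ k < per O J x, z = (stp O J)^[k] x := by
  have hpos := per_pos hO.1 hJ x
  induction h with
  | refl => exact ⟨0, hpos, rfl⟩
  | tail _ hs ih =>
    obtain ⟨k, hk, rfl⟩ := ih
    rcases hs with hs | hs
    · refine ⟨per O J x - (k + 1), by omega, ?_⟩
      rw [hs, O_iter hO.1 hJ hx (iter_per x) (by omega)]
    · rcases Nat.eq_zero_or_pos k with h0 | h0
      · subst h0
        exact ⟨0, hpos, by rw [hs]; simpa using hx⟩
      · refine ⟨per O J x - k, by omega, ?_⟩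
        rw [hs, J_iter hO.1 hJ hx (iter_per x) (by omega)]

/-- the two `J`-fixed points of a path -/
theorem eq_or_oth (hO : IsPair O) (hJ : ∀ x, J (J x) = x) {x y : X} (hx : J x = x)
    (hy : J y = y) (h : Con O J x y) : y = x ∨ y = oth O J x := by
  obtain ⟨k, hk, rfl⟩ := con_iter_of hO hJ hx h
  rcases Nat.eq_zero_or_pos k with h0 | h0
  · subst h0; exact Or.inl rfl
  · right
    rw [J_iter hO.1 hJ hx (iter_per x) (by omega)] at hy
    have h1 : per O J x - k = k :=
      Function.iterate_injOn_Iio_minimalPeriod (f := stp O J) (x := x)
        (show per O J x - k < per O J x by omega) hk hy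
    have h2 : k = per O J x / 2 := by omega
    unfold oth
    rw [← h2]

/-- the other end is characterised by a path to a different `J`-fixed point -/
theorem oth_eq (hO : IsPair O) (hJ : ∀ x, J (J x) = x) {x y : X} (hx : J x = x)
    (hy : J y = y) (hne : y ≠ x) (h : Con O J x y) : oth O J x = y := by
  rcases eq_or_oth hO hJ hx hy h with h1 | h1
  · exact absurd h1 hne
  · exact h1.symm

end Unique

/-! ### Stacks -/

section Stack

variable {S : Type*}

/-- the inside of the two level picture: `d` on the lower level, `e` on the upper level -/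
def lvl (d e : S × Bool → S × Bool) (p : (S × Bool) × Bool) : (S × Bool) × Bool :=
  match p with
  | (q, false) => (d q, false)
  | (q, true) => (e q, true)

/-- the upper ends of the lower level are glued to the lower ends of the upper level -/
def glu (p : (S × Bool) × Bool) : (S × Bool) × Bool :=
  match p with
  | ((s, true), false) => ((s, false), true)
  | ((s, false), true) => ((s, true), false)
  | ((s, false), false) => ((s, false), false)
  | ((s, true), true) => ((s, true), true)

/-- the outer ends -/
def out (p : S × Bool) : (S × Bool) × Bool := (p, p.2)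

theorem out_inj : Injective (out (S := S)) := fun _ _ h => congrArg Prod.fst h

theorem glu_glu (p : (S × Bool) × Bool) : glu (glu p) = p := by
  rcases p with ⟨⟨s, _ | _⟩, _ | _⟩ <;> rfl

theorem glu_out (p : S × Bool) : glu (out p) = out p := by
  rcases p with ⟨s, _ | _⟩ <;> rfl

theorem out_of_glu {p : (S × Bool) × Bool} (h : glu p = p) : out p.1 = p := by
  rcases p with ⟨⟨s, _ | _⟩, _ | _⟩
  · rfl
  · exact absurd (congrArg Prod.snd h) (by simp [glu])
  · exact absurd (congrArg Prod.snd h) (by simp [glu])
  · rfl

theorem lvl_pair {d e : S × Bool → S × Bool} (hd : IsPair d) (he : IsPair e) :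
    IsPair (lvl d e) := by
  constructor
  · rintro ⟨q, _ | _⟩
    · exact congrArg (fun z => (z, false)) (hd.1 q)
    · exact congrArg (fun z => (z, true)) (he.1 q)
  · rintro ⟨q, _ | _⟩ h
    · exact hd.2 q (congrArg Prod.fst h)
    · exact he.2 q (congrArg Prod.fst h)

/-- `d` below `e` -/
def stk (d e : S × Bool → S × Bool) (p : S × Bool) : S × Bool :=
  (oth (lvl d e) glu (out p)).1

/-- the stack has no closed loop -/
def NoLoop (d e : S × Bool → S × Bool) : Prop :=
  ∀ z, ∃ p, Con (lvl d e) glu (out p) z

variable [Finite S]

theorem out_stk {d e : S × Bool → S × Bool} (hd : IsPair d) (he : IsPair e) (p : S × Bool) :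
    out (stk d e p) = oth (lvl d e) glu (out p) :=
  out_of_glu (J_oth (lvl_pair hd he) glu_glu (glu_out p))

theorem stk_pair {d e : S × Bool → S × Bool} (hd : IsPair d) (he : IsPair e) :
    IsPair (stk d e) := by
  constructor
  · intro p
    apply out_inj
    rw [out_stk hd he, out_stk hd he, oth_oth (lvl_pair hd he) glu_glu (glu_out p)]
  · intro p h
    have h1 := congrArg out h
    rw [out_stk hd he] at h1
    exact oth_ne (lvl_pair hd he) glu_glu (glu_out p) h1

theorem con_out_stk {d e : S × Bool → S × Bool} (hd : IsPair d) (he : IsPair e)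
    (p : S × Bool) : Con (lvl d e) glu (out p) (out (stk d e p)) := by
  rw [out_stk hd he]
  exact con_oth _

/-- `stk d e p = q` as soon as there is a path from `p` to `q ≠ p` -/
theorem stk_eq {d e : S × Bool → S × Bool} (hd : IsPair d) (he : IsPair e) {p q : S × Bool}
    (hne : q ≠ p) (h : Con (lvl d e) glu (out p) (out q)) : stk d e p = q := by
  apply out_inj
  rw [out_stk hd he]
  exact oth_eq (lvl_pair hd he) glu_glu (glu_out p) (glu_out q)
    (fun h' => hne (out_inj h')) h

theorem eq_or_stk {d e : S × Bool → S × Bool} (hd : IsPair d) (he : IsPair e)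
    {p q : S × Bool} (h : Con (lvl d e) glu (out p) (out q)) : q = p ∨ q = stk d e p := by
  by_cases hne : q = p
  · exact Or.inl hne
  · exact Or.inr (stk_eq hd he hne h).symm

/-! ### The outside -/

/-- the gluing together with the outside `Q` -/
def gluQ (Q : S × Bool → S × Bool) (p : (S × Bool) × Bool) : (S × Bool) × Bool :=
  match p with
  | ((s, true), false) => ((s, false), true)
  | ((s, false), true) => ((s, true), false)
  | ((s, false), false) => out (Q (s, false))
  | ((s, true), true) => out (Q (s, true))

omit [Finite S] in
theorem gluQ_out (Q : S × Bool → S × Bool) (p : S × Bool) : gluQ Q (out p) = out (Q p) := by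
  rcases p with ⟨s, _ | _⟩ <;> rfl

omit [Finite S] in
theorem gluQ_of_ne {Q : S × Bool → S × Bool} {p : (S × Bool) × Bool} (h : glu p ≠ p) :
    gluQ Q p = glu p := by
  rcases p with ⟨⟨s, _ | _⟩, _ | _⟩
  · exact absurd rfl h
  · rfl
  · rfl
  · exact absurd rfl h

omit [Finite S] in
theorem gluQ_pair {Q : S × Bool → S × Bool} (hQ : IsPair Q) : IsPair (gluQ Q) := by
  constructor
  · rintro ⟨⟨s, _ | _⟩, _ | _⟩
    · change gluQ Q (out (Q (s, false))) = _
      rw [gluQ_out, hQ.1]; rfl
    · rfl
    · rfl
    · change gluQ Q (out (Q (s, true))) = _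
      rw [gluQ_out, hQ.1]; rfl
  · rintro ⟨⟨s, _ | _⟩, _ | _⟩ h
    · exact hQ.2 _ (out_inj (show out (Q (s, false)) = out (s, false) from h))
    · exact absurd (congrArg Prod.snd h) (by simp [gluQ])
    · exact absurd (congrArg Prod.snd h) (by simp [gluQ])
    · exact hQ.2 _ (out_inj (show out (Q (s, true)) = out (s, true) from h))

omit [Finite S] in
theorem con_gluQ_of_glu {d e Q : S × Bool → S × Bool} {x y : (S × Bool) × Bool}
    (h : Con (lvl d e) glu x y) : Con (lvl d e) (gluQ Q) x y := by
  induction h with
  | refl => exact Con.refl' _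
  | tail _ hs ih =>
    rename_i a b _
    refine ih.trans' ?_
    rcases hs with hs | hs
    · rw [hs]; exact con_left _
    · by_cases h : glu a = a
      · rw [hs, h]; exact Con.refl' _
      · rw [hs, ← gluQ_of_ne (Q := Q) h]; exact con_right _

/-- the orbits of `Q` and the stack are the orbits of the two level picture -/
theorem con_stk {d e Q : S × Bool → S × Bool} (hd : IsPair d) (he : IsPair e)
    {p q : S × Bool} :
    Con Q (stk d e) p q ↔ Con (lvl d e) (gluQ Q) (out p) (out q) := by
  constructor
  · intro h
    induction h with
    | refl => exact Con.refl' _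
    | tail _ hs ih =>
      rename_i a b _
      refine ih.trans' ?_
      rcases hs with hs | hs
      · rw [hs, ← gluQ_out]; exact con_right _
      · rw [hs]; exact con_gluQ_of_glu (con_out_stk hd he a)
  · intro h
    -- follow the path, remembering an outer end seen from below
    have key : ∀ z, Con (lvl d e) (gluQ Q) (out p) z →
        ∃ w, Con (lvl d e) glu (out w) z ∧ Con Q (stk d e) p w := by
      intro z hz
      induction hz with
      | refl => exact ⟨p, Con.refl' _, Con.refl' _⟩
      | tail _ hs ih =>
        rename_i a b _
        obtain ⟨w, hw1, hw2⟩ := ih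
        rcases hs with hs | hs
        · exact ⟨w, hs ▸ hw1.trans' (con_left _), hw2⟩
        · by_cases h : glu a = a
          · have ha := out_of_glu h
            rw [← ha] at hw1
            have h3 : Con Q (stk d e) p a.1 := by
              rcases eq_or_stk hd he hw1 with h4 | h4
              · rw [h4]; exact hw2
              · rw [h4]; exact hw2.trans' (con_right _)
            refine ⟨Q a.1, ?_, h3.trans' (con_left _)⟩
            rw [hs, ← ha, gluQ_out]
            exact Con.refl' _
          · refine ⟨w, ?_, hw2⟩
            rw [hs, gluQ_of_ne h]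
            exact hw1.trans' (con_right _)
    obtain ⟨w, hw1, hw2⟩ := key _ h
    rcases eq_or_stk hd he hw1 with h4 | h4
    · rw [h4]; exact hw2
    · rw [h4]; exact hw2.trans' (con_right _)

/-- the identity diagram -/
def idd (p : S × Bool) : S × Bool := (p.1, !p.2)

omit [Finite S] in
theorem idd_pair : IsPair (idd (S := S)) :=
  ⟨fun p => by simp [idd], fun p h => by
    have := congrArg Prod.snd h
    simp [idd] at this⟩

/-- a permutation of the strands: the lower end of `x` is joined to the upper end of
`sigma x` -/
def thr (σ : Equiv.Perm S) (p : S × Bool) : S × Bool :=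
  match p with
  | (s, false) => (σ s, true)
  | (s, true) => (σ.symm s, false)

omit [Finite S] in
theorem thr_pair (σ : Equiv.Perm S) : IsPair (thr σ) := by
  constructor
  · rintro ⟨s, _ | _⟩ <;> simp [thr]
  · rintro ⟨s, _ | _⟩ h
    · exact absurd (congrArg Prod.snd h) (by simp [thr])
    · exact absurd (congrArg Prod.snd h) (by simp [thr])

theorem stk_idd_left {d : S × Bool → S × Bool} (hd : IsPair d) : stk idd d = d := by
  funext p
  refine stk_eq idd_pair hd (hd.2 p) ?_
  -- from an outer end to the level of d
  have h1 : ∀ q : S × Bool, Con (lvl idd d) glu (out q) (q, true) := by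
    rintro ⟨s, _ | _⟩
    · exact (con_left (out (s, false))).trans' (con_right _)
    · exact Con.refl' _
  have h2 : ∀ q : S × Bool, Con (lvl idd d) glu (q, true) (out q) := by
    rintro ⟨s, _ | _⟩
    · exact (con_right ((s, false), true)).trans' (con_left _)
    · exact Con.refl' _
  exact (h1 p).trans' ((con_left (p, true)).trans' (h2 _))

theorem stk_idd_right {d : S × Bool → S × Bool} (hd : IsPair d) : stk d idd = d := by
  funext p
  refine stk_eq hd idd_pair (hd.2 p) ?_
  have h1 : ∀ q : S × Bool, Con (lvl d idd) glu (out q) (q, false) := by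
    rintro ⟨s, _ | _⟩
    · exact Con.refl' _
    · exact (con_left (out (s, true))).trans' (con_right _)
  have h2 : ∀ q : S × Bool, Con (lvl d idd) glu (q, false) (out q) := by
    rintro ⟨s, _ | _⟩
    · exact Con.refl' _
    · exact (con_right ((s, true), false)).trans' (con_left _)
  exact (h1 p).trans' ((con_left (p, false)).trans' (h2 _))

end Stack

end

end Pool.Agent.Lib.MP_688fd0_co.SQ5.H64
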