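import Mathlib
import Pool.Agent.Lib.MP_688fd0_co.SQ5.H64.Diag

/-!
MP_688fd0_co, type C: the diagrams of rank `|S| - 2`: `win j k σ` has the lower pair `{j, k}`,
the upper pair `{σ j, σ k}` and joins the lower end of every other strand `x` to the upper end
of `σ x`. `p3 x y z` = `win x y (swap y z)`.
-/

namespace Pool.Agent.Lib.MP_688fd0_co.SQ5.H64

open Function Equiv

noncomputable section

variable {S : Type*} [DecidableEq S]

/-- lower pair `{j, k}`, upper pair `{σ j, σ k}`, every other `x` goes up to `σ x` -/
def win (j k : S) (σ : Perm S) (p : S × Bool) : S × Bool :=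
  match p with
  | (s, false) => if s = j then (k, false) else if s = k then (j, false) else (σ s, true)
  | (s, true) =>
    if s = σ j then (σ k, true) else if s = σ k then (σ j, true) else (σ.symm s, false)

theorem win_low_left (j k : S) (σ : Perm S) : win j k σ (j, false) = (k, false) := by
  simp [win]

theorem win_low_right {j k : S} (h : j ≠ k) (σ : Perm S) :
    win j k σ (k, false) = (j, false) := by
  simp [win, h.symm]

theorem win_low {j k s : S} (h1 : s ≠ j) (h2 : s ≠ k) (σ : Perm S) :
    win j k σ (s, false) = (σ s, true) := by
  simp [win, h1, h2]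

theorem win_up_left (j k : S) (σ : Perm S) : win j k σ (σ j, true) = (σ k, true) := by
  simp [win]

theorem win_up_right {j k : S} (h : j ≠ k) (σ : Perm S) :
    win j k σ (σ k, true) = (σ j, true) := by
  simp [win, h.symm]

theorem win_up {j k s : S} (h1 : s ≠ j) (h2 : s ≠ k) (σ : Perm S) :
    win j k σ (σ s, true) = (s, false) := by
  simp [win, h1, h2]

theorem win_pair {j k : S} (h : j ≠ k) (σ : Perm S) : IsPair (win j k σ) := by
  constructor
  · rintro ⟨s, _ | _⟩
    · by_cases h1 : s = j
      · subst h1; rw [win_low_left, win_low_right h]
      · by_cases h2 : s = k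
        · subst h2; rw [win_low_right h, win_low_left]
        · rw [win_low h1 h2, win_up h1 h2]
    · obtain ⟨s, rfl⟩ := σ.surjective s
      by_cases h1 : s = j
      · subst h1; rw [win_up_left, win_up_right h]
      · by_cases h2 : s = k
        · subst h2; rw [win_up_right h, win_up_left]
        · rw [win_up h1 h2, win_low h1 h2]
  · rintro ⟨s, _ | _⟩ h3
    · by_cases h1 : s = j
      · subst h1
        rw [win_low_left] at h3
        exact h (congrArg Prod.fst h3).symm
      · by_cases h2 : s = k
        · subst h2
          rw [win_low_right h] at h3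
          exact h (congrArg Prod.fst h3)
        · rw [win_low h1 h2] at h3
          exact absurd (congrArg Prod.snd h3) (by simp)
    · obtain ⟨s, rfl⟩ := σ.surjective s
      by_cases h1 : s = j
      · subst h1
        rw [win_up_left] at h3
        exact h (σ.injective (congrArg Prod.fst h3)).symm
      · by_cases h2 : s = k
        · subst h2
          rw [win_up_right h] at h3
          exact h (σ.injective (congrArg Prod.fst h3))
        · rw [win_up h1 h2] at h3
          exact absurd (congrArg Prod.snd h3) (by simp)

theorem win_comm {j k : S} (h : j ≠ k) (σ : Perm S) : win k j σ = win j k σ := by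
  funext p
  rcases p with ⟨s, _ | _⟩
  · by_cases h1 : s = j
    · subst h1; rw [win_low_left, win_low_right h.symm]
    · by_cases h2 : s = k
      · subst h2; rw [win_low_right h, win_low_left]
      · rw [win_low h1 h2, win_low h2 h1]
  · obtain ⟨s, rfl⟩ := σ.surjective s
    by_cases h1 : s = j
    · subst h1; rw [win_up_left, win_up_right h.symm]
    · by_cases h2 : s = k
      · subst h2; rw [win_up_right h, win_up_left]
      · rw [win_up h1 h2, win_up h2 h1]

/-- only the set `{σ j, σ k}` matters -/
theorem win_swap {j k : S} (h : j ≠ k) (σ : Perm S) : win j k (σ * swap j k) = win j k σ := by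
  have hj : (σ * swap j k) j = σ k := by simp
  have hk : (σ * swap j k) k = σ j := by simp
  have hs : ∀ s, s ≠ j → s ≠ k → (σ * swap j k) s = σ s := fun s h1 h2 => by
    rw [Perm.mul_apply, swap_apply_of_ne_of_ne h1 h2]
  funext p
  rcases p with ⟨s, _ | _⟩
  · by_cases h1 : s = j
    · subst h1; rw [win_low_left, win_low_left]
    · by_cases h2 : s = k
      · subst h2; rw [win_low_right h, win_low_right h]
      · rw [win_low h1 h2, win_low h1 h2, hs s h1 h2]
  · obtain ⟨s, rfl⟩ := σ.surjective s
    by_cases h1 : s = j
    · subst h1
      rw [win_up_left]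
      have h3 := win_up_right h (σ * swap s k)
      rw [hk, hj] at h3
      exact h3
    · by_cases h2 : s = k
      · subst h2
        rw [win_up_right h]
        have h3 := win_up_left j s (σ * swap j s)
        rw [hk, hj] at h3
        exact h3
      · rw [win_up h1 h2]
        have h3 := win_up h1 h2 (σ * swap j k)
        rw [hs s h1 h2] at h3
        exact h3

/-- flat P3 with centre `x`: lower pair `{x, y}`, upper pair `{x, z}`, the lower end of `z` goes
to the upper end of `y`, everything else is straight -/
def p3 (x y z : S) : S × Bool → S × Bool := win x y (swap y z)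

theorem p3_pair {x y z : S} (h : x ≠ y) : IsPair (p3 x y z) := win_pair h _

section StackWin

variable [Finite S] {j k c : S} {σ τ : Perm S}

omit [DecidableEq S] [Finite S] in
theorem con_up {d e : S × Bool → S × Bool} {s t : S} (h : d (s, false) = (t, true)) :
    Con (lvl d e) glu ((s, false), false) ((t, false), true) := by
  refine (con_left _).trans' ?_
  have h1 : lvl d e ((s, false), false) = ((t, true), false) := by
    change (d (s, false), false) = _
    rw [h]
  rw [h1]
  exact con_right _

omit [DecidableEq S] [Finite S] in
theorem con_hook {d e : S × Bool → S × Bool} {a b c : S} (he : e (c, false) = (b, false))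
    (hd : d (b, true) = (a, true)) :
    Con (lvl d e) glu ((c, false), true) ((a, false), true) ∧
    Con (lvl d e) glu ((c, false), true) ((b, true), false) ∧
    Con (lvl d e) glu ((c, false), true) ((a, true), false) := by
  have h1 : Con (lvl d e) glu ((c, false), true) ((b, false), true) := by
    refine Relation.ReflTransGen.single (Or.inl ?_)
    change _ = (e (c, false), true)
    rw [he]
  have h2 : Con (lvl d e) glu ((c, false), true) ((b, true), false) :=
    h1.trans' (con_right _)
  have h3 : Con (lvl d e) glu ((c, false), true) ((a, true), false) := by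
    refine h2.trans' (Relation.ReflTransGen.single (Or.inl ?_))
    change _ = (d (b, true), false)
    rw [hd]
  exact ⟨h3.trans' (con_right _), h2, h3⟩

omit [DecidableEq S] [Finite S] in
theorem con_out_up {d e : S × Bool → S × Bool} {s t : S} (h : e (s, false) = (t, true)) :
    Con (lvl d e) glu ((s, false), true) (out (t, true)) := by
  refine Relation.ReflTransGen.single (Or.inl ?_)
  change _ = (e (s, false), true)
  rw [h]
  rfl

/-- the stack of two windows which share exactly one strand -/
theorem stk_win (hjk : j ≠ k) (hcj : c ≠ σ j) (hck : c ≠ σ k) :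
    stk (win j k σ) (win (σ k) c τ) = win j k (τ * swap (σ j) c * σ) := by
  have hd : IsPair (win j k σ) := win_pair hjk σ
  have he : IsPair (win (σ k) c τ) := win_pair hck.symm τ
  have hjk' : σ j ≠ σ k := fun h => hjk (σ.injective h)
  set ρ : Perm S := τ * swap (σ j) c * σ with hρ
  have hr : IsPair (win j k ρ) := win_pair hjk ρ
  have ρj : ρ j = τ c := by simp [hρ]
  have ρk : ρ k = τ (σ k) := by
    rw [hρ, Perm.mul_apply, Perm.mul_apply, swap_apply_of_ne_of_ne hjk'.symm hck.symm]
  have hlow : ∀ s : S, stk (win j k σ) (win (σ k) c τ) (s, false) = win j k ρ (s, false) := by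
    intro s
    by_cases h1 : s = j
    · subst h1
      rw [win_low_left]
      refine stk_eq hd he (fun h => hjk (congrArg Prod.fst h).symm) ?_
      refine Relation.ReflTransGen.single (Or.inl ?_)
      change _ = (win s k σ (s, false), false)
      rw [win_low_left]; rfl
    · by_cases h2 : s = k
      · subst h2
        rw [win_low_right hjk]
        refine stk_eq hd he (fun h => hjk (congrArg Prod.fst h)) ?_
        refine Relation.ReflTransGen.single (Or.inl ?_)
        change _ = (win j s σ (s, false), false)
        rw [win_low_right hjk]; rfl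
      · rw [win_low h1 h2]
        refine stk_eq hd he (fun h => absurd (congrArg Prod.snd h) (by simp)) ?_
        have h3 : Con (lvl (win j k σ) (win (σ k) c τ)) glu (out (s, false))
            ((σ s, false), true) := con_up (win_low h1 h2 σ)
        refine h3.trans' ?_
        by_cases h4 : σ s = c
        · have h5 : ρ s = τ (σ j) := by
            rw [hρ, Perm.mul_apply, Perm.mul_apply, h4, swap_apply_right]
          rw [h4, h5]
          refine (con_hook (a := σ j) (b := σ k) (win_low_right hck.symm τ)
            (win_up_right hjk σ)).1.trans' ?_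
          exact con_out_up (win_low hjk' hcj.symm τ)
        · have h5 : ρ s = τ (σ s) := by
            rw [hρ, Perm.mul_apply, Perm.mul_apply, swap_apply_of_ne_of_ne
              (fun h => h1 (σ.injective h)) h4]
          rw [h5]
          exact con_out_up (win_low (fun h => h2 (σ.injective h)) h4 τ)
  funext p
  rcases p with ⟨s, _ | _⟩
  · exact hlow s
  · obtain ⟨x, rfl⟩ := ρ.surjective s
    by_cases h1 : x = j
    · subst h1
      rw [win_up_left]
      refine stk_eq hd he (fun h => hjk (ρ.injective (congrArg Prod.fst h)).symm) ?_
      rw [ρj, ρk]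
      refine Relation.ReflTransGen.single (Or.inl ?_)
      change _ = (win (σ k) c τ (τ c, true), true)
      rw [win_up_right hck.symm]; rfl
    · by_cases h2 : x = k
      · subst h2
        rw [win_up_right hjk]
        refine stk_eq hd he (fun h => hjk (ρ.injective (congrArg Prod.fst h))) ?_
        rw [ρj, ρk]
        refine Relation.ReflTransGen.single (Or.inl ?_)
        change _ = (win (σ x) c τ (τ (σ x), true), true)
        rw [win_up_left]; rfl
      · have h3 := hlow x
        rw [win_low h1 h2] at h3
        rw [win_up h1 h2, ← h3]
        exact (stk_pair hd he).1 _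

omit [Finite S] in
/-- there is no closed loop in this stack -/
theorem noLoop_win (hjk : j ≠ k) (hcj : c ≠ σ j) (hck : c ≠ σ k) :
    NoLoop (win j k σ) (win (σ k) c τ) := by
  have hjk' : σ j ≠ σ k := fun h => hjk (σ.injective h)
  -- the middle points
  have hmid : ∀ s : S, ∃ p, Con (lvl (win j k σ) (win (σ k) c τ)) glu (out p)
      ((s, true), false) := by
    intro s
    have hc : Con (lvl (win j k σ) (win (σ k) c τ)) glu (out (σ.symm c, false))
        ((c, false), true) := by
      have h := win_low (j := j) (k := k) (s := σ.symm c)
        (fun h => hcj (by rw [← h]; simp)) (fun h => hck (by rw [← h]; simp)) σ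
      rw [Equiv.apply_symm_apply] at h
      exact con_up h
    have hh := con_hook (a := σ j) (b := σ k) (d := win j k σ) (win_low_right hck.symm τ)
      (win_up_right hjk σ)
    by_cases h1 : s = σ j
    · rw [h1]
      exact ⟨_, hc.trans' hh.2.2⟩
    · by_cases h2 : s = σ k
      · rw [h2]
        exact ⟨_, hc.trans' hh.2.1⟩
      · refine ⟨(σ.symm s, false), Relation.ReflTransGen.single (Or.inl ?_)⟩
        change _ = (win j k σ (σ.symm s, false), false)
        rw [win_low (fun h => h1 (by rw [← h]; simp)) (fun h => h2 (by rw [← h]; simp)),
          Equiv.apply_symm_apply]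
  rintro ⟨⟨s, _ | _⟩, _ | _⟩
  · exact ⟨(s, false), Con.refl' _⟩
  · obtain ⟨p, hp⟩ := hmid s
    exact ⟨p, hp.trans' (con_right _)⟩
  · exact hmid s
  · exact ⟨(s, true), Con.refl' _⟩

/-- stack of two flat P3's with a common centre: `p3 x y z` below `p3 x w v`, `w ≠ z` -/
theorem stk_p3 {x y z w v : S} (hxy : x ≠ y) (hxz : x ≠ z) (hwx : w ≠ x) (hwz : w ≠ z) :
    stk (p3 x y z) (p3 x w v) = win x y (swap w v * swap z w * swap y z) := by
  have h1 : swap y z y = z := swap_apply_left _ _
  have h2 : swap y z x = x := swap_apply_of_ne_of_ne hxy hxz
  have h := stk_win (j := y) (k := x) (c := w) (σ := swap y z) (τ := swap w v) hxy.symm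
    (by rw [h1]; exact hwz) (by rw [h2]; exact hwx)
  rw [h1, h2, win_comm hxy, win_comm hxy] at h
  exact h

end StackWin

end

end Pool.Agent.Lib.MP_688fd0_co.SQ5.H64
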