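import Mathlib
import Pool.Agent.Lib.MP_688fd0_co.SQ5.H64.Win

/-!
MP_688fd0_co, type C: chains of windows and the power trick, in the language of `Diag` / `Win`.
`D n` is the set of the diagrams which are available in a run of length `n`; the only property
used is `Closed D`. `W D A n a b c d`: some `win a b σ` in `D n` has `σ a = c`, `σ b = d` and
moves only strands of the set `A`.
-/

set_option autoImplicit false

namespace Pool.Agent.Lib.MP_688fd0_co.SQ5.H64

open Function Equiv

noncomputable section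

variable {S : Type*} [DecidableEq S] [Finite S]

omit [DecidableEq S] [Finite S] in
/-- the available diagrams can be put on top of each other if no loop arises -/
def Closed (D : ℕ → Set (S × Bool → S × Bool)) : Prop :=
  ∀ ⦃m n : ℕ⦄ ⦃d e : S × Bool → S × Bool⦄, d ∈ D m → e ∈ D n → NoLoop d e →
    stk d e ∈ D (m + n)

/-- a window with lower pair `{a, b}` and upper pair `{c, d}` which moves only strands of `A` -/
def W (D : ℕ → Set (S × Bool → S × Bool)) (A : Set S) (n : ℕ) (a b c d : S) : Prop :=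
  a ≠ b ∧ a ∈ A ∧ b ∈ A ∧ ∃ σ : Perm S, (∀ s, s ∉ A → σ s = s) ∧ σ a = c ∧ σ b = d ∧
    win a b σ ∈ D n

variable {D : ℕ → Set (S × Bool → S × Bool)} {A A' : Set S} {m n : ℕ} {a b c d e f g : S}

omit [DecidableEq S] [Finite S] in
theorem ne_of_not_mem {s : S} (ha : a ∈ A) (hs : s ∉ A) : s ≠ a := fun h => hs (h ▸ ha)

omit [Finite S] in
theorem W.symm (h : W D A n a b c d) : W D A n b a d c := by
  obtain ⟨h1, h2, h3, σ, h4, h5, h6, h7⟩ := h
  exact ⟨h1.symm, h3, h2, σ, h4, h6, h5, by rw [win_comm h1]; exact h7⟩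

omit [Finite S] in
theorem W.flip (h : W D A n a b c d) : W D A n a b d c := by
  obtain ⟨h1, h2, h3, σ, h4, h5, h6, h7⟩ := h
  refine ⟨h1, h2, h3, σ * swap a b, fun s hs => ?_, ?_, ?_, ?_⟩
  · rw [Perm.mul_apply, swap_apply_of_ne_of_ne (ne_of_not_mem h2 hs) (ne_of_not_mem h3 hs),
      h4 s hs]
  · rw [Perm.mul_apply, swap_apply_left, h6]
  · rw [Perm.mul_apply, swap_apply_right, h5]
  · rw [win_swap h1]; exact h7

omit [Finite S] in
theorem W.ne (h : W D A n a b c d) : c ≠ d := by
  obtain ⟨h1, h2, h3, σ, h4, h5, h6, h7⟩ := h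
  rw [← h5, ← h6]
  exact fun h => h1 (σ.injective h)

omit [DecidableEq S] [Finite S] in
/-- a permutation which fixes the complement of `A` maps `A` to `A` -/
theorem mem_of_fix {σ : Perm S} (h : ∀ s, s ∉ A → σ s = s) (ha : a ∈ A) : σ a ∈ A := by
  by_contra hc
  have h1 := h (σ a) hc
  have h2 := σ.injective h1
  rw [h2] at hc
  exact hc ha

omit [Finite S] in
theorem W.mem (h : W D A n a b c d) : c ∈ A ∧ d ∈ A := by
  obtain ⟨h1, h2, h3, σ, h4, h5, h6, h7⟩ := h
  exact ⟨h5 ▸ mem_of_fix h4 h2, h6 ▸ mem_of_fix h4 h3⟩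

omit [Finite S] in
theorem W.mono (h : W D A n a b c d) (hA : A ⊆ A') : W D A' n a b c d := by
  obtain ⟨h1, h2, h3, σ, h4, h5, h6, h7⟩ := h
  exact ⟨h1, hA h2, hA h3, σ, fun s hs => h4 s fun h => hs (hA h), h5, h6, h7⟩

/-- CHAIN: the upper pair of the first window and the lower pair of the second window have
exactly the strand `d` in common -/
theorem W.trans (hD : Closed D) (h : W D A m a b c d) (h' : W D A n d e f g) (hce : c ≠ e) :
    W D A (m + n) a b g f := by
  have hcd := h.ne
  have hm := h.mem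
  obtain ⟨h1, h2, h3, σ, h4, h5, h6, h7⟩ := h
  obtain ⟨k1, k2, k3, τ, k4, k5, k6, k7⟩ := h'
  have e1 := stk_win (j := a) (k := b) (c := e) (σ := σ) (τ := τ) h1
    (by rw [h5]; exact hce.symm) (by rw [h6]; exact k1.symm)
  have e2 := noLoop_win (j := a) (k := b) (c := e) (σ := σ) (τ := τ) h1
    (by rw [h5]; exact hce.symm) (by rw [h6]; exact k1.symm)
  rw [h6] at e1 e2
  rw [h5] at e1
  refine ⟨h1, h2, h3, τ * swap c e * σ, fun s hs => ?_, ?_, ?_, ?_⟩
  · rw [Perm.mul_apply, Perm.mul_apply, h4 s hs,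
      swap_apply_of_ne_of_ne (ne_of_not_mem hm.1 hs) (ne_of_not_mem k3 hs), k4 s hs]
  · rw [Perm.mul_apply, Perm.mul_apply, h5, swap_apply_left, k6]
  · rw [Perm.mul_apply, Perm.mul_apply, h6, swap_apply_of_ne_of_ne hcd.symm k1, k5]
  · rw [← e1]
    exact hD h7 k7 e2

/-- POWER: a window with lower pair `{x, y}` and upper pair `{x, z}`, `y ≠ z`, gives the flat
three strand window -/
theorem power_aux (hD : Closed D) {x y z : S} (hxy : x ≠ y) (hxz : x ≠ z) (hyz : y ≠ z)
    {ρ : Perm S} (hx : ρ x = x) (hy : ρ y = z) (h : win x y ρ ∈ D n) (N : ℕ) :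
    win x y ((ρ * swap z y) ^ (N + 1) * swap y z) ∈ D ((N + 1) * n) := by
  have hg : ∀ N : ℕ, ((ρ * swap z y) ^ (N + 1) * swap y z) x = x ∧
      ((ρ * swap z y) ^ (N + 1) * swap y z) y = z := by
    intro N
    have h1 : (ρ * swap z y) x = x := by
      rw [Perm.mul_apply, swap_apply_of_ne_of_ne hxz hxy, hx]
    have h2 : (ρ * swap z y) z = z := by
      rw [Perm.mul_apply, swap_apply_left, hy]
    have h3 : ∀ (k : ℕ), ((ρ * swap z y) ^ k) x = x ∧ ((ρ * swap z y) ^ k) z = z := by
      intro k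
      induction k with
      | zero => simp
      | succ k ih =>
        rw [pow_succ, Perm.mul_apply, Perm.mul_apply _ _ z, h1, h2]
        exact ih
    constructor
    · rw [Perm.mul_apply, swap_apply_of_ne_of_ne hxy hxz]
      exact (h3 _).1
    · rw [Perm.mul_apply, swap_apply_left]
      exact (h3 _).2
  induction N with
  | zero =>
    have e : (ρ * swap z y) ^ (0 + 1) * swap y z = ρ := by
      rw [zero_add, pow_one, swap_comm y z, mul_assoc, swap_mul_self, mul_one]
    rw [e, zero_add, one_mul]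
    exact h
  | succ N ih =>
    set κ := (ρ * swap z y) ^ (N + 1) * swap y z with hκ
    obtain ⟨g1, g2⟩ := hg N
    rw [← hκ] at g1 g2
    have e1 := stk_win (j := y) (k := x) (c := y) (σ := κ) (τ := ρ) hxy.symm
      (by rw [g2]; exact hyz) (by rw [g1]; exact hxy.symm)
    have e2 := noLoop_win (j := y) (k := x) (c := y) (σ := κ) (τ := ρ) hxy.symm
      (by rw [g2]; exact hyz) (by rw [g1]; exact hxy.symm)
    rw [g1] at e1 e2
    rw [g2] at e1
    rw [win_comm hxy] at e1 e2
    have e3 : ρ * swap z y * κ = (ρ * swap z y) ^ (N + 1 + 1) * swap y z := by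
      rw [hκ, ← mul_assoc, ← pow_succ']
    rw [e3, win_comm hxy] at e1
    rw [← e1]
    have e4 : (N + 1 + 1) * n = (N + 1) * n + n := by ring
    rw [e4]
    exact hD ih h e2

/-- the `k!`-th power of a permutation which moves only the `≤ k` strands of `A` is `1` -/
theorem pow_factorial {σ : Perm S} (h : ∀ s, s ∉ A → σ s = s) {k : ℕ} (hk : A.ncard ≤ k) :
    σ ^ (Nat.factorial k) = 1 := by
  classical
  have := Fintype.ofFinite S
  apply orderOf_dvd_iff_pow_eq_one.mp
  rw [← Perm.lcm_cycleType, Multiset.lcm_dvd]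
  intro i hi
  have h1 : i ≤ σ.support.card := Perm.le_card_support_of_mem_cycleType hi
  have h2 : 2 ≤ i := Perm.two_le_of_mem_cycleType hi
  have h3 : σ.support.card ≤ A.ncard := by
    rw [← Set.ncard_coe_finset]
    apply Set.ncard_le_ncard _ (Set.toFinite A)
    intro s hs
    by_contra hc
    exact (Perm.mem_support.mp (Finset.mem_coe.mp hs)) (h s hc)
  exact Nat.dvd_factorial (by omega) (by omega)

/-- POWER TRICK: `x` is the common strand of the lower pair `{x, y}` and the upper pair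
`{x, z}` of a window which moves at most `k` strands -/
theorem power (hD : Closed D) {x y z : S} (hyz : y ≠ z) (h : W D A n x y x z) {k : ℕ}
    (hk : A.ncard ≤ k) : p3 x y z ∈ D (Nat.factorial k * n) := by
  have hm := h.mem
  have hxz := h.ne
  obtain ⟨h1, h2, h3, ρ, h4, h5, h6, h7⟩ := h
  obtain ⟨N, hN⟩ : ∃ N, Nat.factorial k = N + 1 := ⟨_, (Nat.succ_pred_eq_of_pos
    (Nat.factorial_pos k)).symm⟩
  have h8 := power_aux hD h1 hxz hyz h5 h6 h7 N
  have h9 : (ρ * swap z y) ^ (N + 1) = 1 := by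
    rw [← hN]
    refine pow_factorial (A := A) (fun s hs => ?_) hk
    rw [Perm.mul_apply, swap_apply_of_ne_of_ne (ne_of_not_mem hm.2 hs) (ne_of_not_mem h3 hs),
      h4 s hs]
  rw [h9, one_mul, ← hN] at h8
  exact h8

/-! ### Alternating chains -/

section Alt

variable {H : Type*} [Group H] [MulAction H S]

/-- ALTERNATING CHAIN: gadgets at all translates of the pair `{x, y}`, upper pair = the lower
pair translated by `ζ`, gadgets at all translates of the pair `{y, z}` with `ζ'`. After `N`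
rounds with `(ζ ζ') ^ N = 1` the upper pair is `{y, z}`. -/
theorem alt (hD : Closed D) {x y z : S} {ζ ζ' : H} (hxz : x ≠ z)
    (h : ∀ t : H, W D A m (t • x) (t • y) ((t * ζ) • x) ((t * ζ) • y))
    (h' : ∀ t : H, W D A n (t • y) (t • z) ((t * ζ') • y) ((t * ζ') • z)) (N : ℕ) :
    W D A ((N + 1) * (m + n)) x y (((ζ * ζ') ^ (N + 1)) • z) (((ζ * ζ') ^ (N + 1)) • y) := by
  have step : ∀ t : H, W D A (m + n) (t • x) (t • y) ((t * (ζ * ζ')) • z)
      ((t * (ζ * ζ')) • y) := by
    intro t
    have h1 := (h t).trans hD (h' (t * ζ)) (fun hc => hxz (MulAction.injective _ hc))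
    rw [mul_assoc] at h1
    exact h1
  induction N with
  | zero =>
    have h1 := step 1
    rw [one_smul, one_smul, one_mul] at h1
    rw [zero_add, one_mul, pow_one]
    exact h1
  | succ N ih =>
    have h1 := step ((ζ * ζ') ^ (N + 1))
    have h2 := ih.trans hD h1.symm (fun hc => hxz (MulAction.injective _ hc.symm))
    rw [← pow_succ] at h2
    have e4 : (N + 1 + 1) * (m + n) = (N + 1) * (m + n) + (m + n) := by ring
    rw [e4]
    exact h2.flip.flip

/-- the flat three strand window at `x - y - z` -/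
theorem alt_p3 (hD : Closed D) {x y z : S} {ζ ζ' : H} (hxz : x ≠ z)
    (h : ∀ t : H, W D A m (t • x) (t • y) ((t * ζ) • x) ((t * ζ) • y))
    (h' : ∀ t : H, W D A n (t • y) (t • z) ((t * ζ') • y) ((t * ζ') • z))
    {N k : ℕ} (hN : 0 < N) (hζ : (ζ * ζ') ^ N = 1) (hk : A.ncard ≤ k) :
    p3 y x z ∈ D (Nat.factorial k * (N * (m + n))) := by
  obtain ⟨N, rfl⟩ : ∃ M, N = M + 1 := ⟨N - 1, by omega⟩
  have h1 := alt hD hxz h h' N
  rw [hζ, one_smul, one_smul] at h1
  exact power hD hxz h1.symm hk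

end Alt

end

end Pool.Agent.Lib.MP_688fd0_co.SQ5.H64
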