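import Mathlib
import Pool.Agent.Lib.MP_688fd0_co.SQ5.H64.Power
import Pool.Agent.Lib.MP_688fd0_co.SQ5.H95.Layer

/-!
MP_688fd0_co, type C2: the power trick and the alternating chain for `StkT 𝒟`, the loopless
stacks of elementary diagrams.
-/

set_option autoImplicit false

namespace Pool.Agent.Lib.MP_688fd0_co.SQ5.H64

open Function Equiv Pool.Agent.Lib.MP_688fd0_co.SQ5.H95

noncomputable section

variable {S : Type*} [DecidableEq S] [Finite S] {𝒟 : Set (S × Bool → S × Bool)}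

/-- the diagrams of a run with `n` layers -/
def DT (𝒟 : Set (S × Bool → S × Bool)) (n : ℕ) : Set (S × Bool → S × Bool) :=
  {d | StkT 𝒟 n d}

omit [DecidableEq S] in
theorem closed_stkT : Closed (DT 𝒟) := fun _ _ _ _ h1 h2 h3 => StkT.join h1 h2 h3

omit [Finite S] in
/-- one elementary window -/
theorem W.ofMem {A : Set S} {a b c d : S} {σ : Perm S} (hab : a ≠ b) (ha : a ∈ A) (hb : b ∈ A)
    (hσ : ∀ s, s ∉ A → σ s = s) (hc : σ a = c) (hd : σ b = d) (h : win a b σ ∈ 𝒟) :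
    W (DT 𝒟) A 1 a b c d :=
  ⟨hab, ha, hb, σ, hσ, hc, hd, StkT.one h⟩

/-- padding -/
theorem W.pad (hp : ∀ d ∈ 𝒟, IsPair d) (hi : idd ∈ 𝒟) {A : Set S} {m n : ℕ} {a b c d : S}
    (h : W (DT 𝒟) A m a b c d) (hmn : m ≤ n) : W (DT 𝒟) A n a b c d := by
  obtain ⟨h1, h2, h3, σ, h4, h5, h6, h7⟩ := h
  exact ⟨h1, h2, h3, σ, h4, h5, h6, StkT.mono hp hi h7 hmn⟩

/-- POWER TRICK for loopless stacks -/
theorem power_stkT {A : Set S} {n k : ℕ} {x y z : S} (hyz : y ≠ z)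
    (h : W (DT 𝒟) A n x y x z) (hk : A.ncard ≤ k) :
    StkT 𝒟 (Nat.factorial k * n) (p3 x y z) :=
  power closed_stkT hyz h hk

/-- POWER TRICK with a given exponent -/
theorem power_stkT_pow {n N : ℕ} (hN : 0 < N) {x y z : S} (hxy : x ≠ y) (hxz : x ≠ z)
    (hyz : y ≠ z) {ρ : Perm S} (hx : ρ x = x) (hy : ρ y = z) (h : StkT 𝒟 n (win x y ρ))
    (hρ : (ρ * swap z y) ^ N = 1) : StkT 𝒟 (N * n) (p3 x y z) := by
  obtain ⟨N, rfl⟩ : ∃ M, N = M + 1 := ⟨N - 1, by omega⟩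
  have h1 := power_aux (D := DT 𝒟) closed_stkT hxy hxz hyz hx hy h N
  rw [hρ, one_mul] at h1
  exact h1

/-- ALTERNATING CHAIN + POWER for loopless stacks -/
theorem alt_stkT {H : Type*} [Group H] [MulAction H S] {A : Set S} {m n : ℕ} {x y z : S}
    {ζ ζ' : H} (hxz : x ≠ z)
    (h : ∀ t : H, W (DT 𝒟) A m (t • x) (t • y) ((t * ζ) • x) ((t * ζ) • y))
    (h' : ∀ t : H, W (DT 𝒟) A n (t • y) (t • z) ((t * ζ') • y) ((t * ζ') • z))
    {N k : ℕ} (hN : 0 < N) (hζ : (ζ * ζ') ^ N = 1) (hk : A.ncard ≤ k) :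
    StkT 𝒟 (Nat.factorial k * (N * (m + n))) (p3 y x z) :=
  alt_p3 closed_stkT hxz h h' hN hζ hk

end

end Pool.Agent.Lib.MP_688fd0_co.SQ5.H64
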