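import Pool.Agent.Lib.MP_688fd0_co.SQ5.H20.Drift

/-!
MP_688fd0_co, type C2, row P3ALL (helper64): from the chains of the walls (`HPath.chain`, with drift) to windows with
lower pair = upper pair, and to all flat three strand windows.
-/

set_option autoImplicit false

namespace Pool.Agent.Lib.MP_688fd0_co.SQ5.H64

open Function Equiv
open Pool.Agent.Lib.MP_688fd0_co.SQ5.H20

section Loop

variable {S : Type*} [DecidableEq S] {D : ℕ → Set (S × Bool → S × Bool)} {c c' n n' : ℕ}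

/-- `{x, y} -> {x, u}, {x, r} -> {x, r'}, {x, u'} -> {x, y}` -/
theorem loop_wc [Finite S] (hD : Closed D) {x y u u' r r' : S} (h1 : WC D c n s(x, y) s(x, u))
    (h2 : WC D c' n' s(x, r) s(x, r')) (h3 : WC D c n s(x, u') s(x, y)) (hr : u ≠ r) (hr' : u' ≠ r') :
    WC D (c + c' + c) (n + n' + n) s(x, y) s(x, y) :=
  (h1.comp hD ⟨x, u, r, rfl, rfl, hr⟩ h2).comp hD ⟨x, r', u', rfl, rfl, hr'.symm⟩ h3

/-- `{x, y} -> {x, y}` and `{x, z} -> {x, z}` give the flat window -/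
theorem p3_wc [Finite S] (hD : Closed D) (Λ : SimpleGraph S)
    (hE : ∀ x y, Λ.Adj x y → WC D c n s(x, y) s(x, y)) {x y z : S}
    (hy : Λ.Adj x y) (hz : Λ.Adj x z) (hyz : y ≠ z) : p3 x y z ∈ D (Nat.factorial (c + c) * (n + n)) :=
  p3_all hD Λ (n := n) (c := c) (fun x y h => hE x y h) hy hz hyz

end Loop

section Wall

variable {S : Type*} {ω : ℤ → S} {τ : ℤ → Perm S} {θ : Perm S} {P : ℕ} {M : Set ℤ}

theorem rgZ_zpow (h : HPath ω τ θ P M) (m q : ℤ) : rgZ ω (m + q * P) = (rgZ ω m).map (θ ^ q) := by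
  unfold rgZ
  rw [h.om_zpow, add_right_comm, h.om_zpow, Sym2.map_mk]

theorem zpow_fix {y : S} (hy : θ y = y) (q : ℤ) : (θ ^ q) y = y := by
  have h : θ ∈ MulAction.stabilizer (Perm S) y := hy
  exact (MulAction.stabilizer (Perm S) y).zpow_mem h q

variable [DecidableEq S] [Finite S] {D : ℕ → Set (S × Bool → S × Bool)}

/-- THE LOOP OF A RUNG of a wall with drift: `σ` = involution of the levels, `y` = the common strand of the rungs `m` and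
`σ m`, fixed by the drift; `{y, r} -> {y, r'}` = a turn pair, `r`, `r'` not translates of the partner `z'`. -/
theorem hpath_loop (h : HPath ω τ θ P M) (hD : Closed D) (hI : ∀ n, idd ∈ D n) {c ℓ : ℕ}
    (hw : ∀ m ∈ M, ∀ i, CloZ ω τ m i → (∀ i', i' < i → ¬ CloZ ω τ m i') → i ≤ P →
      WC D c ℓ (rgZ ω m) (rgZ ω (m + i)))
    (σ : Perm ℤ) (hσP : ∀ m : ℤ, σ (m + P) = σ m + P) (hσM : ∀ m, σ m ∈ M ↔ m ∈ M)
    (hσ : ∀ m ∈ M, One (rgZ ω m) (rgZ ω (σ m))) (hσ2 : ∀ m, σ (σ m) = m) {m : ℤ} (hm : m ∈ M)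
    {y z z' : S} (h1 : rgZ ω m = s(y, z)) (h2 : rgZ ω (σ m) = s(y, z')) (hy : θ y = y) {r r' : S} {c' n' : ℕ}
    (ht : WC D c' n' s(y, r) s(y, r')) (hr : ∀ q : ℤ, (θ ^ q) z' ≠ r) (hr' : ∀ q : ℤ, (θ ^ q) z' ≠ r') :
    WC D (P * c + c' + P * c) (P * ℓ + n' + P * ℓ) s(y, z) s(y, z) := by
  obtain ⟨⟨q, hq⟩, ⟨q', hq'⟩⟩ := h.chain hD hI hw σ hσP hσM hσ hm
  have e : σ⁻¹ m = σ m := by
    rw [Perm.inv_def, symm_apply_eq, hσ2]
  have e1 : ∀ q : ℤ, rgZ ω (σ m + q * P) = s(y, (θ ^ q) z') := by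
    intro q
    rw [rgZ_zpow h, h2, Sym2.map_mk, zpow_fix hy]
  rw [e, e1, h1] at hq
  rw [e1, h1] at hq'
  exact loop_wc hD hq ht hq' (hr q) (hr' q')

/-- the same for a `Λ` all of whose edges are rungs: all flat three strand windows -/
theorem hpath_p3 (hD : Closed D) (hI : ∀ n, idd ∈ D n) {c ℓ : ℕ} {Λ : SimpleGraph S} {c' n' : ℕ}
    (hΛ : ∀ x y, Λ.Adj x y → ∃ (ω : ℤ → S) (τ : ℤ → Perm S) (θ : Perm S) (P : ℕ) (M : Set ℤ) (σ : Perm ℤ) (m : ℤ)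
      (y₀ z z' r r' : S), HPath ω τ θ P M ∧
      (∀ m ∈ M, ∀ i, CloZ ω τ m i → (∀ i', i' < i → ¬ CloZ ω τ m i') → i ≤ P →
        WC D c ℓ (rgZ ω m) (rgZ ω (m + i))) ∧
      (∀ m : ℤ, σ (m + P) = σ m + P) ∧ (∀ m, σ m ∈ M ↔ m ∈ M) ∧ (∀ m ∈ M, One (rgZ ω m) (rgZ ω (σ m))) ∧
      (∀ m, σ (σ m) = m) ∧ m ∈ M ∧ s(x, y) = s(y₀, z) ∧ rgZ ω m = s(y₀, z) ∧ rgZ ω (σ m) = s(y₀, z') ∧ θ y₀ = y₀ ∧
      WC D c' n' s(y₀, r) s(y₀, r') ∧ (∀ q : ℤ, (θ ^ q) z' ≠ r) ∧ (∀ q : ℤ, (θ ^ q) z' ≠ r') ∧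
      P * c + c' + P * c ≤ c' + c' ∧ P * ℓ + n' + P * ℓ ≤ n' + n') {x y z : S}
    (hy : Λ.Adj x y) (hz : Λ.Adj x z) (hyz : y ≠ z) :
    p3 x y z ∈ D (Nat.factorial (c' + c' + (c' + c')) * (n' + n' + (n' + n'))) := by
  refine p3_wc hD Λ (c := c' + c') (n := n' + n') ?_ hy hz hyz
  intro x y hxy
  obtain ⟨ω, τ, θ, P, M, σ, m, y₀, z, z', r, r', h, hw, a1, a2, a3, a4, hm, b0, b1, b2, b3, b4, b5, b6, c1, c2⟩ := hΛ x y hxy
  rw [b0]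
  exact ((hpath_loop h hD hI hw σ a1 a2 a3 a4 hm b1 b2 b3 b4 b5 b6).mono c1).pad hD hI c2

/-- THE LOOP OF A RUNG from the conclusion of a chain (`HPath.chain` or `HPathC.chain`): `m'` = the level `σ m` (or `σ⁻¹ m`),
`y` = the common strand, fixed by the drift `θ`. -/
theorem loop_of_windows (hD : Closed D) (hom : ∀ m q : ℤ, ω (m + q * P) = (θ ^ q) (ω m)) {m m' : ℤ} {c ℓ : ℕ}
    (w1 : ∃ q : ℤ, WC D c ℓ (rgZ ω m) (rgZ ω (m' + q * P))) (w2 : ∃ q : ℤ, WC D c ℓ (rgZ ω (m' + q * P)) (rgZ ω m))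
    {y z z' : S} (h1 : rgZ ω m = s(y, z)) (h2 : rgZ ω m' = s(y, z')) (hy : θ y = y) {r r' : S} {c' n' : ℕ}
    (ht : WC D c' n' s(y, r) s(y, r')) (hr : ∀ q : ℤ, (θ ^ q) z' ≠ r) (hr' : ∀ q : ℤ, (θ ^ q) z' ≠ r') :
    WC D (c + c' + c) (ℓ + n' + ℓ) s(y, z) s(y, z) := by
  obtain ⟨q, hq⟩ := w1
  obtain ⟨q', hq'⟩ := w2
  have e1 : ∀ q : ℤ, rgZ ω (m' + q * P) = s(y, (θ ^ q) z') := by
    intro q
    have e0 : rgZ ω (m' + q * P) = (rgZ ω m').map (θ ^ q) := by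
      unfold rgZ
      rw [hom, add_right_comm, hom, Sym2.map_mk]
    rw [e0, h2, Sym2.map_mk, zpow_fix hy]
  rw [e1, h1] at hq
  rw [e1, h1] at hq'
  exact loop_wc hD hq ht hq' (hr q) (hr' q')

end Wall

section Loops

variable {S : Type*} [DecidableEq S] [Finite S] {D : ℕ → Set (S × Bool → S × Bool)}

/-- all flat three strand windows from one loop per edge, with uniform bounds -/
theorem p3_of_loops (hD : Closed D) (hI : ∀ n, idd ∈ D n) {c n : ℕ} {Λ : SimpleGraph S}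
    (hΛ : ∀ x y, Λ.Adj x y → ∃ c' n' : ℕ, c' ≤ c ∧ n' ≤ n ∧ WC D c' n' s(x, y) s(x, y)) {x y z : S}
    (hy : Λ.Adj x y) (hz : Λ.Adj x z) (hyz : y ≠ z) : p3 x y z ∈ D (Nat.factorial (c + c) * (n + n)) := by
  refine p3_wc hD Λ ?_ hy hz hyz
  intro x y hxy
  obtain ⟨c', n', h1, h2, h3⟩ := hΛ x y hxy
  exact (h3.mono h1).pad hD hI h2

end Loops

end Pool.Agent.Lib.MP_688fd0_co.SQ5.H64
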