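import Pool.Agent.Lib.MP_688fd0_co.SQ5.H64.Deg3B
import Pool.Agent.Lib.MP_688fd0_co.SQ5.H95.DIdd

/-!
MP_688fd0_co, type C2, row DEGEN3 (helper60), part (C2) (helper64): the flat P3's as stacks of `StkT`, from six windows of `StkT`.
-/

set_option autoImplicit false

namespace Pool.Agent.Lib.MP_688fd0_co.SQ5.H64.D3

open Function Pool.Agent.Lib.MP_688fd0_co.OSF Pool.Agent.Lib.MP_688fd0_co.SQ5.H95
open Pool.Agent.Lib.MP_688fd0_co.SQ5.H76 Pool.Agent.Lib.MP_688fd0_co.SQ5.H20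

universe u v

variable {Q : Type u} [Group Q] {B : Lb.{u, v} Q} {l : L3 → B.L} {L : AddSubgroup (ℤ × ℤ)} {c : Cov B l L} {D : Bd}
  {s0 ph Wd κ0 κ1 : ℤ} [DecidableEq (Sd c D s0 κ0 κ1)]

theorem Wn.di {𝒟 : Set (Sd c D s0 κ0 κ1 × Bool → Sd c D s0 κ0 κ1 × Bool)} {hi : ∀ i, B.inv (l i) = l i} {n1 n2 : ℕ}
    {J x i : ℤ} (h : Wn (fun n => {d | StkT 𝒟 n d}) hi ph n1 n2 J x i) : Wn (DI 𝒟) hi ph n1 n2 J x i := by
  obtain ⟨m, h1, h2⟩ := h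
  exact ⟨m, h1, fun y hW => WC_DI (h2 y hW)⟩

theorem Win6.di {𝒟 : Set (Sd c D s0 κ0 κ1 × Bool → Sd c D s0 κ0 κ1 × Bool)} {hi : ∀ i, B.inv (l i) = l i} {n1 n2 : ℕ}
    (h : Win6 (fun n => {d | StkT 𝒟 n d}) hi ph Wd n1 n2) : Win6 (DI 𝒟) hi ph Wd n1 n2 :=
  ⟨h.a5.di, h.a7.di, h.b1.di, h.b3.di, h.b6.di, h.b0.di⟩

/-- hp3 of 49's `baseT_of_rows` for one window of labels `v0 .. v1`. -/
theorem deg3_stk [Finite Q] (hi : ∀ i, B.inv (l i) = l i) (Dg : H60.Deg (qq B l .a) (qq B l .b) (qq B l .t))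
    (H : H60.D3 D s0 ph Wd) (hk0 : κ0 ≤ Wd) (hk1 : Wd + 3 ≤ κ1)
    {T : Type*} {Λ : SimpleGraph T} {f : T → Sd c D s0 κ0 κ1} (K : TT c D s0 κ0 κ1 Wd Λ f)
    {𝒟 : Set (Sd c D s0 κ0 κ1 × Bool → Sd c D s0 κ0 κ1 × Bool)} (hp : ∀ d ∈ 𝒟, IsPair d) (hid : idd ∈ 𝒟) {n1 n2 : ℕ}
    (W6 : Win6 (fun n => {d | StkT 𝒟 n d}) hi ph Wd n1 n2) (x y z : T) (hy : Λ.Adj x y) (hz : Λ.Adj x z) (hyz : y ≠ z) :
    StkT 𝒟 (Nat.factorial (8 * n1) * (8 * n2)) (p3 (f x) (f y) (f z)) := by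
  rcases (deg3_all hi Dg H hk0 hk1 K (closed_DI hp hid) (fun n => idd_DI n) W6.di).2 x y z hy hz hyz with h | h
  · exfalso
    have h1 := congrFun h (f x, false)
    have h2 : p3 (f x) (f y) (f z) (f x, false) = (f y, false) := win_low_left _ _ _
    rw [h2] at h1
    exact absurd (congrArg Prod.snd h1) (by simp [idd])
  · exact h

end Pool.Agent.Lib.MP_688fd0_co.SQ5.H64.D3
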