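import Mathlib
import Pool.Agent.Lib.MP_688fd0_co.SQ5.H64.Walk

/-!
MP_688fd0_co, type C: LEMMA STAR of helper12 (finding 4241): the ten diagrams made of P3's on a
star `K_{1,3}` have the property `Star`.

Strands `0` (the centre `y`), `1, 2, 3` (the leaves); the end `i` is the lower end of strand `i`
and the end `4 + i` is the upper end, `i < 4`.
-/

namespace Pool.Agent.Lib.MP_688fd0_co.SQ5.H64

open Function

/-- the ten diagrams: the identity; the P3 diagrams `W f g` (lower pair `{y, f}`, upper pair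
`{y, g}`, lower end of `g` to the upper end of `f`, the third leaf straight), `f, g` different
leaves; and `W f f` (pairs `{y, f}` below and above, the two other leaves exchanged). Order:
identity, (1,1), (1,2), (1,3), (2,1), (2,2), (2,3), (3,1), (3,2), (3,3). -/
def diagrams : List (Fin 8 → Fin 8) :=
  [![4, 5, 6, 7, 0, 1, 2, 3],
   ![1, 0, 7, 6, 5, 4, 3, 2],
   ![1, 0, 5, 7, 6, 2, 4, 3],
   ![1, 0, 6, 5, 7, 3, 2, 4],
   ![2, 6, 0, 7, 5, 4, 1, 3],
   ![2, 7, 0, 5, 6, 3, 4, 1],
   ![2, 5, 0, 6, 7, 1, 3, 4],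
   ![3, 7, 6, 0, 5, 4, 2, 1],
   ![3, 5, 7, 0, 6, 1, 4, 2],
   ![3, 6, 5, 0, 7, 2, 1, 4]]

def app (q x : ℕ) : ℕ := q / 8 ^ x % 8

def msk : ℕ → ℕ → ℕ → ℕ → ℕ
  | _, _, 0, x => 2 ^ x
  | q, d, k + 1, x => 2 ^ x ||| msk d q k (app q x)

/-- codes of the diagrams -/
def dcodes : List ℕ := [6852524, 5135809, 7434049, 9042817, 6708786, 3271226, 9239594, 2773435, 5300715, 8745331]

def chkPair (q x y : ℕ) : Bool :=
  y == x || y == app q x || dcodes.any (fun d => (msk q d 7 x ||| msk q d 7 y) == 255)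

def chk (q : ℕ) : Bool :=
  [0, 1, 2, 3, 4, 5, 6, 7].all fun x => [0, 1, 2, 3, 4, 5, 6, 7].all fun y => chkPair q x y

/-- is `a` an admissible partner of `k`, given the partners of `0..k-1` -/
def okb (q k a : ℕ) : Bool :=
  a != k && (List.range k).all fun j => (app q j == k) == (a == j)

/-- check all pairings which extend the partial one -/
def go : ℕ → ℕ → ℕ → Bool
  | 0, _, q => chk q
  | n + 1, k, q => [0, 1, 2, 3, 4, 5, 6, 7].all fun a => !(okb q k a) || go n (k + 1) (q + a * 8 ^ k)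

theorem go_all : go 8 0 0 = true := by
  decide +kernel

theorem mem8 : ∀ a < 8, a ∈ [0, 1, 2, 3, 4, 5, 6, 7] := by
  decide

theorem go_step {n k q a : ℕ} (h : go (n + 1) k q = true) (ha : a < 8)
    (ho : okb q k a = true) : go n (k + 1) (q + a * 8 ^ k) = true := by
  rw [go, List.all_eq_true] at h
  have h1 := h a (mem8 a ha)
  rw [ho] at h1
  simpa using h1

theorem codes_ok : ∀ d ∈ dcodes, ∃ f ∈ diagrams, ∀ x : Fin 8, (f x : ℕ) = app d x := by
  decide +kernel

theorem app_lt {q a j k : ℕ} (h : j < k) : app (q + a * 8 ^ k) j = app q j := by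
  unfold app
  obtain ⟨m, rfl⟩ := Nat.exists_eq_add_of_lt h
  have h1 : q + a * 8 ^ (j + m + 1) = q + 8 ^ j * (8 * (a * 8 ^ m)) := by ring
  rw [h1, Nat.add_mul_div_left _ _ (by positivity)]
  omega

theorem app_self {q a k : ℕ} (hq : q < 8 ^ k) (ha : a < 8) : app (q + a * 8 ^ k) k = a := by
  unfold app
  rw [Nat.add_mul_div_right _ _ (by positivity), Nat.div_eq_of_lt hq]
  omega

/-- partial codes of a map -/
def pc (Q : ℕ → ℕ) : ℕ → ℕ
  | 0 => 0
  | k + 1 => pc Q k + Q k * 8 ^ k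

theorem pc_lt {Q : ℕ → ℕ} (hQ : ∀ x, Q x < 8) : ∀ k, pc Q k < 8 ^ k
  | 0 => by simp [pc]
  | k + 1 => by
    have h1 := pc_lt hQ k
    have h2 := hQ k
    rw [pc, pow_succ]
    have h3 : Q k * 8 ^ k ≤ 7 * 8 ^ k := Nat.mul_le_mul_right _ (by omega)
    omega

theorem app_pc {Q : ℕ → ℕ} (hQ : ∀ x, Q x < 8) {j : ℕ} : ∀ {k}, j < k → app (pc Q k) j = Q j
  | k + 1, h => by
    rw [pc]
    rcases Nat.lt_or_ge j k with h1 | h1
    · rw [app_lt h1, app_pc hQ h1]
    · have h2 : j = k := by omega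
      rw [h2, app_self (pc_lt hQ k) (hQ k)]

/-- the map on the natural numbers -/
def ext8 (Q : Fin 8 → Fin 8) (x : ℕ) : ℕ := if h : x < 8 then (Q ⟨x, h⟩ : ℕ) else 0

theorem ext8_lt (Q : Fin 8 → Fin 8) (x : ℕ) : ext8 Q x < 8 := by
  unfold ext8
  split
  · exact (Q _).2
  · norm_num

/-- the code of a map -/
def code (Q : Fin 8 → Fin 8) : ℕ := pc (ext8 Q) 8

theorem app_code (Q : Fin 8 → Fin 8) (x : Fin 8) : app (code Q) x = Q x := by
  unfold code
  rw [app_pc (ext8_lt Q) x.2]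
  unfold ext8
  rw [dif_pos x.2]

theorem con_swap {X : Type*} {f g : X → X} {x y : X} (h : Con f g x y) : Con g f x y := by
  induction h with
  | refl => exact Con.refl' _
  | tail _ hs ih =>
    exact ih.trans' (Relation.ReflTransGen.single hs.symm)

theorem testBit_two_pow' (a z : ℕ) : Nat.testBit (2 ^ a) z = true ↔ a = z := by
  rw [Nat.testBit_two_pow]
  simp

theorem msk_con : ∀ (k : ℕ) (Q D : Fin 8 → Fin 8) (q d : ℕ),
    (∀ x : Fin 8, (Q x : ℕ) = app q x) → (∀ x : Fin 8, (D x : ℕ) = app d x) →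
    ∀ x z : Fin 8, Nat.testBit (msk q d k x) z = true → Con Q D x z
  | 0, Q, D, q, d, _, _, x, z, h => by
    rw [msk, testBit_two_pow'] at h
    have : x = z := Fin.ext h
    rw [this]; exact Con.refl' _
  | k + 1, Q, D, q, d, hQ, hD, x, z, h => by
    rw [msk, Nat.testBit_or, Bool.or_eq_true, testBit_two_pow'] at h
    rcases h with h | h
    · have : x = z := Fin.ext h
      rw [this]; exact Con.refl' _
    · rw [← hQ x] at h
      have h1 := msk_con k D Q d q hD hQ (Q x) z h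
      exact (con_left (f := Q) (g := D) x).trans' (con_swap h1)

theorem okb_pc {Q : Fin 8 → Fin 8} (hQ : IsPair Q) {k : ℕ} (hk : k < 8) :
    okb (pc (ext8 Q) k) k (ext8 Q k) = true := by
  unfold okb
  rw [Bool.and_eq_true, List.all_eq_true]
  constructor
  · rw [bne_iff_ne]
    unfold ext8
    rw [dif_pos hk]
    intro h
    exact hQ.2 ⟨k, hk⟩ (Fin.ext h)
  · intro j hj
    rw [List.mem_range] at hj
    rw [app_pc (ext8_lt Q) hj, beq_iff_eq]
    have hj8 : j < 8 := by omega
    have h1 : ext8 Q j = k ↔ ext8 Q k = j := by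
      unfold ext8
      rw [dif_pos hk, dif_pos hj8]
      constructor
      · intro h
        have h2 : Q ⟨j, hj8⟩ = ⟨k, hk⟩ := Fin.ext h
        rw [← h2, hQ.1]
      · intro h
        have h2 : Q ⟨k, hk⟩ = ⟨j, hj8⟩ := Fin.ext h
        rw [← h2, hQ.1]
    rw [Bool.eq_iff_iff, beq_iff_eq, beq_iff_eq]
    exact h1

theorem chk_of_pair {Q : Fin 8 → Fin 8} (hQ : IsPair Q) : chk (code Q) = true := by
  have h0 : go 8 0 (pc (ext8 Q) 0) = true := go_all
  have h1 : go 7 1 (pc (ext8 Q) 1) = true := go_step h0 (ext8_lt Q _) (okb_pc hQ (by norm_num))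
  have h2 : go 6 2 (pc (ext8 Q) 2) = true := go_step h1 (ext8_lt Q _) (okb_pc hQ (by norm_num))
  have h3 : go 5 3 (pc (ext8 Q) 3) = true := go_step h2 (ext8_lt Q _) (okb_pc hQ (by norm_num))
  have h4 : go 4 4 (pc (ext8 Q) 4) = true := go_step h3 (ext8_lt Q _) (okb_pc hQ (by norm_num))
  have h5 : go 3 5 (pc (ext8 Q) 5) = true := go_step h4 (ext8_lt Q _) (okb_pc hQ (by norm_num))
  have h6 : go 2 6 (pc (ext8 Q) 6) = true := go_step h5 (ext8_lt Q _) (okb_pc hQ (by norm_num))
  have h7 : go 1 7 (pc (ext8 Q) 7) = true := go_step h6 (ext8_lt Q _) (okb_pc hQ (by norm_num))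
  exact go_step h7 (ext8_lt Q _) (okb_pc hQ (by norm_num))

theorem testBit_255 : ∀ z : Fin 8, Nat.testBit 255 z = true := by decide +kernel

/-- LEMMA STAR -/
theorem star8 : Star {f : Fin 8 → Fin 8 | f ∈ diagrams} := by
  intro Q hQ x y hxy hxy'
  have h := chk_of_pair hQ
  unfold chk at h
  rw [List.all_eq_true] at h
  have hmem : ∀ x : Fin 8, (x : ℕ) ∈ [0, 1, 2, 3, 4, 5, 6, 7] := by decide
  have h1 := h x (hmem x)
  rw [List.all_eq_true] at h1
  have h2 := h1 y (hmem y)
  unfold chkPair at h2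
  rw [Bool.or_eq_true, Bool.or_eq_true, app_code] at h2
  rcases h2 with (h2 | h2) | h2
  · exact absurd (Fin.ext (beq_iff_eq.1 h2)) hxy
  · exact absurd (Fin.ext (beq_iff_eq.1 h2)) hxy'
  · rw [List.any_eq_true] at h2
    obtain ⟨d, hd, hd2⟩ := h2
    obtain ⟨f, hf, hfd⟩ := codes_ok d hd
    refine ⟨f, hf, fun z => ?_⟩
    have h3 := testBit_255 z
    rw [← beq_iff_eq.1 hd2, Nat.testBit_or, Bool.or_eq_true] at h3
    rcases h3 with h3 | h3
    · exact Or.inl (msk_con 7 Q f _ d (fun x => (app_code Q x).symm) hfd x z h3)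
    · exact Or.inr (msk_con 7 Q f _ d (fun x => (app_code Q x).symm) hfd y z h3)

theorem diagrams_pair : ∀ f ∈ diagrams, IsPair f := by
  intro f hf
  simp only [diagrams, List.mem_cons, List.not_mem_nil, or_false] at hf
  rcases hf with rfl | rfl | rfl | rfl | rfl | rfl | rfl | rfl | rfl | rfl <;>
    exact ⟨by decide, by decide⟩

/-- transport of `Star` -/
theorem Star.equiv {F F' : Type*} (e : F ≃ F') {D : Set (F → F)} (h : Star D) :
    Star {f' : F' → F' | ∃ f ∈ D, ∀ x, f' (e x) = e (f x)} := by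
  intro Q hQ x y hxy hxy'
  obtain ⟨d, hd, hz⟩ := h (fun x => e.symm (Q (e x)))
    ⟨fun x => by simp [hQ.1], fun x hx => hQ.2 (e x) (by simpa using congrArg e hx)⟩
    (e.symm x) (e.symm y) (fun h' => hxy (e.symm.injective h'))
    (fun h' => hxy' (by simpa using congrArg e h'))
  refine ⟨fun x => e (d (e.symm x)), ⟨d, hd, fun x => by simp⟩, fun z => ?_⟩
  have tr : ∀ a b : F, Con (fun x => e.symm (Q (e x))) d a b →
      Con Q (fun x => e (d (e.symm x))) (e a) (e b) := by
    intro a b hab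
    induction hab with
    | refl => exact Con.refl' _
    | tail _ hs ih =>
      refine ih.trans' ?_
      rcases hs with hs | hs
      · rw [hs]
        exact Relation.ReflTransGen.single (Or.inl (by simp))
      · rw [hs]
        exact Relation.ReflTransGen.single (Or.inr (by simp))
  rcases hz (e.symm z) with h' | h'
  · left
    have := tr _ _ h'
    simpa using this
  · right
    have := tr _ _ h'
    simpa using this

theorem Star.mono {F : Type*} {D D' : Set (F → F)} (h : Star D) (hD : D ⊆ D') : Star D' := by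
  intro Q hQ x y hxy hxy'
  obtain ⟨d, hd, hz⟩ := h Q hQ x y hxy hxy'
  exact ⟨d, hD hd, hz⟩

end Pool.Agent.Lib.MP_688fd0_co.SQ5.H64
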