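import Pool.Agent.Lib.MP_688fd0_co.SQ5.H64.P3All
import Pool.Agent.Lib.MP_688fd0_co.SQ5.H95.Core

/-!
MP_688fd0_co, type C2, row DEGEN3 (helper60), part (C1) (helper64): a rung graph with four labels `v .. v + 3`, windows around
the centres of the labels `v`, `v + 2` (down), `v + 3`: loops for all edges, all flat three strand windows, four neighbours.

`Λ : SimpleGraph T`, `i : T → S` injective (`T` = the strands `V z` of a region, `i` = inclusion in all strands).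
-/

set_option autoImplicit false

namespace Pool.Agent.Lib.MP_688fd0_co.SQ5.H64

open Function Equiv
open Pool.Agent.Lib.MP_688fd0_co.SQ5.H20

/-- A graph with the labels `v, v + 1, v + 2, v + 3`. -/
structure Lay4 {T : Type*} (Λ : SimpleGraph T) (lab : T → ℤ) (v : ℤ) : Prop where
  rng : ∀ x, v ≤ lab x ∧ lab x ≤ v + 3
  dif : ∀ x y, Λ.Adj x y → lab y = lab x + 1 ∨ lab x = lab y + 1
  /-- every neighbour has a twin with the same label -/
  tw : ∀ x y, Λ.Adj x y → ∃ y', Λ.Adj x y' ∧ lab y' = lab y ∧ y' ≠ y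
  up : ∀ x, lab x ≤ v + 2 → ∃ y, Λ.Adj x y ∧ lab y = lab x + 1
  dn : ∀ x, v + 1 ≤ lab x → ∃ y, Λ.Adj x y ∧ lab x = lab y + 1
  /-- common neighbours with the label `v + 3` -/
  co3 : ∀ x x' y, lab y = v + 1 → lab x = v + 2 → lab x' = v + 2 → x ≠ x' → Λ.Adj y x → Λ.Adj y x' →
    ∃ u, lab u = v + 3 ∧ Λ.Adj u x ∧ Λ.Adj u x'
  /-- common neighbours with the label `v + 2` -/
  co2 : ∀ y y' u, lab u = v → y ≠ y' → Λ.Adj u y → Λ.Adj u y' → ∃ x, lab x = v + 2 ∧ Λ.Adj x y ∧ Λ.Adj x y'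

namespace Lay4

section Graph

variable {T : Type*} {Λ : SimpleGraph T} {lab : T → ℤ} {v : ℤ}

/-- inner labels have four neighbours -/
theorem four (h : Lay4 Λ lab v) {x : T} (h1 : v + 1 ≤ lab x) (h2 : lab x ≤ v + 2) : H95.Four Λ x := by
  obtain ⟨a, a1, a2⟩ := h.up x h2
  obtain ⟨a', a3, a4, a5⟩ := h.tw x a a1
  obtain ⟨b, b1, b2⟩ := h.dn x h1
  obtain ⟨b', b3, b4, b5⟩ := h.tw x b b1
  have hab : a ≠ b := fun e => by rw [e] at a2; omega
  have hab' : a ≠ b' := fun e => by rw [e] at a2; omega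
  have ha'b : a' ≠ b := fun e => by rw [e] at a4; omega
  have ha'b' : a' ≠ b' := fun e => by rw [e] at a4; omega
  refine ⟨![a, a', b, b'], ?_, ?_⟩
  · intro i j
    fin_cases i <;> fin_cases j <;> simp [hab, hab', ha'b, ha'b', a5, b5, a5.symm, b5.symm, hab.symm, hab'.symm,
      ha'b.symm, ha'b'.symm]
  · intro i
    fin_cases i
    · exact a1
    · exact a3
    · exact b1
    · exact b3

theorem h4 (h : Lay4 Λ lab v) {x y : T} (hxy : Λ.Adj x y) : H95.Four Λ x ∨ H95.Four Λ y := by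
  have h1 := h.dif x y hxy
  have h2 := h.rng x
  have h3 := h.rng y
  by_cases hx : v + 1 ≤ lab x ∧ lab x ≤ v + 2
  · exact Or.inl (h.four hx.1 hx.2)
  · refine Or.inr (h.four ?_ ?_) <;> omega

theorem iso (h : Lay4 Λ lab v) (x : T) : ∃ y, Λ.Adj x y := by
  rcases le_or_gt (lab x) (v + 2) with h1 | h1
  · obtain ⟨y, hy, -⟩ := h.up x h1
    exact ⟨y, hy⟩
  · obtain ⟨y, hy, -⟩ := h.dn x (by omega)
    exact ⟨y, hy⟩

end Graph

section Windows

variable {T S : Type*} [DecidableEq S] [Finite S] {Λ : SimpleGraph T} {lab : T → ℤ} {v : ℤ} {i : T → S}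
variable {D : ℕ → Set (S × Bool → S × Bool)} {c n : ℕ}

/-- LOOPS for all edges. -/
theorem loops (h : Lay4 Λ lab v) (hi : Injective i) (hD : Closed D) (hI : ∀ n, idd ∈ D n)
    (w0 : ∀ a p p', lab a = v → Λ.Adj a p → Λ.Adj a p' → p ≠ p' → WC D c n s(i a, i p) s(i a, i p'))
    (w3 : ∀ a p p', lab a = v + 3 → Λ.Adj a p → Λ.Adj a p' → p ≠ p' → WC D c n s(i a, i p) s(i a, i p'))
    (w2 : ∀ a p p', lab a = v + 2 → lab p = v + 1 → lab p' = v + 1 → Λ.Adj a p → Λ.Adj a p' → p ≠ p' →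
      WC D c n s(i a, i p) s(i a, i p')) {x y : T} (hxy : Λ.Adj x y) :
    WC D (c + c + c + c) (n + n + n + n) s(i x, i y) s(i x, i y) := by
  have ne : ∀ {a b : T}, lab a ≠ lab b → i a ≠ i b := fun hl he => hl (congrArg lab (hi he))
  have one : ∀ {a b b' : T}, b ≠ b' → One s(i a, i b) s(i a, i b') := fun hb => ⟨_, _, _, rfl, rfl, fun e => hb (hi e)⟩
  have one' : ∀ {a a' b : T}, a ≠ a' → One s(i a, i b) s(i b, i a') := fun hb =>
    ⟨_, _, _, Sym2.eq_swap, rfl, fun e => hb (hi e)⟩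
  have one'' : ∀ {a a' b : T}, a ≠ a' → One s(i a, i b) s(i a', i b) := fun hb =>
    ⟨_, _, _, Sym2.eq_swap, Sym2.eq_swap, fun e => hb (hi e)⟩
  -- the three kinds of edges, given with the lower or upper label first
  have key : ∀ {x y : T}, Λ.Adj x y → lab x = lab y + 1 →
      WC D (c + c + c + c) (n + n + n + n) s(i x, i y) s(i x, i y) := by
    intro x y hxy hl
    have hx := h.rng x
    have hy := h.rng y
    rcases (by omega : lab y = v ∨ lab y = v + 1 ∨ lab y = v + 2) with h0 | h0 | h0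
    · -- `y` is a centre with the label `v`, `x` has the label `v + 1`
      obtain ⟨x1, a1, a2, a3⟩ := h.tw y x hxy.symm
      obtain ⟨y1, b1, b2, b3⟩ := h.tw x1 y a1.symm
      obtain ⟨x2, c1, c2, c3⟩ := h.tw y1 x1 b1.symm
      obtain ⟨u, u1, u2, u3⟩ := h.co2 x1 x2 y1 (by omega) c3.symm b1.symm c1
      -- {y,x} -> {y,x1} | {y1,x1} -> {y1,x2} | {u,x2} -> {u,x1} | {y,x1} -> {y,x}
      have k1 := w0 y x x1 h0 hxy.symm a1 a3.symm
      have k2 := w0 y1 x1 x2 (by omega) b1.symm c1 c3.symm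
      have k3 := w2 u x2 x1 u1 (by omega) (by omega) u3 u2 c3
      have k4 := w0 y x1 x h0 a1 hxy.symm a3
      have h5 := ((k1.comp hD (one'' b3.symm) k2).comp hD
        (one'' (fun e => by rw [e, u1] at b2; omega)) k3).comp hD (one'' (fun e => by rw [e, h0] at u1; omega)) k4
      rw [Sym2.eq_swap (a := i x)]
      exact h5
    · -- `x` has the label `v + 2`, `y` has the label `v + 1`
      obtain ⟨y1, a1, a2, a3⟩ := h.tw x y hxy
      obtain ⟨x1, b1, b2, b3⟩ := h.tw y1 x a1.symm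
      obtain ⟨u, u1, u2, u3⟩ := h.co3 x x1 y1 (by omega) (by omega) (by omega) b3.symm a1.symm b1
      obtain ⟨y2, c1, c2, c3⟩ := h.tw x1 y1 b1.symm
      -- {x,y} -> {x,y1} | {u,x} -> {u,x1} | {x1,y2} -> {x1,y1} | {x,y1} -> {x,y}
      have k1 := w2 x y y1 (by omega) (by omega) (by omega) hxy a1 a3.symm
      have k2 := w3 u x x1 u1 u2 u3 b3.symm
      have k3 := w2 x1 y2 y1 (by omega) (by omega) (by omega) c1 b1.symm c3
      have k4 := w2 x y1 y (by omega) (by omega) (by omega) a1 hxy a3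
      have e1 : One s(i x, i y1) s(i u, i x) := ⟨i x, i y1, i u, rfl, Sym2.eq_swap, ne (by omega)⟩
      have e2 : One s(i u, i x1) s(i x1, i y2) := ⟨i x1, i u, i y2, Sym2.eq_swap, rfl, ne (by omega)⟩
      have e3 : One s(i x1, i y1) s(i x, i y1) := one'' b3
      exact ((k1.comp hD e1 k2).comp hD e2 k3).comp hD e3 k4
    · -- `x` is a centre with the label `v + 3`, `y` has the label `v + 2`
      obtain ⟨y1, a1, a2, a3⟩ := h.tw x y hxy
      obtain ⟨z, b1, b2⟩ := h.dn y1 (by omega)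
      obtain ⟨z1, c1, c2, c3⟩ := h.tw y1 z b1
      -- {x,y} -> {x,y1} | {y1,z} -> {y1,z1} | {x,y1} -> {x,y}
      have k1 := w3 x y y1 (by omega) hxy a1 a3.symm
      have k2 := w2 y1 z z1 (by omega) (by omega) (by omega) b1 c1 c3.symm
      have k3 := w3 x y1 y (by omega) a1 hxy a3
      have e1 : One s(i x, i y1) s(i y1, i z) := ⟨i y1, i x, i z, Sym2.eq_swap, rfl, ne (by omega)⟩
      have e2 : One s(i y1, i z1) s(i x, i y1) := ⟨i y1, i z1, i x, rfl, Sym2.eq_swap, ne (by omega)⟩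
      exact (((k1.comp hD e1 k2).comp hD e2 k3).mono (by omega)).pad hD hI (by omega)
  rcases h.dif x y hxy with h1 | h1
  · rw [Sym2.eq_swap (a := i x)]
    exact key hxy.symm h1
  · exact key hxy h1

/-- ALL FLAT P3's. -/
theorem p3s (h : Lay4 Λ lab v) (hi : Injective i) (hD : Closed D) (hI : ∀ n, idd ∈ D n)
    (w0 : ∀ a p p', lab a = v → Λ.Adj a p → Λ.Adj a p' → p ≠ p' → WC D c n s(i a, i p) s(i a, i p'))
    (w3 : ∀ a p p', lab a = v + 3 → Λ.Adj a p → Λ.Adj a p' → p ≠ p' → WC D c n s(i a, i p) s(i a, i p'))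
    (w2 : ∀ a p p', lab a = v + 2 → lab p = v + 1 → lab p' = v + 1 → Λ.Adj a p → Λ.Adj a p' → p ≠ p' →
      WC D c n s(i a, i p) s(i a, i p')) {x y z : T} (hy : Λ.Adj x y) (hz : Λ.Adj x z) (hyz : y ≠ z) :
    p3 (i x) (i y) (i z) ∈ D (Nat.factorial (8 * c) * (8 * n)) := by
  obtain ⟨A, a1, a2⟩ := h.loops hi hD hI w0 w3 w2 hy
  obtain ⟨B, b1, b2⟩ := h.loops hi hD hI w0 w3 w2 hz
  have h1 := p3_of_ee hD a2 b2 (fun e => hyz (hi e)) (k := 8 * c)
    ((Set.ncard_union_le A B).trans ((Nat.add_le_add a1 b1).trans (by omega)))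
  have e : n + n + n + n + (n + n + n + n) = 8 * n := by ring
  rwa [e] at h1

end Windows

end Lay4

end Pool.Agent.Lib.MP_688fd0_co.SQ5.H64
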