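import Pool.Agent.Lib.MP_688fd0_co.SQ5.H60.D3
import Pool.Agent.Lib.MP_688fd0_co.SQ5.H53.RegL

/-!
MP_688fd0_co, type C2, row DEGEN3 (helper60), part (C2) (helper64), the algebra: the rung graph of the labels `Wd .. Wd + 3`.

`c = [ab, at]` is inverted by `ab` and by one of `at`, `bt` (`Gp`, `κ = 1`: by `at`, `κ = -1`: by `bt`). The row of the strand with the label
`Wd + i` in block `m` (at the wall `Wd`) is `I * F m * c ^ f i (ph + m)` with a constant `I` (`nm`), `F` the wall word.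
So the strands `s` (label `Wd + i`), `s'` (label `Wd + i + 1`) have a rung of level `m` iff
`I' = I * (c ^ ±1) ^ off i (ph + m)`, where `off i` takes exactly the values 0 and one of 1, -1.
-/

set_option autoImplicit false

namespace Pool.Agent.Lib.MP_688fd0_co.SQ5.H64.D3

open Pool.Agent.Lib.MP_688fd0_co.SQ5.H76 Pool.Agent.Lib.MP_688fd0_co.SQ5.H53.RegC
open Pool.Agent.Lib.MP_688fd0_co.SQ5.H60 (Deg)

universe u

section group

variable {Q : Type u} [Group Q]

/-- The relations. -/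
structure Gp (al be s c : Q) (κ : ℤ) : Prop where
  hκ : κ = 1 ∨ κ = -1
  sa : s * al * s⁻¹ = c * al
  sb : s * be * s⁻¹ = c⁻¹ * be
  ca : al * c * al⁻¹ = c ^ (-κ)
  cb : be * c * be⁻¹ = c ^ κ
  cs : s * c * s⁻¹ = c⁻¹
  za : Commute (s * s) al
  zb : Commute (s * s) be
  c1 : c ≠ 1

theorem Gp.of_deg {a b t : Q} (h : Deg a b t) :
    ∃ κ, Gp (a * t) (b * t) (a * b) ((a * b) * (a * t) * (a * b)⁻¹ * (a * t)⁻¹) κ := by
  have hz := h.z
  have hzb := h.zb
  have hw := h.w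
  have hnc := h.nc
  have e1 : b * t = (a * b)⁻¹ * (a * t) := by
    rw [mul_inv_rev, h.ai, h.bi, mul_assoc, ← mul_assoc a a t, h.aa, one_mul]
  generalize a * b = s at *
  generalize a * t = al at *
  generalize b * t = be at *
  subst e1
  -- `k = al * s * al⁻¹ * s⁻¹ = c⁻¹`
  have ci : (s * al * s⁻¹ * al⁻¹)⁻¹ = al * s * al⁻¹ * s⁻¹ := by group
  have zal : s * s * al = al * (s * s) := hz
  have zal' : s⁻¹ * s⁻¹ * al = al * (s⁻¹ * s⁻¹) := by
    have := hz.inv_left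
    rwa [mul_inv_rev] at this
  -- `al * s⁻¹ = s⁻² al s`
  have e2 : al * s⁻¹ = s⁻¹ * s⁻¹ * al * s := by rw [zal']; group
  have cs : s * (s * al * s⁻¹ * al⁻¹) * s⁻¹ = (s * al * s⁻¹ * al⁻¹)⁻¹ := by
    have h2 : s * (s * al * s⁻¹ * al⁻¹) * s⁻¹ = (s * s * al) * s⁻¹ * al⁻¹ * s⁻¹ := by group
    rw [h2, zal]
    group
  have sb : s * (s⁻¹ * al) * s⁻¹ = (s * al * s⁻¹ * al⁻¹)⁻¹ * (s⁻¹ * al) := by
    have h2 : s * (s⁻¹ * al) * s⁻¹ = al * s⁻¹ := by group
    have h3 : (s * al * s⁻¹ * al⁻¹)⁻¹ * (s⁻¹ * al) = al * s * al⁻¹ * (s⁻¹ * s⁻¹ * al) := by group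
    rw [h2, h3, zal']
    group
  have c1 : s * al * s⁻¹ * al⁻¹ ≠ 1 := by
    intro h1
    apply hnc
    have h2 := eq_inv_of_mul_eq_one_left h1
    rw [inv_inv, mul_inv_eq_iff_eq_mul] at h2
    exact h2
  rcases hw with hw | hw
  · have hw' : al * al * s⁻¹ = s⁻¹ * (al * al) := hw.inv_right
    have ca : al * (s * al * s⁻¹ * al⁻¹) * al⁻¹ = (s * al * s⁻¹ * al⁻¹)⁻¹ := by
      have h3 : al * (s * al * s⁻¹ * al⁻¹) * al⁻¹ = (al * s * al⁻¹) * (al * al * s⁻¹) * al⁻¹ * al⁻¹ := by group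
      rw [h3, hw']
      group
    refine ⟨1, Or.inl rfl, by group, sb, ?_, ?_, cs, hz, hzb, c1⟩
    · rw [ca]
      group
    · have h4 : s⁻¹ * al * (s * al * s⁻¹ * al⁻¹) * (s⁻¹ * al)⁻¹ = s⁻¹ * (al * (s * al * s⁻¹ * al⁻¹) * al⁻¹) * s := by
        group
      rw [h4, ca, ← cs]
      group
  · have hw' : s⁻¹ * al * (s⁻¹ * al) * s = s * (s⁻¹ * al * (s⁻¹ * al)) := hw
    -- `be c be⁻¹ = c⁻¹`
    have cb : s⁻¹ * al * (s * al * s⁻¹ * al⁻¹) * (s⁻¹ * al)⁻¹ = (s * al * s⁻¹ * al⁻¹)⁻¹ := by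
      have h3 : s⁻¹ * al * (s * al * s⁻¹ * al⁻¹) * (s⁻¹ * al)⁻¹ =
        s⁻¹ * al * (s⁻¹ * (s * s * al)) * s⁻¹ * al⁻¹ * al⁻¹ * s := by group
      rw [h3, zal]
      have h4 : s⁻¹ * al * (s⁻¹ * (al * (s * s))) * s⁻¹ * al⁻¹ * al⁻¹ * s =
        (s⁻¹ * al * (s⁻¹ * al) * s) * al⁻¹ * al⁻¹ * s := by group
      rw [h4, hw']
      have h5 : s * (s⁻¹ * al * (s⁻¹ * al)) * al⁻¹ * al⁻¹ * s = (al * s⁻¹) * al⁻¹ * s := by group
      have zi : s⁻¹ * s⁻¹ * al⁻¹ = al⁻¹ * (s⁻¹ * s⁻¹) := by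
        have := hz.inv_inv
        rwa [mul_inv_rev] at this
      have h6 : al * s⁻¹ * al⁻¹ * s = al * s * (s⁻¹ * s⁻¹ * al⁻¹) * s := by group
      rw [h5, h6, zi]
      group
    refine ⟨-1, Or.inr rfl, by group, sb, ?_, ?_, cs, hz, hzb, c1⟩
    · have h4 : al * (s * al * s⁻¹ * al⁻¹) * al⁻¹ = s * (s⁻¹ * al * (s * al * s⁻¹ * al⁻¹) * (s⁻¹ * al)⁻¹) * s⁻¹ := by
        group
      rw [h4, cb, ← cs]
      have h5 : s * (s * (s * al * s⁻¹ * al⁻¹) * s⁻¹) * s⁻¹ = s * (s * al * s⁻¹ * al⁻¹)⁻¹ * s⁻¹ := by rw [cs]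
      rw [h5]
      have h6 : s * (s * al * s⁻¹ * al⁻¹)⁻¹ * s⁻¹ = (s * (s * al * s⁻¹ * al⁻¹) * s⁻¹)⁻¹ := by group
      rw [h6, cs]
      group
    · rw [cb]
      group

end group

/-! ### The letters -/

section letters

variable {Q : Type u} [Group Q] {q : L3 → Q} {c : Q} {κ : ℤ}

open Pool.Agent.Lib.MP_688fd0_co.SQ5.H20 (df)

/-- The relations for the letters. -/
abbrev Gq (q : L3 → Q) (c : Q) (κ : ℤ) : Prop := Gp (Bd.LL q true) (Bd.LL q false) (sg q) c κ

theorem Gq.of_deg (h : Deg (q .a) (q .b) (q .t)) :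
    ∃ κ, Gq q (sg q * Bd.LL q true * (sg q)⁻¹ * (Bd.LL q true)⁻¹) κ := Gp.of_deg h

namespace Gq

variable (G : Gq q c κ)
include G

theorem one_conj (b : Bool) : Bd.LL q b * c * (Bd.LL q b)⁻¹ = c ^ (-κ * df b) := by
  cases b
  · rw [G.cb]
    congr 1
    show κ = -κ * -1
    ring
  · rw [G.ca]
    congr 1
    show -κ = -κ * 1
    ring

theorem conj (b : Bool) (k : ℤ) : Bd.LL q b * c ^ k = c ^ (-κ * df b * k) * Bd.LL q b := by
  rw [← mul_inv_eq_iff_eq_mul, ← conj_zpow, one_conj G, ← zpow_mul]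

theorem comm_sq (b : Bool) (n : ℤ) : (sg q * sg q) ^ n * Bd.LL q b = Bd.LL q b * (sg q * sg q) ^ n := by
  cases b
  · exact G.zb.zpow_left n
  · exact G.za.zpow_left n

theorem sg_one (b : Bool) : sg q * Bd.LL q b * (sg q)⁻¹ = c ^ df b * Bd.LL q b := by
  cases b
  · rw [G.sb]
    show _ = c ^ (-1 : ℤ) * _
    rw [zpow_neg_one]
  · rw [G.sa]
    show _ = c ^ (1 : ℤ) * _
    rw [zpow_one]

theorem sg_LL (b : Bool) (n : ℤ) : sg q ^ n * Bd.LL q b * sg q ^ (-n) = c ^ (df b * (n % 2)) * Bd.LL q b := by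
  have h0 : ∀ k : ℤ, sg q ^ (2 * k) = (sg q * sg q) ^ k := by
    intro k
    rw [zpow_mul, zpow_ofNat, pow_two]
  rcases Int.emod_two_eq_zero_or_one n with h | h
  · have e : n = 2 * (n / 2) := by omega
    rw [h, mul_zero, zpow_zero, one_mul, e, h0, comm_sq G, show -(2 * (n / 2)) = 2 * (-(n / 2)) by ring, h0, zpow_neg]
    group
  · have e : n = 1 + 2 * (n / 2) := by omega
    rw [h, mul_one, e, zpow_add, zpow_one, h0, mul_assoc (sg q), comm_sq G, neg_add, zpow_add,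
      show -(2 * (n / 2)) = 2 * (-(n / 2)) by ring, h0, zpow_neg (sg q * sg q)]
    have e2 : sg q * (Bd.LL q b * (sg q * sg q) ^ (n / 2)) * (sg q ^ (-1 : ℤ) * ((sg q * sg q) ^ (n / 2))⁻¹) =
        sg q * Bd.LL q b * (sg q)⁻¹ := by
      have e3 : Commute ((sg q * sg q) ^ (n / 2)) (sg q ^ (-1 : ℤ)) := by
        rw [← h0]
        exact (Commute.refl (sg q)).zpow_zpow _ _
      rw [mul_assoc, mul_assoc (Bd.LL q b), ← mul_assoc ((sg q * sg q) ^ (n / 2)), e3.eq, mul_assoc (sg q ^ (-1 : ℤ)),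
        mul_inv_cancel, mul_one, zpow_neg_one, ← mul_assoc]
    rw [e2, sg_one G]

/-- `sg` inverts `c`. -/
theorem sg_conj (n k : ℤ) : ∃ e : ℤ, (e = 1 ∨ e = -1) ∧ c ^ k * sg q ^ n = sg q ^ n * c ^ (e * k) := by
  have h1 : sg q * c ^ k * (sg q)⁻¹ = c ^ (-k) := by
    rw [← conj_zpow, G.cs, inv_zpow, zpow_neg]
  have key : ∀ n : ℤ, ∃ e : ℤ, (e = 1 ∨ e = -1) ∧ ∀ k : ℤ, c ^ k * sg q ^ n = sg q ^ n * c ^ (e * k) := by
    have h3 : ∀ k : ℤ, c ^ k * sg q = sg q * c ^ (-k) := by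
      intro k
      have h2 : sg q * c ^ (-k) * (sg q)⁻¹ = c ^ k := by
        rw [← conj_zpow, G.cs, inv_zpow, zpow_neg, inv_inv]
      rw [← h2]
      group
    have h3' : ∀ k : ℤ, c ^ k * (sg q)⁻¹ = (sg q)⁻¹ * c ^ (-k) := by
      intro k
      have h4 := h3 (-k)
      rw [neg_neg] at h4
      rw [eq_inv_mul_iff_mul_eq, ← mul_assoc, ← h4]
      group
    intro n
    induction n using Int.induction_on with
    | zero => exact ⟨1, Or.inl rfl, fun k => by simp⟩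
    | succ n ih =>
      obtain ⟨e, he, h⟩ := ih
      refine ⟨-e, by rcases he with h | h <;> rw [h] <;> simp, fun k => ?_⟩
      rw [zpow_add_one, ← mul_assoc, h, mul_assoc, h3, ← mul_assoc]
      congr 2
      ring
    | pred n ih =>
      obtain ⟨e, he, h⟩ := ih
      refine ⟨-e, by rcases he with h | h <;> rw [h] <;> simp, fun k => ?_⟩
      rw [zpow_sub_one, ← mul_assoc, h, mul_assoc, h3', ← mul_assoc]
      congr 2
      ring
  obtain ⟨e, he, h⟩ := key n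
  exact ⟨e, he, h k⟩

/-- The commutators are the powers of `c`. -/
theorem comm_le : ⁅Subgroup.closure {q .a * q .t, q .a * q .b}, Subgroup.closure {q .a * q .t, q .a * q .b}⁆ ≤
    Subgroup.zpowers c := by
  have hal : Bd.LL q true = q .a * q .t := rfl
  have hs : sg q = q .a * q .b := rfl
  have G' := G
  have hκ := G.hκ
  have cs := G'.cs
  have sa := G'.sa
  have ca := G'.ca
  rw [hal, hs] at *
  generalize q .a * q .t = al at *
  generalize q .a * q .b = s at *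
  -- conjugation
  have hn : ∀ x ∈ Subgroup.closure {al, s}, ∀ z ∈ Subgroup.zpowers c, x * z * x⁻¹ ∈ Subgroup.zpowers c ∧
      x⁻¹ * z * x ∈ Subgroup.zpowers c := by
    intro x hx
    induction hx using Subgroup.closure_induction with
    | mem x hx =>
      rintro z ⟨k, rfl⟩
      simp only
      rcases hx with hx | hx
      · rw [show x = al from hx]
        have e1 : al * c ^ k * al⁻¹ = c ^ (-κ * k) := by rw [← conj_zpow, ca, ← zpow_mul]
        have e2 : al * c ^ (-κ * k) * al⁻¹ = c ^ k := by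
          rw [← conj_zpow, ca, ← zpow_mul]
          congr 1
          rcases hκ with h | h <;> rw [h] <;> ring
        refine ⟨⟨_, e1.symm⟩, ⟨-κ * k, ?_⟩⟩
        simp only
        rw [← e2]
        group
      · rw [show x = s from hx]
        have e1 : s * c ^ k * s⁻¹ = c ^ (-k) := by rw [← conj_zpow, cs, inv_zpow, zpow_neg]
        have e2 : s * c ^ (-k) * s⁻¹ = c ^ k := by rw [← conj_zpow, cs, inv_zpow, zpow_neg, inv_inv]
        refine ⟨⟨_, e1.symm⟩, ⟨-k, ?_⟩⟩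
        simp only
        rw [← e2]
        group
    | one => exact fun z hz => ⟨by simpa using hz, by simpa using hz⟩
    | mul x y _ _ h1 h2 =>
      intro z hz
      refine ⟨?_, ?_⟩
      · have := (h1 _ (h2 z hz).1).1
        have e : x * y * z * (x * y)⁻¹ = x * (y * z * y⁻¹) * x⁻¹ := by group
        rwa [e]
      · have := (h2 _ (h1 z hz).2).2
        have e : (x * y)⁻¹ * z * (x * y) = y⁻¹ * (x⁻¹ * z * x) * y := by group
        rwa [e]
    | inv x _ h1 => exact fun z hz => ⟨by simpa using (h1 z hz).2, by simpa using (h1 z hz).1⟩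
  -- the right entry
  have hgen : ∀ x ∈ Subgroup.closure {al, s}, ∀ y ∈ ({al, s} : Set Q), x * y * x⁻¹ * y⁻¹ ∈ Subgroup.zpowers c := by
    intro x hx
    induction hx using Subgroup.closure_induction with
    | mem x hx =>
      intro y hy
      have e1 : s * al * s⁻¹ * al⁻¹ = c := by rw [sa, mul_inv_cancel_right]
      rcases hx with hx | hx <;> rcases hy with hy | hy
      · rw [show x = al from hx, show y = al from hy, mul_inv_cancel_right, mul_inv_cancel]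
        exact one_mem _
      · have e2 : al * s * al⁻¹ * s⁻¹ = c⁻¹ := by rw [← e1]; group
        rw [show x = al from hx, show y = s from hy, e2]
        exact inv_mem (Subgroup.mem_zpowers c)
      · rw [show x = s from hx, show y = al from hy, e1]
        exact Subgroup.mem_zpowers c
      · rw [show x = s from hx, show y = s from hy, mul_inv_cancel_right, mul_inv_cancel]
        exact one_mem _
    | one => exact fun y _ => by simp
    | mul x x' hx hx' h1 h2 =>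
      intro y hy
      have e : x * x' * y * (x * x')⁻¹ * y⁻¹ = x * (x' * y * x'⁻¹ * y⁻¹) * x⁻¹ * (x * y * x⁻¹ * y⁻¹) := by group
      rw [e]
      exact mul_mem (hn x hx _ (h2 y hy)).1 (h1 y hy)
    | inv x hx h1 =>
      intro y hy
      have e : x⁻¹ * y * x⁻¹⁻¹ * y⁻¹ = x⁻¹ * (x * y * x⁻¹ * y⁻¹)⁻¹ * x := by group
      rw [e]
      exact (hn x hx _ (inv_mem (h1 y hy))).2
  rw [Subgroup.commutator_le]
  intro x hx y hy
  rw [commutatorElement_def]
  induction hy using Subgroup.closure_induction with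
  | mem y hy => exact hgen x hx y hy
  | one => simp
  | mul y y' hy hy' h1 h2 =>
    have e : x * (y * y') * x⁻¹ * (y * y')⁻¹ = (x * y * x⁻¹ * y⁻¹) * (y * (x * y' * x⁻¹ * y'⁻¹) * y⁻¹) := by group
    rw [e]
    exact mul_mem h1 (hn y hy _ h2).1
  | inv y hy h1 =>
    have e : x * y⁻¹ * x⁻¹ * y⁻¹⁻¹ = y⁻¹ * (x * y * x⁻¹ * y⁻¹)⁻¹ * y := by group
    rw [e]
    exact (hn y hy _ (inv_mem h1)).2

end Gq

end letters

/-! ### The tables -/

/-- The column of the strand with the label `Wd + i` in phase `x + 1`, mod 2. -/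
def ee (i x : ℤ) : ℤ := if 1 ≤ i - col (x + 1) then 1 else 0

/-- The exponent of the strand with the label `Wd + i` in phase `x`. -/
def ff (κ i x : ℤ) : ℤ :=
  if i = 0 then 0
  else if i = 1 then (if x % 8 = 6 then -κ else if x % 8 = 7 then 1 else 0)
  else if i = 2 then (if x % 8 = 1 then -κ else if x % 8 = 2 then 1 else if x % 8 = 5 then -κ else
    if x % 8 = 6 then -1 - κ else if x % 8 = 7 then 1 else 0)
  else (if x % 8 = 1 then -κ else if x % 8 = 2 then 1 - κ else if x % 8 = 3 then -1 else if x % 8 = 5 then -κ else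
    if x % 8 = 6 then -1 - κ else if x % 8 = 7 then 1 else 0)

/-- The sign of the wall word in phase `x`. -/
def si (κ x : ℤ) : ℤ :=
  if x % 8 = 0 then 1 else if x % 8 = 1 then -κ else if x % 8 = 2 then 1 else if x % 8 = 3 then κ else
    if x % 8 = 4 then -1 else if x % 8 = 5 then -κ else if x % 8 = 6 then -1 else κ

/-- The offset of the rung between `Wd + i`, `Wd + i + 1` in phase `x`. -/
def off (κ i x : ℤ) : ℤ := si κ x * (ff κ i x - ff κ (i + 1) x)

section tables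

open Pool.Agent.Lib.MP_688fd0_co.SQ5.H20 (df)

variable {κ : ℤ} (hκ : κ = 1 ∨ κ = -1)
include hκ

theorem ff_succ {i : ℤ} (h0 : 0 ≤ i) (h3 : i ≤ 3) (x : ℤ) :
    ff κ i (x + 1) = -κ * df (bw x) * (ff κ i x + df (bw x) * ee i x) := by
  have hx : x % 8 = 0 ∨ x % 8 = 1 ∨ x % 8 = 2 ∨ x % 8 = 3 ∨ x % 8 = 4 ∨ x % 8 = 5 ∨ x % 8 = 6 ∨ x % 8 = 7 := by omega
  have hi : i = 0 ∨ i = 1 ∨ i = 2 ∨ i = 3 := by omega
  unfold ff ee col bw df
  rcases hx with h | h | h | h | h | h | h | h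
  · have h' : (x + 1) % 8 = 1 := by omega
    rcases hi with rfl | rfl | rfl | rfl <;> rcases hκ with rfl | rfl <;> simp [h, h']
  · have h' : (x + 1) % 8 = 2 := by omega
    rcases hi with rfl | rfl | rfl | rfl <;> rcases hκ with rfl | rfl <;> simp [h, h']
  · have h' : (x + 1) % 8 = 3 := by omega
    rcases hi with rfl | rfl | rfl | rfl <;> rcases hκ with rfl | rfl <;> simp [h, h']
  · have h' : (x + 1) % 8 = 4 := by omega
    rcases hi with rfl | rfl | rfl | rfl <;> rcases hκ with rfl | rfl <;> simp [h, h']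
  · have h' : (x + 1) % 8 = 5 := by omega
    rcases hi with rfl | rfl | rfl | rfl <;> rcases hκ with rfl | rfl <;> simp [h, h']
  · have h' : (x + 1) % 8 = 6 := by omega
    rcases hi with rfl | rfl | rfl | rfl <;> rcases hκ with rfl | rfl <;> simp [h, h']
  · have h' : (x + 1) % 8 = 7 := by omega
    rcases hi with rfl | rfl | rfl | rfl <;> rcases hκ with rfl | rfl <;> simp [h, h']
  · have h' : (x + 1) % 8 = 0 := by omega
    rcases hi with rfl | rfl | rfl | rfl <;> rcases hκ with rfl | rfl <;> simp [h, h']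

theorem si_succ (x : ℤ) : si κ (x + 1) = -κ * df (bw x) * si κ x := by
  have hx : x % 8 = 0 ∨ x % 8 = 1 ∨ x % 8 = 2 ∨ x % 8 = 3 ∨ x % 8 = 4 ∨ x % 8 = 5 ∨ x % 8 = 6 ∨ x % 8 = 7 := by omega
  unfold si bw df
  rcases hx with h | h | h | h | h | h | h | h
  · have h' : (x + 1) % 8 = 1 := by omega
    rcases hκ with rfl | rfl <;> simp [h, h']
  · have h' : (x + 1) % 8 = 2 := by omega
    rcases hκ with rfl | rfl <;> simp [h, h']
  · have h' : (x + 1) % 8 = 3 := by omega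
    rcases hκ with rfl | rfl <;> simp [h, h']
  · have h' : (x + 1) % 8 = 4 := by omega
    rcases hκ with rfl | rfl <;> simp [h, h']
  · have h' : (x + 1) % 8 = 5 := by omega
    rcases hκ with rfl | rfl <;> simp [h, h']
  · have h' : (x + 1) % 8 = 6 := by omega
    rcases hκ with rfl | rfl <;> simp [h, h']
  · have h' : (x + 1) % 8 = 7 := by omega
    rcases hκ with rfl | rfl <;> simp [h, h']
  · have h' : (x + 1) % 8 = 0 := by omega
    rcases hκ with rfl | rfl <;> simp [h, h']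

theorem si_val (x : ℤ) : si κ x = 1 ∨ si κ x = -1 := by
  unfold si
  rcases hκ with rfl | rfl <;> split_ifs <;> simp

theorem off0 (x : ℤ) : off κ 0 x = if x % 8 = 6 ∨ x % 8 = 7 then -κ else 0 := by
  have hx : x % 8 = 0 ∨ x % 8 = 1 ∨ x % 8 = 2 ∨ x % 8 = 3 ∨ x % 8 = 4 ∨ x % 8 = 5 ∨ x % 8 = 6 ∨ x % 8 = 7 := by omega
  unfold off si ff
  rcases hx with h | h | h | h | h | h | h | h <;> rcases hκ with rfl | rfl <;> simp [h]

theorem off1 (x : ℤ) : off κ 1 x = if x % 8 = 1 ∨ x % 8 = 2 ∨ x % 8 = 5 ∨ x % 8 = 6 then -1 else 0 := by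
  have hx : x % 8 = 0 ∨ x % 8 = 1 ∨ x % 8 = 2 ∨ x % 8 = 3 ∨ x % 8 = 4 ∨ x % 8 = 5 ∨ x % 8 = 6 ∨ x % 8 = 7 := by omega
  unfold off si ff
  rcases hx with h | h | h | h | h | h | h | h <;> rcases hκ with rfl | rfl <;> simp [h]

theorem off2 (x : ℤ) : off κ 2 x = if x % 8 = 2 ∨ x % 8 = 3 then κ else 0 := by
  have hx : x % 8 = 0 ∨ x % 8 = 1 ∨ x % 8 = 2 ∨ x % 8 = 3 ∨ x % 8 = 4 ∨ x % 8 = 5 ∨ x % 8 = 6 ∨ x % 8 = 7 := by omega
  unfold off si ff
  rcases hx with h | h | h | h | h | h | h | h <;> rcases hκ with rfl | rfl <;> simp [h]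

end tables

end Pool.Agent.Lib.MP_688fd0_co.SQ5.H64.D3
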