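import Pool.Agent.Lib.MP_688fd0_co.SQ5.H64.Deg3A
import Pool.Agent.Lib.MP_688fd0_co.SQ5.H64.Deg3G

/-!
MP_688fd0_co, type C2, row DEGEN3 (helper60), part (C2) (helper64): THE RUNG GRAPH of the labels `Wd .. Wd + 3` is a `Lay4`; it is
connected; the windows.
-/

set_option autoImplicit false

namespace Pool.Agent.Lib.MP_688fd0_co.SQ5.H64.D3

open Pool.Agent.Lib.MP_688fd0_co.OSF Pool.Agent.Lib.MP_688fd0_co.SQ5.H95
open Pool.Agent.Lib.MP_688fd0_co.SQ5.H76 Pool.Agent.Lib.MP_688fd0_co.SQ5.H53.RegC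
open Pool.Agent.Lib.MP_688fd0_co.SQ5.H20 (df)

universe u v

/-! ### The constant of a strand -/

section name

variable {Q : Type u} [Group Q] {q : L3 → Q} {c : Q} {κ : ℤ} {D : Bd} {s0 ph Wd : ℤ}

/-- The row at the wall `Wd`. -/
noncomputable def RR (q : L3 → Q) (D : Bd) (s0 Wd m : ℤ) (p : ℤ × Q) : Q := row q D s0 m p * sg q ^ nn D Wd

/-- The wall word. -/
def FF (q : L3 → Q) (D : Bd) (s0 m : ℤ) : Q := gz (fun s => Bd.LL q (D.b s)) s0 m

/-- The name of a strand. -/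
noncomputable def nm (q : L3 → Q) (c : Q) (κ : ℤ) (D : Bd) (s0 ph Wd : ℤ) (p : ℤ × Q) : Q :=
  RR q D s0 Wd 0 p * c ^ (-ff κ (p.1 - Wd) ph)

theorem par (H : H60.D3 D s0 ph Wd) {j : ℤ} (h0 : -2 ≤ j) (h1 : j ≤ 3) :
    (nn D (Wd + j) - nn D Wd) % 2 = if 1 ≤ j then 1 else 0 := by
  have e0 := nn_succ D Wd
  have e1 := nn_succ D (Wd + 1)
  have e2 := nn_succ D (Wd + 2)
  have e3 := nn_succ D (Wd - 1)
  have e4 := nn_succ D (Wd - 2)
  have a0 := H.h0
  have a1 := H.h1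
  have a2 := H.h2
  have a3 := H.e1
  have a4 := H.e2
  rw [show Wd + 1 + 1 = Wd + 2 by ring] at e1
  rw [show Wd + 2 + 1 = Wd + 3 by ring] at e2
  rw [show Wd - 1 + 1 = Wd by ring] at e3
  rw [show Wd - 2 + 1 = Wd - 1 by ring] at e4
  have hj : j = -2 ∨ j = -1 ∨ j = 0 ∨ j = 1 ∨ j = 2 ∨ j = 3 := by omega
  rcases hj with rfl | rfl | rfl | rfl | rfl | rfl
  · rw [show Wd + -2 = Wd - 2 by ring]
    simp
    omega
  · rw [show Wd + -1 = Wd - 1 by ring]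
    simp
    omega
  · simp
  · simp
    omega
  · simp
    omega
  · simp
    omega

variable (G : Gq q c κ) (H : H60.D3 D s0 ph Wd)
include G H

theorem RR_succ (hq : ∀ i, q i * q i = 1) {p : ℤ × Q} {i : ℤ} (hp : p.1 = Wd + i) (h0 : 0 ≤ i) (h3 : i ≤ 3) (m : ℤ) :
    RR q D s0 Wd (m + 1) p = RR q D s0 Wd m p * (c ^ (df (bw (ph + m)) * ee i (ph + m)) * Bd.LL q (bw (ph + m))) := by
  unfold RR
  rw [row_succ D s0 hq]
  have hc := H.cs (m + 1)
  rw [← add_assoc] at hc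
  rw [hc, hp, ← add_assoc]
  unfold lam
  rw [H.b]
  have hcn := col_nonneg (ph + m + 1)
  have hcl := col_le (ph + m + 1)
  have h1 := par H (j := i - col (ph + m + 1)) (by omega) (by omega)
  rw [← add_sub_assoc] at h1
  have h2 := G.sg_LL (bw (ph + m)) (nn D (Wd + i - col (ph + m + 1)) - nn D Wd)
  rw [h1] at h2
  have h3 : ee i (ph + m) = if 1 ≤ i - col (ph + m + 1) then 1 else 0 := rfl
  rw [h3, ← h2, neg_sub, zpow_sub, zpow_sub, zpow_neg]
  group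

theorem FF_c (m k : ℤ) : FF q D s0 m * c ^ k = c ^ (si κ ph * si κ (ph + m) * k) * FF q D s0 m := by
  have hs := si_val G.hκ ph
  have key : ∀ m : ℤ, (∀ k, FF q D s0 m * c ^ k = c ^ (si κ ph * si κ (ph + m) * k) * FF q D s0 m) ↔
      ∀ k, FF q D s0 (m + 1) * c ^ k = c ^ (si κ ph * si κ (ph + (m + 1)) * k) * FF q D s0 (m + 1) := by
    intro m
    have e1 : FF q D s0 (m + 1) = FF q D s0 m * Bd.LL q (bw (ph + m)) := by
      unfold FF
      rw [gz_succ, H.b]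
    have e2 : si κ (ph + (m + 1)) = -κ * df (bw (ph + m)) * si κ (ph + m) := by rw [← add_assoc, si_succ G.hκ]
    have hτ : (-κ * df (bw (ph + m))) * (-κ * df (bw (ph + m))) = 1 := by
      have h1 : df (bw (ph + m)) = 1 ∨ df (bw (ph + m)) = -1 := by
        unfold df
        split_ifs
        · exact Or.inl rfl
        · exact Or.inr rfl
      rcases G.hκ with h | h <;> rcases h1 with h1 | h1 <;> rw [h, h1] <;> norm_num
    have hL := G.conj (bw (ph + m))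
    generalize -κ * df (bw (ph + m)) = τ at e2 hτ hL
    generalize Bd.LL q (bw (ph + m)) = x at e1 hL
    rw [e1, e2]
    constructor
    · intro h k
      rw [mul_assoc, hL, ← mul_assoc, h, mul_assoc]
      congr 2
      ring
    · intro h k
      have h1 : FF q D s0 m * c ^ (τ * (τ * k)) * x = c ^ (si κ ph * (τ * si κ (ph + m)) * (τ * k)) * FF q D s0 m * x := by
        have h1 := h (τ * k)
        rw [mul_assoc, hL, ← mul_assoc] at h1
        rw [h1, mul_assoc (c ^ _)]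
      have h2 := mul_right_cancel h1
      rw [← mul_assoc τ, hτ, one_mul] at h2
      rw [h2]
      congr 2
      rw [show si κ ph * (τ * si κ (ph + m)) * (τ * k) = si κ ph * si κ (ph + m) * (τ * τ * k) by ring, hτ, one_mul]
  have h0 : ∀ k, FF q D s0 0 * c ^ k = c ^ (si κ ph * si κ (ph + 0) * k) * FF q D s0 0 := by
    intro k
    have e : si κ ph * si κ (ph + 0) = 1 := by
      rw [add_zero]
      rcases hs with h | h <;> rw [h] <;> norm_num
    unfold FF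
    rw [gz_zero, e]
    simp
  have hall : ∀ m : ℤ, ∀ k, FF q D s0 m * c ^ k = c ^ (si κ ph * si κ (ph + m) * k) * FF q D s0 m := by
    intro m
    induction m using Int.induction_on with
    | zero => exact h0
    | succ m ih => exact (key m).1 ih
    | pred m ih =>
      refine (key _).2 ?_
      rwa [sub_add_cancel]
  exact hall m k

/-- THE FORMULA. -/
theorem RR_eq (hq : ∀ i, q i * q i = 1) {p : ℤ × Q} {i : ℤ} (hp : p.1 = Wd + i) (h0 : 0 ≤ i) (h3 : i ≤ 3) (m : ℤ) :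
    RR q D s0 Wd m p = nm q c κ D s0 ph Wd p * FF q D s0 m * c ^ ff κ i (ph + m) := by
  have hi : p.1 - Wd = i := by rw [hp]; ring
  have key : ∀ m : ℤ, RR q D s0 Wd m p = nm q c κ D s0 ph Wd p * FF q D s0 m * c ^ ff κ i (ph + m) ↔
      RR q D s0 Wd (m + 1) p = nm q c κ D s0 ph Wd p * FF q D s0 (m + 1) * c ^ ff κ i (ph + (m + 1)) := by
    intro m
    have e1 : FF q D s0 (m + 1) = FF q D s0 m * Bd.LL q (bw (ph + m)) := by
      unfold FF
      rw [gz_succ, H.b]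
    have e2 := ff_succ G.hκ h0 h3 (ph + m)
    have e4 : nm q c κ D s0 ph Wd p * FF q D s0 (m + 1) * c ^ ff κ i (ph + (m + 1)) =
        nm q c κ D s0 ph Wd p * FF q D s0 m * c ^ ff κ i (ph + m) *
          (c ^ (df (bw (ph + m)) * ee i (ph + m)) * Bd.LL q (bw (ph + m))) := by
      have hτ : (-κ * df (bw (ph + m))) * (-κ * df (bw (ph + m))) = 1 := by
        have h1 : df (bw (ph + m)) = 1 ∨ df (bw (ph + m)) = -1 := by
          unfold df
          split_ifs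
          · exact Or.inl rfl
          · exact Or.inr rfl
        rcases G.hκ with h | h <;> rcases h1 with h1 | h1 <;> rw [h, h1] <;> norm_num
      rw [e1, ← add_assoc, e2, mul_assoc, mul_assoc (FF q D s0 m), G.conj, ← mul_assoc (-κ * df (bw (ph + m))), hτ, one_mul,
        zpow_add]
      simp only [mul_assoc]
    rw [e4, RR_succ G H hq hp h0 h3 m]
    exact ⟨fun h => by rw [h], fun h => mul_right_cancel h⟩
  have h0' : RR q D s0 Wd 0 p = nm q c κ D s0 ph Wd p * FF q D s0 0 * c ^ ff κ i (ph + 0) := by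
    unfold nm FF
    rw [gz_zero, hi, add_zero, mul_one, mul_assoc, ← zpow_add]
    simp
  induction m using Int.induction_on with
  | zero => exact h0'
  | succ m ih => exact (key m).1 ih
  | pred m ih =>
    refine (key _).2 ?_
    rwa [sub_add_cancel]

/-- THE RUNGS. -/
theorem row_iff (hq : ∀ i, q i * q i = 1) {p p' : ℤ × Q} {i : ℤ} (hp : p.1 = Wd + i) (hp' : p'.1 = Wd + i + 1) (h0 : 0 ≤ i)
    (h2 : i ≤ 2) (m : ℤ) : row q D s0 m p = row q D s0 m p' ↔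
      nm q c κ D s0 ph Wd p' = nm q c κ D s0 ph Wd p * c ^ (si κ ph * off κ i (ph + m)) := by
  have e1 := RR_eq G H hq hp h0 (by omega) m
  have e2 := RR_eq G H hq (p := p') (i := i + 1) (by rw [hp']; ring) (by omega) (by omega) m
  have e3 : row q D s0 m p = row q D s0 m p' ↔ RR q D s0 Wd m p = RR q D s0 Wd m p' := by
    unfold RR
    exact ⟨fun h => by rw [h], fun h => mul_right_cancel h⟩
  rw [e3, e1, e2]
  have h5 := FF_c G H m (ff κ i (ph + m) - ff κ (i + 1) (ph + m))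
  rw [zpow_sub, ← mul_assoc, mul_inv_eq_iff_eq_mul] at h5
  rw [mul_assoc _ (FF q D s0 m), h5]
  have h6 : si κ ph * si κ (ph + m) * (ff κ i (ph + m) - ff κ (i + 1) (ph + m)) = si κ ph * off κ i (ph + m) := by
    unfold off
    ring
  rw [h6, ← mul_assoc, mul_left_inj, ← mul_assoc, mul_left_inj]
  exact eq_comm

omit G H in
/-- A strand is given by its label and its name. -/
theorem nm_inj {p p' : ℤ × Q} (h1 : p.1 = p'.1) (h2 : nm q c κ D s0 ph Wd p = nm q c κ D s0 ph Wd p') : p = p' := by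
  unfold nm RR at h2
  rw [h1] at h2
  exact eq_of_row q D s0 0 h1 (mul_right_cancel (mul_right_cancel h2))

omit H in
/-- The names over one place. -/
theorem nm_lift {p p' : ℤ × Q} (h1 : p.1 = p'.1) {k : ℤ} (h2 : p.2⁻¹ * p'.2 = c ^ k) :
    ∃ e : ℤ, nm q c κ D s0 ph Wd p' = nm q c κ D s0 ph Wd p * c ^ e := by
  have e2 : p'.2 = p.2 * c ^ k := by rw [← h2, mul_inv_cancel_left]
  obtain ⟨e, -, he⟩ := G.sg_conj (-nn D (p.1 - D.cs s0) + nn D Wd) k
  refine ⟨e * k, ?_⟩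
  have e3 : ∀ x : Q, x * sg q ^ (-nn D (p.1 - D.cs s0)) * sg q ^ nn D Wd = x * sg q ^ (-nn D (p.1 - D.cs s0) + nn D Wd) := by
    intro x
    rw [mul_assoc, ← zpow_add]
  unfold nm RR row
  rw [← h1, e2, D.pos_zero, mul_one, mul_one, add_zero, e3, e3, mul_assoc p.2, he, ← mul_assoc, mul_assoc _ (c ^ (e * k)),
    mul_assoc _ (c ^ (-ff κ (p.1 - Wd) ph)), ← zpow_add, ← zpow_add, add_comm (e * k)]

end name

/-! ### The graph -/

section graph

variable {Q : Type u} [Group Q] {B : Lb.{u, v} Q} {l : L3 → B.L} {L : AddSubgroup (ℤ × ℤ)} {c : Cov B l L} {D : Bd}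
  {s0 ph Wd κ0 κ1 : ℤ} {cc : Q} {κ : ℤ}

/-- The name of a strand. -/
noncomputable def NN (cc : Q) (κ ph Wd : ℤ) (s : Sd c D s0 κ0 κ1) : Q := nm (qq B l) cc κ D s0 ph Wd s.1

theorem NN_inj {s s' : Sd c D s0 κ0 κ1} (h1 : s.1.1 = s'.1.1) (h2 : NN cc κ ph Wd s = NN cc κ ph Wd s') : s = s' :=
  Subtype.ext (nm_inj h1 h2)

/-- the exponent of the second neighbour -/
def gg (κ i : ℤ) : ℤ := if i = 0 then -κ else if i = 1 then -1 else κ

/-- the offset of the second neighbour -/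
def gx (cc : Q) (κ ph i : ℤ) : Q := cc ^ (si κ ph * gg κ i)

theorem off_cases (hκ : κ = 1 ∨ κ = -1) {i : ℤ} (h0 : 0 ≤ i) (h2 : i ≤ 2) (x : ℤ) : off κ i x = 0 ∨ off κ i x = gg κ i := by
  have hi : i = 0 ∨ i = 1 ∨ i = 2 := by omega
  rcases hi with rfl | rfl | rfl
  · rw [off0 hκ]
    split_ifs
    · exact Or.inr rfl
    · exact Or.inl rfl
  · rw [off1 hκ]
    split_ifs
    · exact Or.inr rfl
    · exact Or.inl rfl
  · rw [off2 hκ]
    split_ifs
    · exact Or.inr rfl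
    · exact Or.inl rfl

/-- a phase with the second offset -/
theorem off_two (hκ : κ = 1 ∨ κ = -1) {i : ℤ} (h0 : 0 ≤ i) (h2 : i ≤ 2) : ∃ x, off κ i x = gg κ i := by
  have hi : i = 0 ∨ i = 1 ∨ i = 2 := by omega
  rcases hi with rfl | rfl | rfl
  · exact ⟨6, by rw [off0 hκ]; rfl⟩
  · exact ⟨6, by rw [off1 hκ]; rfl⟩
  · exact ⟨2, by rw [off2 hκ]; rfl⟩

theorem off_one (hκ : κ = 1 ∨ κ = -1) {i : ℤ} (h0 : 0 ≤ i) (h2 : i ≤ 2) : off κ i 0 = 0 := by
  have hi : i = 0 ∨ i = 1 ∨ i = 2 := by omega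
  rcases hi with rfl | rfl | rfl
  · rw [off0 hκ]; rfl
  · rw [off1 hκ]; rfl
  · rw [off2 hκ]; rfl

theorem gx_ne (G : Gq (qq B l) cc κ) (i : ℤ) : gx cc κ ph i ≠ 1 := by
  have h1 : si κ ph * gg κ i = 1 ∨ si κ ph * gg κ i = -1 := by
    have h2 : gg κ i = 1 ∨ gg κ i = -1 := by
      unfold gg
      rcases G.hκ with h | h <;> rw [h] <;> split_ifs <;> norm_num
    rcases si_val G.hκ ph with h | h <;> rcases h2 with h2 | h2 <;> rw [h, h2] <;> norm_num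
  unfold gx
  rcases h1 with h | h <;> rw [h]
  · rw [zpow_one]
    exact G.c1
  · rw [zpow_neg_one]
    exact fun e => G.c1 (inv_eq_one.1 e)

theorem gx_eq (hκ : κ = 1 ∨ κ = -1) (i j : ℤ) : gx cc κ ph i = gx cc κ ph j ∨ gx cc κ ph i = (gx cc κ ph j)⁻¹ := by
  have h2 : ∀ i, gg κ i = 1 ∨ gg κ i = -1 := by
    intro i
    unfold gg
    rcases hκ with h | h <;> rw [h] <;> split_ifs <;> norm_num
  unfold gx
  rcases h2 i with h | h <;> rcases h2 j with h' | h' <;> rw [h, h']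
  · exact Or.inl rfl
  · right
    rw [← zpow_neg]
    congr 1
    ring
  · right
    rw [← zpow_neg]
    congr 1
    ring
  · exact Or.inl rfl

variable (hi : ∀ i, B.inv (l i) = l i) (G : Gq (qq B l) cc κ) (H : H60.D3 D s0 ph Wd)
include hi G H

theorem rung_up {m : ℤ} (hb : bw (ph + m) = true) {s s' : Sd c D s0 κ0 κ1} {i : ℤ} (h1 : s.1.1 = Wd + i)
    (h2 : s'.1.1 = Wd + i + 1) (h0 : 0 ≤ i) (h3 : i ≤ 2) :
    H20.Rung m s s' ↔ NN cc κ ph Wd s' = NN cc κ ph Wd s * cc ^ (si κ ph * off κ i (ph + m)) := by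
  rw [rung_H20, rung_iff D s0 (hqq hi), row_iff G H (hqq hi) h1 h2 h0 h3 m, H.b, hb]
  refine and_iff_right ?_
  rw [h1, h2]
  simp

theorem rung_dn {m : ℤ} (hb : bw (ph + m) = false) {s s' : Sd c D s0 κ0 κ1} {i : ℤ} (h1 : s.1.1 = Wd + i)
    (h2 : s'.1.1 = Wd + i + 1) (h0 : 0 ≤ i) (h3 : i ≤ 2) :
    H20.Rung m s' s ↔ NN cc κ ph Wd s' = NN cc κ ph Wd s * cc ^ (si κ ph * off κ i (ph + m)) := by
  rw [rung_H20, rung_iff D s0 (hqq hi), eq_comm (a := row _ _ _ _ _), row_iff G H (hqq hi) h1 h2 h0 h3 m, H.b, hb]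
  refine and_iff_right ?_
  rw [h1, h2]
  simp

theorem rung_or (m : ℤ) {s s' : Sd c D s0 κ0 κ1} {i : ℤ} (h1 : s.1.1 = Wd + i) (h2 : s'.1.1 = Wd + i + 1) (h0 : 0 ≤ i)
    (h3 : i ≤ 2) : (H20.Rung m s s' ∨ H20.Rung m s' s) ↔
      NN cc κ ph Wd s' = NN cc κ ph Wd s * cc ^ (si κ ph * off κ i (ph + m)) := by
  cases hb : bw (ph + m)
  · have h4 : ¬ H20.Rung m s s' := by
      intro h
      have h5 := h.1
      rw [H.b, hb, h1, h2] at h5
      unfold df at h5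
      simp at h5
    rw [or_iff_right h4, rung_dn hi G H hb h1 h2 h0 h3]
  · have h4 : ¬ H20.Rung m s' s := by
      intro h
      have h5 := h.1
      rw [H.b, hb, h1, h2] at h5
      unfold df at h5
      simp at h5
      omega
    rw [or_iff_left h4, rung_up hi G H hb h1 h2 h0 h3]

theorem adj_iff {s s' : Sd c D s0 κ0 κ1} {i : ℤ} (h1 : s.1.1 = Wd + i) (h2 : s'.1.1 = Wd + i + 1) (h0 : 0 ≤ i)
    (h3 : i ≤ 2) : (∃ m : ℤ, H20.Rung m s s' ∨ H20.Rung m s' s) ↔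
      NN cc κ ph Wd s' = NN cc κ ph Wd s ∨ NN cc κ ph Wd s' = NN cc κ ph Wd s * gx cc κ ph i := by
  constructor
  · rintro ⟨m, h⟩
    rw [rung_or hi G H m h1 h2 h0 h3] at h
    rcases off_cases G.hκ h0 h3 (ph + m) with e | e
    · left
      rw [h, e, mul_zero, zpow_zero, mul_one]
    · right
      rw [h, e]
      rfl
  · rintro (h | h)
    · refine ⟨-ph, (rung_or hi G H _ h1 h2 h0 h3).2 ?_⟩
      rw [add_neg_cancel, off_one G.hκ h0 h3, mul_zero, zpow_zero, mul_one, h]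
    · obtain ⟨x, hx⟩ := off_two G.hκ h0 h3
      refine ⟨x - ph, (rung_or hi G H _ h1 h2 h0 h3).2 ?_⟩
      rw [add_sub_cancel, hx, h]
      rfl

/-- EXISTENCE, one label higher. -/
theorem ex_up (hk1 : Wd + 3 ≤ κ1) (s : Sd c D s0 κ0 κ1) {i : ℤ} (h1 : s.1.1 = Wd + i) (h0 : 0 ≤ i) (h3 : i ≤ 2) :
    (∃ s' : Sd c D s0 κ0 κ1, s'.1.1 = Wd + i + 1 ∧ NN cc κ ph Wd s' = NN cc κ ph Wd s) ∧
      ∃ s' : Sd c D s0 κ0 κ1, s'.1.1 = Wd + i + 1 ∧ NN cc κ ph Wd s' = NN cc κ ph Wd s * gx cc κ ph i := by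
  have hs := s.2.1
  have key : ∀ m : ℤ, ∃ s' : Sd c D s0 κ0 κ1, s'.1.1 = Wd + i + 1 ∧
      NN cc κ ph Wd s' = NN cc κ ph Wd s * cc ^ (si κ ph * off κ i (ph + m)) := by
    intro m
    have h5 := nod_mk c hi D (k0 := κ0) (k1 := κ1) (m := m) (p := s.1) s.2 (κ := Wd + i + 1) (by omega) (by omega)
    exact ⟨⟨_, h5⟩, rfl, (row_iff G H (hqq hi) h1 rfl h0 h3 m).1 (row_mk _ _ _ _ _ _).symm⟩
  refine ⟨?_, ?_⟩
  · obtain ⟨s', h6, h7⟩ := key (-ph)
    refine ⟨s', h6, ?_⟩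
    rw [h7, add_neg_cancel, off_one G.hκ h0 h3, mul_zero, zpow_zero, mul_one]
  · obtain ⟨x, hx⟩ := off_two G.hκ h0 h3
    obtain ⟨s', h6, h7⟩ := key (x - ph)
    refine ⟨s', h6, ?_⟩
    rw [h7, add_sub_cancel, hx]
    rfl

/-- EXISTENCE, one label lower. -/
theorem ex_dn (hk0 : κ0 ≤ Wd) (s : Sd c D s0 κ0 κ1) {i : ℤ} (h1 : s.1.1 = Wd + i + 1) (h0 : 0 ≤ i) (h3 : i ≤ 2) :
    (∃ s' : Sd c D s0 κ0 κ1, s'.1.1 = Wd + i ∧ NN cc κ ph Wd s = NN cc κ ph Wd s') ∧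
      ∃ s' : Sd c D s0 κ0 κ1, s'.1.1 = Wd + i ∧ NN cc κ ph Wd s = NN cc κ ph Wd s' * gx cc κ ph i := by
  have hs := s.2.2.1
  have key : ∀ m : ℤ, ∃ s' : Sd c D s0 κ0 κ1, s'.1.1 = Wd + i ∧
      NN cc κ ph Wd s = NN cc κ ph Wd s' * cc ^ (si κ ph * off κ i (ph + m)) := by
    intro m
    have h5 := nod_mk c hi D (k0 := κ0) (k1 := κ1) (m := m) (p := s.1) s.2 (κ := Wd + i) (by omega) (by omega)
    exact ⟨⟨_, h5⟩, rfl, (row_iff G H (hqq hi) rfl h1 h0 h3 m).1 (row_mk _ _ _ _ _ _)⟩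
  refine ⟨?_, ?_⟩
  · obtain ⟨s', h6, h7⟩ := key (-ph)
    refine ⟨s', h6, ?_⟩
    rw [h7, add_neg_cancel, off_one G.hκ h0 h3, mul_zero, zpow_zero, mul_one]
  · obtain ⟨x, hx⟩ := off_two G.hκ h0 h3
    obtain ⟨s', h6, h7⟩ := key (x - ph)
    refine ⟨s', h6, ?_⟩
    rw [h7, add_sub_cancel, hx]
    rfl


omit hi G H in
/-- The active strands: a type `T` with the rung graph. -/
structure TT {T : Type*} (c : Cov B l L) (D : Bd) (s0 κ0 κ1 Wd : ℤ) (Λ : SimpleGraph T) (f : T → Sd c D s0 κ0 κ1) : Prop where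
  inj : Function.Injective f
  lo : ∀ x, Wd ≤ (f x).1.1
  hi : ∀ x, (f x).1.1 ≤ Wd + 3
  sur : ∀ s : Sd c D s0 κ0 κ1, Wd ≤ s.1.1 → s.1.1 ≤ Wd + 3 → ∃ x, f x = s
  adj : ∀ x y, Λ.Adj x y ↔ ∃ m : ℤ, H20.Rung m (f x) (f y) ∨ H20.Rung m (f y) (f x)

variable {T : Type*} {Λ : SimpleGraph T} {f : T → Sd c D s0 κ0 κ1} (K : TT c D s0 κ0 κ1 Wd Λ f)
include K

theorem t_adj {x y : T} {i : ℤ} (h1 : (f x).1.1 = Wd + i) (h2 : (f y).1.1 = Wd + i + 1) (h0 : 0 ≤ i) (h3 : i ≤ 2) :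
    Λ.Adj x y ↔ NN cc κ ph Wd (f y) = NN cc κ ph Wd (f x) ∨ NN cc κ ph Wd (f y) = NN cc κ ph Wd (f x) * gx cc κ ph i :=
  (K.adj x y).trans (adj_iff hi G H h1 h2 h0 h3)

omit hi G H in
theorem t_inj {x y : T} (h1 : (f x).1.1 = (f y).1.1) (h2 : NN cc κ ph Wd (f x) = NN cc κ ph Wd (f y)) : x = y :=
  K.inj (Subtype.ext (nm_inj h1 h2))

theorem t_up (hk1 : Wd + 3 ≤ κ1) (x : T) {i : ℤ} (h1 : (f x).1.1 = Wd + i) (h0 : 0 ≤ i) (h3 : i ≤ 2) :
    (∃ y, (f y).1.1 = Wd + i + 1 ∧ NN cc κ ph Wd (f y) = NN cc κ ph Wd (f x)) ∧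
      ∃ y, (f y).1.1 = Wd + i + 1 ∧ NN cc κ ph Wd (f y) = NN cc κ ph Wd (f x) * gx cc κ ph i := by
  obtain ⟨⟨s, a1, a2⟩, s', b1, b2⟩ := ex_up hi G H hk1 (f x) h1 h0 h3
  obtain ⟨y, rfl⟩ := K.sur s (by omega) (by omega)
  obtain ⟨y', rfl⟩ := K.sur s' (by omega) (by omega)
  exact ⟨⟨y, a1, a2⟩, y', b1, b2⟩

theorem t_dn (hk0 : κ0 ≤ Wd) (x : T) {i : ℤ} (h1 : (f x).1.1 = Wd + i + 1) (h0 : 0 ≤ i) (h3 : i ≤ 2) :
    (∃ y, (f y).1.1 = Wd + i ∧ NN cc κ ph Wd (f x) = NN cc κ ph Wd (f y)) ∧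
      ∃ y, (f y).1.1 = Wd + i ∧ NN cc κ ph Wd (f x) = NN cc κ ph Wd (f y) * gx cc κ ph i := by
  obtain ⟨⟨s, a1, a2⟩, s', b1, b2⟩ := ex_dn hi G H hk0 (f x) h1 h0 h3
  obtain ⟨y, rfl⟩ := K.sur s (by omega) (by omega)
  obtain ⟨y', rfl⟩ := K.sur s' (by omega) (by omega)
  exact ⟨⟨y, a1, a2⟩, y', b1, b2⟩

omit hi G H in
theorem t_dif {x y : T} (h : Λ.Adj x y) : (f y).1.1 = (f x).1.1 + 1 ∨ (f x).1.1 = (f y).1.1 + 1 := by
  obtain ⟨m, h | h⟩ := (K.adj x y).1 h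
  · have h1 := h.1
    unfold df at h1
    split_ifs at h1 <;> omega
  · have h1 := h.1
    unfold df at h1
    split_ifs at h1 <;> omega

/-- common neighbours of two strands with the label `Wd + i + 1` in the label `Wd + i + 2` -/
theorem t_com (hk1 : Wd + 3 ≤ κ1) {y x x' : T} {i : ℤ} (h0 : 0 ≤ i) (h3 : i ≤ 1) (hy : (f y).1.1 = Wd + i)
    (hx : (f x).1.1 = Wd + i + 1) (hx' : (f x').1.1 = Wd + i + 1) (hne : x ≠ x') (a : Λ.Adj y x) (a' : Λ.Adj y x') :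
    ∃ u, (f u).1.1 = Wd + i + 2 ∧ Λ.Adj u x ∧ Λ.Adj u x' := by
  rw [t_adj hi G H K hy hx h0 (by omega)] at a
  rw [t_adj hi G H K hy hx' h0 (by omega)] at a'
  have key : ∀ x x' : T, (f x).1.1 = Wd + i + 1 → (f x').1.1 = Wd + i + 1 →
      NN cc κ ph Wd (f x) = NN cc κ ph Wd (f y) → NN cc κ ph Wd (f x') = NN cc κ ph Wd (f y) * gx cc κ ph i →
      ∃ u, (f u).1.1 = Wd + i + 2 ∧ Λ.Adj u x ∧ Λ.Adj u x' := by
    intro x x' hx hx' e1 e2
    have hx1 : (f x).1.1 = Wd + (i + 1) := by rw [hx]; ring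
    have hx1' : (f x').1.1 = Wd + (i + 1) := by rw [hx']; ring
    rcases gx_eq (cc := cc) (ph := ph) G.hκ (i + 1) i with hg | hg
    · -- `u` over `x'`
      obtain ⟨⟨u, b1, b2⟩, -⟩ := t_up hi G H K hk1 x' hx1' (by omega) (by omega)
      refine ⟨u, by rw [b1]; ring, ?_, ?_⟩
      · exact ((t_adj hi G H K hx1 b1 (by omega) (by omega)).2 (Or.inr (by rw [b2, e2, e1, hg]))).symm
      · exact ((t_adj hi G H K hx1' b1 (by omega) (by omega)).2 (Or.inl b2)).symm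
    · obtain ⟨⟨u, b1, b2⟩, -⟩ := t_up hi G H K hk1 x hx1 (by omega) (by omega)
      refine ⟨u, by rw [b1]; ring, ?_, ?_⟩
      · exact ((t_adj hi G H K hx1 b1 (by omega) (by omega)).2 (Or.inl b2)).symm
      · exact ((t_adj hi G H K hx1' b1 (by omega) (by omega)).2
          (Or.inr (by rw [b2, e2, e1, hg, mul_inv_cancel_right]))).symm
  rcases a with a | a <;> rcases a' with a' | a'
  · exact absurd (t_inj K (hx.trans hx'.symm) (a.trans a'.symm)) hne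
  · exact key x x' hx hx' a a'
  · obtain ⟨u, u1, u2, u3⟩ := key x' x hx' hx a' a
    exact ⟨u, u1, u3, u2⟩
  · exact absurd (t_inj K (hx.trans hx'.symm) (a.trans a'.symm)) hne

/-- THE RUNG GRAPH IS A `Lay4`. -/
theorem lay4 (hk0 : κ0 ≤ Wd) (hk1 : Wd + 3 ≤ κ1) : Lay4 Λ (fun x => (f x).1.1) Wd where
  rng x := ⟨K.lo x, K.hi x⟩
  dif _ _ h := t_dif K h
  tw x y h := by
    have hx := K.lo x
    have hx' := K.hi x
    have hy := K.lo y
    have hy' := K.hi y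
    rcases t_dif K h with h1 | h1
    · obtain ⟨i, hi1⟩ : ∃ i, (f x).1.1 = Wd + i := ⟨_, (add_sub_cancel _ _).symm⟩
      have hy1 : (f y).1.1 = Wd + i + 1 := by rw [h1, hi1]
      obtain ⟨⟨u, b1, b2⟩, u', c1, c2⟩ := t_up hi G H K hk1 x hi1 (by omega) (by omega)
      rcases (t_adj hi G H K hi1 hy1 (by omega) (by omega)).1 h with h2 | h2
      · refine ⟨u', (t_adj hi G H K hi1 c1 (by omega) (by omega)).2 (Or.inr c2), by rw [c1, hy1], fun e => ?_⟩
        rw [e, h2] at c2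
        exact gx_ne G i (mul_eq_left.1 c2.symm)
      · refine ⟨u, (t_adj hi G H K hi1 b1 (by omega) (by omega)).2 (Or.inl b2), by rw [b1, hy1], fun e => ?_⟩
        rw [e, h2] at b2
        exact gx_ne G i (mul_eq_left.1 b2)
    · obtain ⟨i, hi1⟩ : ∃ i, (f y).1.1 = Wd + i := ⟨_, (add_sub_cancel _ _).symm⟩
      have hx1 : (f x).1.1 = Wd + i + 1 := by rw [h1, hi1]
      obtain ⟨⟨u, b1, b2⟩, u', c1, c2⟩ := t_dn hi G H K hk0 x hx1 (by omega) (by omega)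
      rcases (t_adj hi G H K hi1 hx1 (by omega) (by omega)).1 h.symm with h2 | h2
      · refine ⟨u', ((t_adj hi G H K c1 hx1 (by omega) (by omega)).2 (Or.inr c2)).symm, by rw [c1, hi1], fun e => ?_⟩
        rw [e, h2] at c2
        exact gx_ne G i (mul_eq_left.1 c2.symm)
      · refine ⟨u, ((t_adj hi G H K b1 hx1 (by omega) (by omega)).2 (Or.inl b2)).symm, by rw [b1, hi1], fun e => ?_⟩
        rw [e, h2] at b2
        exact gx_ne G i (mul_eq_left.1 b2)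
  up x h := by
    have hx := K.lo x
    obtain ⟨i, hi1⟩ : ∃ i, (f x).1.1 = Wd + i := ⟨_, (add_sub_cancel _ _).symm⟩
    have h' : (f x).1.1 ≤ Wd + 2 := h
    obtain ⟨⟨u, b1, b2⟩, -⟩ := t_up hi G H K hk1 x hi1 (by omega) (by omega)
    exact ⟨u, (t_adj hi G H K hi1 b1 (by omega) (by omega)).2 (Or.inl b2), by rw [b1, hi1]⟩
  dn x h := by
    have hx := K.hi x
    obtain ⟨i, hi1⟩ : ∃ i, (f x).1.1 = Wd + i + 1 := ⟨(f x).1.1 - Wd - 1, by ring⟩
    have h' : Wd + 1 ≤ (f x).1.1 := h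
    obtain ⟨⟨u, b1, b2⟩, -⟩ := t_dn hi G H K hk0 x hi1 (by omega) (by omega)
    exact ⟨u, ((t_adj hi G H K b1 hi1 (by omega) (by omega)).2 (Or.inl b2)).symm, by rw [b1, hi1]⟩
  co3 x x' y hy hx hx' hne a a' := by
    have hy' : (f y).1.1 = Wd + 1 := hy
    have hx1 : (f x).1.1 = Wd + 2 := hx
    have hx2 : (f x').1.1 = Wd + 2 := hx'
    obtain ⟨u, u1, u2, u3⟩ := t_com hi G H K hk1 (i := 1) (by norm_num) (by norm_num) hy' (by omega) (by omega) hne a a'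
    exact ⟨u, by show (f u).1.1 = _; omega, u2, u3⟩
  co2 y y' u hu hne a a' := by
    have hu' : (f u).1.1 = Wd := hu
    have h1 := K.lo y
    have h2 := K.lo y'
    have h3 := t_dif K a
    have h4 := t_dif K a'
    obtain ⟨w, w1, w2, w3⟩ := t_com hi G H K hk1 (i := 0) (by norm_num) (by norm_num) (by omega) (by omega) (by omega) hne a a'
    exact ⟨w, by show (f w).1.1 = _; omega, w2, w3⟩

end graph

/-! ### The windows -/

section win

open Pool.Agent.Lib.MP_688fd0_co.SQ5.H20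

variable {Q : Type u} [Group Q] {B : Lb.{u, v} Q} {l : L3 → B.L} {L : AddSubgroup (ℤ × ℤ)} {c : Cov B l L} {D : Bd}
  {s0 ph Wd κ0 κ1 : ℤ} {cc : Q} {κ : ℤ} [DecidableEq (Sd c D s0 κ0 κ1)]

/-- The windows: the rung of the block `m` of the wall `J` to the rung of the block `m + i`, for one `m` with the phase `x`. -/
def Wn (DD : ℕ → Set (Sd c D s0 κ0 κ1 × Bool → Sd c D s0 κ0 κ1 × Bool)) (hi : ∀ i, B.inv (l i) = l i) (ph : ℤ) (n1 n2 : ℕ)
    (J x i : ℤ) : Prop :=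
  ∃ m : ℤ, (ph + m) % 8 = x ∧ ∀ (y : Q) (hW : Wl c D s0 κ0 κ1 J y),
    WC DD n1 n2 s(wp hi hW m, wp hi hW (m + 1)) s(wp hi hW (m + i), wp hi hW (m + i + 1))

variable {DD : ℕ → Set (Sd c D s0 κ0 κ1 × Bool → Sd c D s0 κ0 κ1 × Bool)} (hi : ∀ i, B.inv (l i) = l i) {n1 n2 : ℕ}

omit [DecidableEq (Sd c D s0 κ0 κ1)] in
/-- The wall through a strand. -/
theorem thru (H : H60.D3 D s0 ph Wd) (s : Sd c D s0 κ0 κ1) {J m : ℤ} (h0 : κ0 ≤ J) (h1 : J + 2 ≤ κ1)
    (hs : s.1.1 = J + col (ph + m)) : ∃ y, ∃ hW : Wl c D s0 κ0 κ1 J y, wp hi hW m = s := by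
  have e : s.1.1 - D.cs (s0 + m) = J := by rw [hs, H.cs]; ring
  have h2 := exists_wl hi s m (fun m' => by rw [e, H.cs]; have := col_nonneg (ph + m'); omega)
    (fun m' => by rw [e, H.cs]; have := col_le (ph + m'); omega)
  rw [e] at h2
  exact h2

theorem wstep (H : H60.D3 D s0 ph Wd) {J m : ℤ} (h0 : κ0 ≤ J) (h1 : J + 2 ≤ κ1)
    (hw : ∀ (y : Q) (hW : Wl c D s0 κ0 κ1 J y),
      WC DD n1 n2 s(wp hi hW m, wp hi hW (m + 1)) s(wp hi hW (m + 1), wp hi hW (m + 1 + 1)))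
    {a p p' : Sd c D s0 κ0 κ1} (ha : a.1.1 = J + col (ph + (m + 1))) (r1 : Rung m p a) (r2 : Rung (m + 1) a p') :
    WC DD n1 n2 s(a, p) s(a, p') := by
  obtain ⟨y, hW, e⟩ := thru hi H a h0 h1 ha
  have h2 := hw y hW
  have e1 : wp hi hW m = p := by
    have h3 := wp_rung hi hW m
    rw [e] at h3
    exact h3.inj_left r1
  have e2 : wp hi hW (m + 1 + 1) = p' := by
    have h3 := wp_rung hi hW (m + 1)
    rw [e] at h3
    exact h3.inj_right r2
  rw [e, e1, e2] at h2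
  rw [Sym2.eq_swap (a := a) (b := p)]
  exact h2

variable (G : Gq (qq B l) cc κ) (H : H60.D3 D s0 ph Wd)

/-- The six windows. -/
structure Win6 (DD : ℕ → Set (Sd c D s0 κ0 κ1 × Bool → Sd c D s0 κ0 κ1 × Bool)) (hi : ∀ i, B.inv (l i) = l i)
    (ph Wd : ℤ) (n1 n2 : ℕ) : Prop where
  a5 : Wn DD hi ph n1 n2 Wd 5 1
  a7 : Wn DD hi ph n1 n2 Wd 7 1
  b1 : Wn DD hi ph n1 n2 (Wd + 1) 1 1
  b3 : Wn DD hi ph n1 n2 (Wd + 1) 3 1
  b6 : Wn DD hi ph n1 n2 (Wd + 1) 6 1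
  b0 : Wn DD hi ph n1 n2 (Wd + 1) 0 5

variable (hk0 : κ0 ≤ Wd) (hk1 : Wd + 3 ≤ κ1) (W6 : Win6 DD hi ph Wd n1 n2)
include G H hk0 hk1 W6

/-- centre `Wd` -/
theorem w0 {a p p' : Sd c D s0 κ0 κ1} (ha : a.1.1 = Wd) (hp : p.1.1 = Wd + 1) (hp' : p'.1.1 = Wd + 1)
    (h : (NN cc κ ph Wd p = NN cc κ ph Wd a ∧ NN cc κ ph Wd p' = NN cc κ ph Wd a * gx cc κ ph 0) ∨
      (NN cc κ ph Wd p = NN cc κ ph Wd a * gx cc κ ph 0 ∧ NN cc κ ph Wd p' = NN cc κ ph Wd a)) :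
    WC DD n1 n2 s(a, p) s(a, p') := by
  have ha0 : a.1.1 = Wd + 0 := by rw [ha]; ring
  have hp0 : p.1.1 = Wd + 0 + 1 := by rw [hp]; ring
  have hp0' : p'.1.1 = Wd + 0 + 1 := by rw [hp']; ring
  rcases h with ⟨h1, h2⟩ | ⟨h1, h2⟩
  · obtain ⟨m, hm, hw⟩ := W6.a5
    have m1 : (ph + (m + 1)) % 8 = 6 := by omega
    refine wstep hi H hk0 (by omega) hw ?_ ?_ ?_
    · rw [ha]
      unfold H76.col
      simp [m1]
    · refine (rung_dn hi G H (by unfold bw; simp [hm]) ha0 hp0 (le_refl 0) (by norm_num)).2 ?_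
      rw [off0 G.hκ, hm, h1]
      simp
    · refine (rung_up hi G H (by unfold bw; simp [m1]) ha0 hp0' (le_refl 0) (by norm_num)).2 ?_
      rw [off0 G.hκ, m1, h2]
      simp [gx, gg]
  · obtain ⟨m, hm, hw⟩ := W6.a7
    have m1 : (ph + (m + 1)) % 8 = 0 := by omega
    refine wstep hi H hk0 (by omega) hw ?_ ?_ ?_
    · rw [ha]
      unfold H76.col
      simp [m1]
    · refine (rung_dn hi G H (by unfold bw; simp [hm]) ha0 hp0 (le_refl 0) (by norm_num)).2 ?_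
      rw [off0 G.hκ, hm, h1]
      simp [gx, gg]
    · refine (rung_up hi G H (by unfold bw; simp [m1]) ha0 hp0' (le_refl 0) (by norm_num)).2 ?_
      rw [off0 G.hκ, m1, h2]
      simp

/-- centre `Wd + 3` -/
theorem w3 {a p p' : Sd c D s0 κ0 κ1} (ha : a.1.1 = Wd + 3) (hp : p.1.1 = Wd + 2) (hp' : p'.1.1 = Wd + 2)
    (h : (NN cc κ ph Wd a = NN cc κ ph Wd p ∧ NN cc κ ph Wd a = NN cc κ ph Wd p' * gx cc κ ph 2) ∨
      (NN cc κ ph Wd a = NN cc κ ph Wd p * gx cc κ ph 2 ∧ NN cc κ ph Wd a = NN cc κ ph Wd p')) :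
    WC DD n1 n2 s(a, p) s(a, p') := by
  have ha0 : a.1.1 = Wd + 2 + 1 := by rw [ha]; ring
  rcases h with ⟨h1, h2⟩ | ⟨h1, h2⟩
  · obtain ⟨m, hm, hw⟩ := W6.b1
    have m1 : (ph + (m + 1)) % 8 = 2 := by omega
    refine wstep hi H (by omega) (by omega) hw ?_ ?_ ?_
    · rw [ha]
      unfold H76.col
      simp [m1]
      ring
    · refine (rung_up hi G H (by unfold bw; simp [hm]) hp ha0 (by norm_num) (le_refl 2)).2 ?_
      rw [off2 G.hκ, hm, h1]
      simp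
    · refine (rung_dn hi G H (by unfold bw; simp [m1]) hp' ha0 (by norm_num) (le_refl 2)).2 ?_
      rw [off2 G.hκ, m1, h2]
      simp [gx, gg]
  · obtain ⟨m, hm, hw⟩ := W6.b3
    have m1 : (ph + (m + 1)) % 8 = 4 := by omega
    refine wstep hi H (by omega) (by omega) hw ?_ ?_ ?_
    · rw [ha]
      unfold H76.col
      simp [m1]
      ring
    · refine (rung_up hi G H (by unfold bw; simp [hm]) hp ha0 (by norm_num) (le_refl 2)).2 ?_
      rw [off2 G.hκ, hm, h1]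
      simp [gx, gg]
    · refine (rung_dn hi G H (by unfold bw; simp [m1]) hp' ha0 (by norm_num) (le_refl 2)).2 ?_
      rw [off2 G.hκ, m1, h2]
      simp

/-- centre `Wd + 2`, neighbours `Wd + 1` -/
theorem w2 {a p p' : Sd c D s0 κ0 κ1} (ha : a.1.1 = Wd + 2) (hp : p.1.1 = Wd + 1) (hp' : p'.1.1 = Wd + 1)
    (h : (NN cc κ ph Wd a = NN cc κ ph Wd p * gx cc κ ph 1 ∧ NN cc κ ph Wd a = NN cc κ ph Wd p') ∨
      (NN cc κ ph Wd a = NN cc κ ph Wd p ∧ NN cc κ ph Wd a = NN cc κ ph Wd p' * gx cc κ ph 1)) :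
    WC DD n1 n2 s(a, p) s(a, p') := by
  have ha0 : a.1.1 = Wd + 1 + 1 := by rw [ha]; ring
  rcases h with ⟨h1, h2⟩ | ⟨h1, h2⟩
  · obtain ⟨m, hm, hw⟩ := W6.b6
    have m1 : (ph + (m + 1)) % 8 = 7 := by omega
    refine wstep hi H (by omega) (by omega) hw ?_ ?_ ?_
    · rw [ha]
      unfold H76.col
      simp [m1]
      ring
    · refine (rung_up hi G H (by unfold bw; simp [hm]) hp ha0 (by norm_num) (by norm_num)).2 ?_
      rw [off1 G.hκ, hm, h1]
      simp [gx, gg]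
    · refine (rung_dn hi G H (by unfold bw; simp [m1]) hp' ha0 (by norm_num) (by norm_num)).2 ?_
      rw [off1 G.hκ, m1, h2]
      simp
  · obtain ⟨m, hm, hw⟩ := W6.b0
    have m1 : (ph + (m + 1)) % 8 = 1 := by omega
    have m2 : (ph + (m + 1 + 1)) % 8 = 2 := by omega
    have m3 : (ph + (m + 1 + 1 + 1)) % 8 = 3 := by omega
    have m4 : (ph + (m + 1 + 1 + 1 + 1)) % 8 = 4 := by omega
    have m5 : (ph + (m + 5)) % 8 = 5 := by omega
    have m6 : (ph + (m + 5 + 1)) % 8 = 6 := by omega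
    have e5 : m + 1 + 1 + 1 + 1 + 1 = m + 5 := by ring
    obtain ⟨y, hW, e⟩ := thru hi H a (J := Wd + 1) (m := m + 1) (by omega) (by omega) (by
      rw [ha]
      unfold H76.col
      simp [m1]
      ring)
    have h3 := hw y hW
    have lb : ∀ k : ℤ, (wp hi hW k).1.1 = Wd + 1 + col (ph + k) := fun k => by rw [wp_κ, H.cs]
    have r0 := wp_rung hi hW m
    have r1 := wp_rung hi hW (m + 1)
    have r2 := wp_rung hi hW (m + 1 + 1)
    have r3 := wp_rung hi hW (m + 1 + 1 + 1)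
    have r4 := wp_rung hi hW (m + 1 + 1 + 1 + 1)
    have r5 := wp_rung hi hW (m + 5)
    rw [e5] at r4
    have l0 : (wp hi hW m).1.1 = Wd + 1 := by rw [lb]; unfold H76.col; simp [hm]
    have l1 : (wp hi hW (m + 1)).1.1 = Wd + 1 + 1 := by rw [lb]; unfold H76.col; simp [m1]
    have l1' : (wp hi hW (m + 1)).1.1 = Wd + 2 := by rw [l1]; ring
    have l2 : (wp hi hW (m + 1 + 1)).1.1 = Wd + 2 + 1 := by rw [lb]; unfold H76.col; simp [m2]; ring
    have l3 : (wp hi hW (m + 1 + 1 + 1)).1.1 = Wd + 2 := by rw [lb]; unfold H76.col; simp [m3]; ring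
    have l4 : (wp hi hW (m + 1 + 1 + 1 + 1)).1.1 = Wd + 2 + 1 := by rw [lb]; unfold H76.col; simp [m4]; ring
    have l5 : (wp hi hW (m + 5)).1.1 = Wd + 2 := by rw [lb]; unfold H76.col; simp [m5]; ring
    have l5' : (wp hi hW (m + 5)).1.1 = Wd + 1 + 1 := by rw [l5]; ring
    have l6 : (wp hi hW (m + 5 + 1)).1.1 = Wd + 1 := by rw [lb]; unfold H76.col; simp [m6]
    have q0 := (rung_up hi G H (by unfold bw; simp [hm]) l0 l1 (by norm_num) (by norm_num)).1 r0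
    have q1 := (rung_up hi G H (by unfold bw; simp [m1]) l1' l2 (by norm_num) (by norm_num)).1 r1
    have q2 := (rung_dn hi G H (by unfold bw; simp [m2]) l3 l2 (by norm_num) (by norm_num)).1 r2
    have q3 := (rung_up hi G H (by unfold bw; simp [m3]) l3 l4 (by norm_num) (by norm_num)).1 r3
    have q4 := (rung_dn hi G H (by unfold bw; simp [m4]) l5 l4 (by norm_num) (by norm_num)).1 r4
    have q5 := (rung_dn hi G H (by unfold bw; simp [m5]) l6 l5' (by norm_num) (by norm_num)).1 r5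
    rw [off1 G.hκ, hm] at q0
    rw [off2 G.hκ, m1] at q1
    rw [off2 G.hκ, m2] at q2
    rw [off2 G.hκ, m3] at q3
    rw [off2 G.hκ, m4] at q4
    rw [off1 G.hκ, m5] at q5
    simp at q0 q1 q2 q3 q4 q5
    have e6 : wp hi hW (m + 5) = a := by
      rw [← e]
      refine NN_inj (cc := cc) (κ := κ) (ph := ph) (Wd := Wd) (l5.trans l1'.symm) ?_
      rw [← q4, q3, ← q2, q1]
    have e7 : wp hi hW m = p := by
      refine NN_inj (cc := cc) (κ := κ) (ph := ph) (Wd := Wd) (l0.trans hp.symm) ?_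
      rw [← q0, e, h1]
    have e8 : wp hi hW (m + 5 + 1) = p' := by
      refine NN_inj (cc := cc) (κ := κ) (ph := ph) (Wd := Wd) (l6.trans hp'.symm) ?_
      rw [e6, h2] at q5
      exact mul_right_cancel (q5.symm.trans (by simp [gx, gg]))
    rw [e, e6, e7, e8] at h3
    rw [Sym2.eq_swap (a := a) (b := p)]
    exact h3

end win

/-! ### The results -/

section main

open Function Pool.Agent.Lib.MP_688fd0_co.SQ5.H20

variable {Q : Type u} [Group Q] {B : Lb.{u, v} Q} {l : L3 → B.L} {L : AddSubgroup (ℤ × ℤ)} {c : Cov B l L} {D : Bd}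
  {s0 ph Wd κ0 κ1 : ℤ} (hi : ∀ i, B.inv (l i) = l i) (Dg : H60.Deg (qq B l .a) (qq B l .b) (qq B l .t))
  (H : H60.D3 D s0 ph Wd) (hk0 : κ0 ≤ Wd) (hk1 : Wd + 3 ≤ κ1)
  {T : Type*} {Λ : SimpleGraph T} {f : T → Sd c D s0 κ0 κ1} (K : TT c D s0 κ0 κ1 Wd Λ f)

/-- The strands with the labels `v0 .. v1` and the rung graph `Lam` (or `LamV`). -/
theorem TT.of_lam (c : Cov B l L) (D : Bd) (s0 κ0 κ1 : ℤ) {v0 v1 : ℤ} (h0 : v0 = Wd) (h1 : v1 = Wd + 3) :
    TT c D s0 κ0 κ1 Wd (LamV c D s0 κ0 κ1 v0 v1) Subtype.val where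
  inj := Subtype.val_injective
  lo x := h0 ▸ x.2.1
  hi x := h1 ▸ x.2.2
  sur s a b := ⟨⟨s, by rw [h0]; exact a, by rw [h1]; exact b⟩, rfl⟩
  adj x y := ⟨fun h => h.2.2, fun h => ⟨x.2, y.2, h⟩⟩

include hi Dg H hk0 hk1 K

/-- The rung graph is a `Lay4`. -/
theorem deg3_lay : Lay4 Λ (fun x => (f x).1.1) Wd := by
  obtain ⟨κ, G⟩ := Gq.of_deg (q := qq B l) Dg
  exact lay4 hi G H K hk0 hk1

/-- Every strand has a neighbour. -/
theorem deg3_iso (x : T) : ∃ y, Λ.Adj x y := (deg3_lay hi Dg H hk0 hk1 K).iso x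

/-- Every edge has an end with four neighbours. -/
theorem deg3_four (x y : T) (h : Λ.Adj x y) : H95.Four Λ x ∨ H95.Four Λ y := (deg3_lay hi Dg H hk0 hk1 K).h4 h

/-- LOOPS AND FLAT P3's. -/
theorem deg3_all [DecidableEq (Sd c D s0 κ0 κ1)] [Finite Q]
    {DD : ℕ → Set (Sd c D s0 κ0 κ1 × Bool → Sd c D s0 κ0 κ1 × Bool)} {n1 n2 : ℕ} (hD : Closed DD) (hI : ∀ n, idd ∈ DD n)
    (W6 : Win6 DD hi ph Wd n1 n2) :
    (∀ x y : T, Λ.Adj x y → WC DD (n1 + n1 + n1 + n1) (n2 + n2 + n2 + n2) s(f x, f y) s(f x, f y)) ∧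
    ∀ x y z : T, Λ.Adj x y → Λ.Adj x z → y ≠ z →
      p3 (f x) (f y) (f z) ∈ DD (Nat.factorial (8 * n1) * (8 * n2)) := by
  obtain ⟨κ, G⟩ := Gq.of_deg (q := qq B l) Dg
  have hL := lay4 hi G H K hk0 hk1
  have b0 : ∀ a p p' : T, (f a).1.1 = Wd → Λ.Adj a p → Λ.Adj a p' → p ≠ p' → WC DD n1 n2 s(f a, f p) s(f a, f p') := by
    intro a p p' ha h h' hne
    have h1 := K.lo p
    have h2 := K.lo p'
    have h3 := t_dif K h
    have h4 := t_dif K h'
    have ha0 : (f a).1.1 = Wd + 0 := by rw [ha]; ring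
    have hp : (f p).1.1 = Wd + 1 := by omega
    have hp' : (f p').1.1 = Wd + 1 := by omega
    rw [t_adj hi G H K ha0 (by rw [hp]; ring) (le_refl 0) (by norm_num)] at h
    rw [t_adj hi G H K ha0 (by rw [hp']; ring) (le_refl 0) (by norm_num)] at h'
    refine w0 hi G H hk0 hk1 W6 ha hp hp' ?_
    rcases h with h | h <;> rcases h' with h' | h'
    · exact absurd (t_inj K (hp.trans hp'.symm) (h.trans h'.symm)) hne
    · exact Or.inl ⟨h, h'⟩
    · exact Or.inr ⟨h, h'⟩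
    · exact absurd (t_inj K (hp.trans hp'.symm) (h.trans h'.symm)) hne
  have b3 : ∀ a p p' : T, (f a).1.1 = Wd + 3 → Λ.Adj a p → Λ.Adj a p' → p ≠ p' →
      WC DD n1 n2 s(f a, f p) s(f a, f p') := by
    intro a p p' ha h h' hne
    have h1 := K.hi p
    have h2 := K.hi p'
    have h3 := t_dif K h
    have h4 := t_dif K h'
    have hp : (f p).1.1 = Wd + 2 := by omega
    have hp' : (f p').1.1 = Wd + 2 := by omega
    have ha0 : (f a).1.1 = Wd + 2 + 1 := by rw [ha]; ring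
    have h := h.symm
    have h' := h'.symm
    rw [t_adj hi G H K hp ha0 (by norm_num) (le_refl 2)] at h
    rw [t_adj hi G H K hp' ha0 (by norm_num) (le_refl 2)] at h'
    refine w3 hi G H hk0 hk1 W6 ha hp hp' ?_
    rcases h with h | h <;> rcases h' with h' | h'
    · exact absurd (t_inj K (hp.trans hp'.symm) (h.symm.trans h')) hne
    · exact Or.inl ⟨h, h'⟩
    · exact Or.inr ⟨h, h'⟩
    · exact absurd (t_inj K (hp.trans hp'.symm) (mul_right_cancel (h.symm.trans h'))) hne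
  have b2 : ∀ a p p' : T, (f a).1.1 = Wd + 2 → (f p).1.1 = Wd + 1 → (f p').1.1 = Wd + 1 → Λ.Adj a p → Λ.Adj a p' →
      p ≠ p' → WC DD n1 n2 s(f a, f p) s(f a, f p') := by
    intro a p p' ha hp hp' h h' hne
    have ha0 : (f a).1.1 = Wd + 1 + 1 := by rw [ha]; ring
    have h := h.symm
    have h' := h'.symm
    rw [t_adj hi G H K hp ha0 (by norm_num) (by norm_num)] at h
    rw [t_adj hi G H K hp' ha0 (by norm_num) (by norm_num)] at h'
    refine w2 hi G H hk0 hk1 W6 ha hp hp' ?_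
    rcases h with h | h <;> rcases h' with h' | h'
    · exact absurd (t_inj K (hp.trans hp'.symm) (h.symm.trans h')) hne
    · exact Or.inr ⟨h, h'⟩
    · exact Or.inl ⟨h, h'⟩
    · exact absurd (t_inj K (hp.trans hp'.symm) (mul_right_cancel (h.symm.trans h'))) hne
  exact ⟨fun x y h => hL.loops K.inj hD hI b0 b3 b2 h, fun x y z h h' hne => hL.p3s K.inj hD hI b0 b3 b2 h h' hne⟩

/-- CONNECTED (all lifts): `hF` = 53's `hF_cov`. -/
theorem deg3_conn (hF : ∀ v y y', c.Over y v → c.Over y' v → y⁻¹ * y' ∈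
      ⁅Subgroup.closure {qq B l .a * qq B l .t, qq B l .a * qq B l .b},
        Subgroup.closure {qq B l .a * qq B l .t, qq B l .a * qq B l .b}⁆) (x y : T) : Λ.Reachable x y := by
  obtain ⟨κ, G⟩ := Gq.of_deg (q := qq B l) Dg
  have hF : ∀ v y y', c.Over y v → c.Over y' v →
      ∃ k : ℤ, y⁻¹ * y' = (sg (qq B l) * Bd.LL (qq B l) true * (sg (qq B l))⁻¹ * (Bd.LL (qq B l) true)⁻¹) ^ k := by
    intro v y y' h h'
    obtain ⟨k, hk⟩ := Gq.comm_le G (hF v y y' h h')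
    exact ⟨k, hk.symm⟩
  generalize sg (qq B l) * Bd.LL (qq B l) true * (sg (qq B l))⁻¹ * (Bd.LL (qq B l) true)⁻¹ = cc at G hF
  -- same label, same component
  have shift : ∀ n : ℕ, ∀ x y : T, (f x).1.1 = Wd → (f y).1.1 = Wd →
      NN cc κ ph Wd (f y) = NN cc κ ph Wd (f x) * gx cc κ ph 0 ^ n → Λ.Reachable x y := by
    intro n
    induction n with
    | zero =>
      intro x y hx hy h
      rw [pow_zero, mul_one] at h
      rw [t_inj K (hx.trans hy.symm) h.symm]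
    | succ n ih =>
      intro x y hx hy h
      have hx0 : (f x).1.1 = Wd + 0 := by rw [hx]; ring
      obtain ⟨-, u, u1, u2⟩ := t_up hi G H K hk1 x hx0 (le_refl 0) (by norm_num)
      obtain ⟨⟨w, w1, w2⟩, -⟩ := t_dn hi G H K hk0 u u1 (le_refl 0) (by norm_num)
      have e1 := (t_adj hi G H K hx0 u1 (le_refl 0) (by norm_num)).2 (Or.inr u2)
      have e2 := (t_adj hi G H K w1 u1 (le_refl 0) (by norm_num)).2 (Or.inl w2)
      refine (e1.reachable.trans e2.symm.reachable).trans (ih w y (by rw [w1]; ring) hy ?_)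
      rw [h, ← w2, u2, pow_succ', mul_assoc]
  -- all strands with the label `Wd`
  have zero : ∀ x y : T, (f x).1.1 = Wd → (f y).1.1 = Wd → Λ.Reachable x y := by
    intro x y hx hy
    have hxv := (f x).2.2.2
    have hyv := (f y).2.2.2
    rw [hx] at hxv
    rw [hy] at hyv
    obtain ⟨k, hk⟩ := hF _ _ _ hxv hyv
    obtain ⟨e, he⟩ := nm_lift (D := D) (s0 := s0) (ph := ph) (Wd := Wd) G (p := (f x).1) (p' := (f y).1) (hx.trans hy.symm) hk
    have hg : gx cc κ ph 0 = cc ∨ gx cc κ ph 0 = cc⁻¹ := by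
      have h1 : si κ ph * gg κ 0 = 1 ∨ si κ ph * gg κ 0 = -1 := by
        have h2 : gg κ 0 = 1 ∨ gg κ 0 = -1 := by
          unfold gg
          rcases G.hκ with h | h <;> rw [h] <;> norm_num
        rcases si_val G.hκ ph with h | h <;> rcases h2 with h2 | h2 <;> rw [h, h2] <;> norm_num
      unfold gx
      rcases h1 with h | h <;> rw [h]
      · left
        rw [zpow_one]
      · right
        rw [zpow_neg_one]
    have hc : ∃ e : ℤ, NN cc κ ph Wd (f y) = NN cc κ ph Wd (f x) * gx cc κ ph 0 ^ e := by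
      rcases hg with h | h
      · exact ⟨e, by rw [h]; exact he⟩
      · exact ⟨-e, by rw [h, inv_zpow, zpow_neg, inv_inv]; exact he⟩
    obtain ⟨e, he⟩ := hc
    obtain ⟨n, rfl | rfl⟩ := e.eq_nat_or_neg
    · exact shift n x y hx hy (by rw [he, zpow_natCast])
    · refine (shift n y x hy hx ?_).symm
      rw [he, zpow_neg, zpow_natCast, inv_mul_cancel_right]
  -- down to the label `Wd`
  have down : ∀ n : ℕ, ∀ x : T, (f x).1.1 = Wd + n → ∃ y : T, (f y).1.1 = Wd ∧ Λ.Reachable x y := by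
    intro n
    induction n with
    | zero => exact fun x hx => ⟨x, by rw [hx]; simp, SimpleGraph.Reachable.refl _⟩
    | succ n ih =>
      intro x hx
      push_cast at hx
      have h4 := K.hi x
      obtain ⟨⟨z, h6, h7⟩, -⟩ := t_dn hi G H K hk0 x (i := n) (by rw [hx]; ring) (by omega) (by omega)
      obtain ⟨y, h8, h9⟩ := ih z h6
      refine ⟨y, h8, SimpleGraph.Reachable.trans ?_ h9⟩
      exact ((t_adj hi G H K h6 (by rw [hx]; ring) (by omega) (by omega)).2 (Or.inl h7)).symm.reachable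
  have hx := K.lo x
  have hy := K.lo y
  obtain ⟨x', a1, a2⟩ := down ((f x).1.1 - Wd).toNat x (by omega)
  obtain ⟨y', b1, b2⟩ := down ((f y).1.1 - Wd).toNat y (by omega)
  exact (a2.trans (zero x' y' a1 b1)).trans b2.symm

end main

end Pool.Agent.Lib.MP_688fd0_co.SQ5.H64.D3
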